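import Mathlib

set_option autoImplicit false

/-! # Binomial coefficients -/

namespace Pool.Agent.Lib.MP_a7e07e_co.Sp

open Finset

/-- choose `a` elements in each of `r` groups -/
theorem choose_pow_le (v a r : ℕ) : (v.choose a) ^ r ≤ (v * r).choose (a * r) := by
  induction r with
  | zero => simp
  | succ r ih =>
    rw [pow_succ, Nat.mul_succ, Nat.mul_succ, Nat.add_choose_eq]
    refine (Nat.mul_le_mul_right _ ih).trans ?_
    have h : (a * r, a) ∈ antidiagonal (a * r + a) := by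
      rw [HasAntidiagonal.mem_antidiagonal]
    exact Finset.single_le_sum
      (f := fun ij : ℕ × ℕ => (v * r).choose ij.1 * v.choose ij.2) (fun _ _ => Nat.zero_le _) h

theorem two_pow_le_choose {m g : ℕ} (h : 2 * g ≤ m) : 2 ^ g ≤ m.choose g := by
  induction g generalizing m with
  | zero => simp
  | succ g ih =>
    obtain ⟨m, rfl⟩ : ∃ m', m = m' + 1 := ⟨m - 1, by omega⟩
    have h1 := ih (m := m) (by omega)
    have h2 := Nat.add_one_mul_choose_eq m g
    refine Nat.le_of_mul_le_mul_right ?_ (Nat.succ_pos g)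
    rw [Nat.succ_eq_add_one, ← h2, pow_succ]
    calc 2 ^ g * 2 * (g + 1) = (2 * (g + 1)) * 2 ^ g := by ring
      _ ≤ (m + 1) * m.choose g := Nat.mul_le_mul h h1

theorem div_pow_le_choose {m g : ℕ} (h : g ≤ m) : ((m : ℝ) / g) ^ g ≤ m.choose g := by
  induction g generalizing m with
  | zero => simp
  | succ g ih =>
    obtain ⟨m, rfl⟩ : ∃ m', m = m' + 1 := ⟨m - 1, by omega⟩
    have hgm : g ≤ m := by omega
    have h1 := ih (m := m) hgm
    have h2 := Nat.add_one_mul_choose_eq m g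
    have h3 : ((m + 1 : ℕ) : ℝ) * (m.choose g : ℝ) =
        ((m + 1).choose (g + 1) : ℝ) * ((g + 1 : ℕ) : ℝ) := by exact_mod_cast h2
    have hg0 : (0 : ℝ) < ((g + 1 : ℕ) : ℝ) := by positivity
    have h4 : ((m + 1).choose (g + 1) : ℝ) =
        (((m + 1 : ℕ) : ℝ) / ((g + 1 : ℕ) : ℝ)) * (m.choose g : ℝ) := by
      rw [div_mul_eq_mul_div, h3, mul_div_assoc, div_self hg0.ne', mul_one]
    rw [h4, pow_succ, mul_comm]
    refine mul_le_mul_of_nonneg_left (le_trans ?_ h1) (by positivity)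
    rcases Nat.eq_zero_or_pos g with hg | hg
    · subst hg
      simp
    · have hg' : (0 : ℝ) < (g : ℝ) := by exact_mod_cast hg
      refine pow_le_pow_left₀ (by positivity) ?_ g
      rw [div_le_div_iff₀ hg0 hg']
      push_cast
      have : (g : ℝ) ≤ (m : ℝ) := by exact_mod_cast hgm
      nlinarith

private theorem Bin_aux {m : ℕ} : ∀ (e g g' : ℕ), g = g' + e → g + g' ≤ m →
    m.choose g' ≤ m.choose g := by
  intro e
  induction e using Nat.strong_induction_on with
  | _ e ih =>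
    intro g g' h h2
    rcases Nat.eq_zero_or_pos e with he | he
    · subst he
      rw [h, Nat.add_zero]
    · rcases Nat.lt_or_ge (g + g') m with h3 | h3
      · have h4 : m.choose g' ≤ m.choose (g' + 1) :=
          Nat.choose_le_succ_of_lt_half_left (by omega)
        exact h4.trans (ih (e - 1) (by omega) g (g' + 1) (by omega) (by omega))
      · have h5 : m = g + g' := by omega
        exact (Nat.choose_symm_of_eq_add h5).ge

/-- for `g' ≤ g`, `g + g' ≤ m` -/
theorem choose_le_of_add_le {m g g' : ℕ} (h : g' ≤ g) (h2 : g + g' ≤ m) :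
    m.choose g' ≤ m.choose g :=
  Bin_aux (g - g') g g' (by omega) h2

theorem choose_add_le (m g d : ℕ) : m.choose (g + d) ≤ m.choose g * (m + 1) ^ d := by
  induction d with
  | zero => simp
  | succ d ih =>
    have h1 := Nat.choose_succ_right_eq m (g + d)
    have h2 : m.choose (g + d + 1) ≤ m.choose (g + d) * (m + 1) := by
      calc m.choose (g + d + 1) ≤ m.choose (g + d + 1) * (g + d + 1) :=
            Nat.le_mul_of_pos_right _ (Nat.succ_pos _)
        _ = m.choose (g + d) * (m - (g + d)) := h1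
        _ ≤ m.choose (g + d) * (m + 1) := Nat.mul_le_mul_left _ (by omega)
    calc m.choose (g + (d + 1)) = m.choose (g + d + 1) := rfl
      _ ≤ m.choose (g + d) * (m + 1) := h2
      _ ≤ m.choose g * (m + 1) ^ d * (m + 1) := Nat.mul_le_mul_right _ ih
      _ = m.choose g * (m + 1) ^ (d + 1) := by rw [pow_succ, mul_assoc]

private theorem Bin_pow {x i j : ℕ} (hi : 1 ≤ i) (hij : i ≤ j) : x ^ i ≤ x ^ j := by
  rcases Nat.eq_zero_or_pos x with hx | hx
  · subst hx
    rw [zero_pow (by omega)]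
    exact Nat.zero_le _
  · exact Nat.pow_le_pow_right hx hij

/-- the key inequality: if `(r, k) ≠ (2, 2)`, `g = a r`, `g' = c k`, then
`(C(v,a) C(b,c))^6 ≤ (C(m,g) (m+1)^d)^5` when `|g - g'| ≤ d` and `g + g' ≤ m` -/
theorem choose_mul_choose_le {v b r k a c d m : ℕ} (hr : 2 ≤ r) (hk : 2 ≤ k) (hrk : 5 ≤ r + k)
    (hv : v * r = m) (hb : b * k = m) (hgg : a * r + c * k ≤ m) (h1 : a * r ≤ c * k + d)
    (h2 : c * k ≤ a * r + d) :
    (v.choose a * b.choose c) ^ 6 ≤ (m.choose (a * r) * (m + 1) ^ d) ^ 5 := by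
  have h3 : (v.choose a) ^ r ≤ m.choose (a * r) := by
    rw [← hv]
    exact choose_pow_le v a r
  have h4 : (b.choose c) ^ k ≤ m.choose (c * k) := by
    rw [← hb]
    exact choose_pow_le b c k
  obtain ⟨G, hG⟩ : ∃ G, G = m.choose (a * r) * (m + 1) ^ d := ⟨_, rfl⟩
  have hone : 1 ≤ (m + 1) ^ d := Nat.one_le_pow _ _ (Nat.succ_pos m)
  have h5 : (v.choose a) ^ r ≤ G := by
    rw [hG]
    exact h3.trans (Nat.le_mul_of_pos_right _ hone)
  have h6 : m.choose (c * k) ≤ G := by
    rw [hG]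
    rcases le_total (c * k) (a * r) with h | h
    · exact (choose_le_of_add_le h hgg).trans (Nat.le_mul_of_pos_right _ hone)
    · obtain ⟨e, he⟩ : ∃ e, c * k = a * r + e := ⟨c * k - a * r, by omega⟩
      rw [he]
      refine (choose_add_le m (a * r) e).trans (Nat.mul_le_mul_left _ ?_)
      exact Nat.pow_le_pow_right (Nat.succ_pos m) (by omega)
  have h7 : (b.choose c) ^ k ≤ G := h4.trans h6
  rw [← hG, mul_pow]
  rcases Nat.lt_or_ge k 3 with hk3 | hk3
  · have hr3 : 3 ≤ r := by omega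
    have e1 : (v.choose a) ^ 3 ≤ G := (Bin_pow (by omega) hr3).trans h5
    have e2 : (b.choose c) ^ 2 ≤ G := (Bin_pow (by omega) hk).trans h7
    calc (v.choose a) ^ 6 * (b.choose c) ^ 6 =
        ((v.choose a) ^ 3) ^ 2 * ((b.choose c) ^ 2) ^ 3 := by ring
      _ ≤ G ^ 2 * G ^ 3 := Nat.mul_le_mul (Nat.pow_le_pow_left e1 2) (Nat.pow_le_pow_left e2 3)
      _ = G ^ 5 := by ring
  · have e1 : (v.choose a) ^ 2 ≤ G := (Bin_pow (by omega) hr).trans h5
    have e2 : (b.choose c) ^ 3 ≤ G := (Bin_pow (by omega) hk3).trans h7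
    calc (v.choose a) ^ 6 * (b.choose c) ^ 6 =
        ((v.choose a) ^ 2) ^ 3 * ((b.choose c) ^ 3) ^ 2 := by ring
      _ ≤ G ^ 3 * G ^ 2 := Nat.mul_le_mul (Nat.pow_le_pow_left e1 3) (Nat.pow_le_pow_left e2 2)
      _ = G ^ 5 := by ring

end Pool.Agent.Lib.MP_a7e07e_co.Sp
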