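import Pool.Agent.Lib.MP_a7e07e_co.Sp.Spec

set_option autoImplicit false

/-! # Designs given by matrices -/

namespace Pool.Agent.Lib.MP_a7e07e_co.Sp

open Matrix Finset

/-- the matrix `r I - N Nᵀ / k + J / v` of the frozen statement -/
noncomputable def FM {v b : ℕ} (k r : ℕ) (N : Matrix (Fin v) (Fin b) ℕ) :
    Matrix (Fin v) (Fin v) ℝ :=
  (r : ℝ) • (1 : Matrix (Fin v) (Fin v) ℝ)
    - (1 / (k : ℝ)) • (N.map (Nat.cast : ℕ → ℝ) * (N.map (Nat.cast : ℕ → ℝ)).transpose)
    + (1 / (v : ℝ)) • Matrix.of (fun _ _ => (1 : ℝ))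

/-- the matrix of a design -/
def mat {v b : ℕ} {P : Type} [Fintype P] (var : P → Fin v) (blk : P → Fin b) :
    Matrix (Fin v) (Fin b) ℕ :=
  fun i j => (univ.filter fun x => var x = i ∧ blk x = j).card

variable {v b r k : ℕ} {P : Type} [Fintype P] [DecidableEq P] {var : P → Fin v}
  {blk : P → Fin b}

theorem Bridge_row (var : P → Fin v) (blk : P → Fin b) (i : Fin v) :
    ∑ j, mat var blk i j = (univ.filter fun x => var x = i).card := by
  classical
  unfold mat
  rw [Finset.card_eq_sum_card_fiberwise (f := blk) (t := univ) (fun x _ => by simp)]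
  refine Finset.sum_congr rfl fun j _ => ?_
  congr 1
  ext x
  simp

theorem Bridge_col (var : P → Fin v) (blk : P → Fin b) (j : Fin b) :
    ∑ i, mat var blk i j = (univ.filter fun x => blk x = j).card := by
  classical
  unfold mat
  rw [Finset.card_eq_sum_card_fiberwise (f := var) (t := univ) (fun x _ => by simp)]
  refine Finset.sum_congr rfl fun i _ => ?_
  congr 1
  ext x
  simp [and_comm]

theorem mat_col (hb : Unif blk k) (j : Fin b) : ∑ i, mat var blk i j = k := by
  rw [Bridge_col, hb j]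

theorem mat_row (hv : Unif var r) (i : Fin v) : ∑ j, mat var blk i j = r := by
  rw [Bridge_row, hv i]

/-- every matrix comes from a design -/
theorem exists_design (N : Matrix (Fin v) (Fin b) ℕ) (hc : ∀ j, ∑ i, N i j = k)
    (hr : ∀ i, ∑ j, N i j = r) : ∃ (P : Type) (_ : Fintype P) (_ : DecidableEq P)
      (var : P → Fin v) (blk : P → Fin b), Unif var r ∧ Unif blk k ∧ mat var blk = N := by
  classical
  have key : mat (P := (p : Fin v × Fin b) × Fin (N p.1 p.2)) (fun x => x.1.1) (fun x => x.1.2)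
      = N := by
    ext i j
    unfold mat
    have h1 : (univ.filter fun x : (p : Fin v × Fin b) × Fin (N p.1 p.2) =>
        x.1.1 = i ∧ x.1.2 = j)
        = (univ : Finset (Fin (N i j))).map ⟨fun t => ⟨(i, j), t⟩, by
          intro s t h
          simpa using h⟩ := by
      ext ⟨⟨a, c⟩, t⟩
      simp only [mem_filter, mem_univ, true_and, mem_map, Function.Embedding.coeFn_mk]
      constructor
      · rintro ⟨rfl, rfl⟩
        exact ⟨t, rfl⟩
      · rintro ⟨s, hs⟩
        simp only [Sigma.mk.injEq, Prod.mk.injEq] at hs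
        exact ⟨hs.1.1.symm, hs.1.2.symm⟩
    rw [h1, card_map, card_univ, Fintype.card_fin]
  refine ⟨(p : Fin v × Fin b) × Fin (N p.1 p.2), inferInstance, inferInstance,
    fun x => x.1.1, fun x => x.1.2, ?_, ?_, key⟩
  · intro i
    have h1 := Bridge_row (fun x : (p : Fin v × Fin b) × Fin (N p.1 p.2) => x.1.1)
      (fun x => x.1.2) i
    rw [key, hr i] at h1
    exact h1.symm
  · intro j
    have h1 := Bridge_col (fun x : (p : Fin v × Fin b) × Fin (N p.1 p.2) => x.1.1)
      (fun x => x.1.2) j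
    rw [key, hc j] at h1
    exact h1.symm

theorem Bridge_inc : inc var * (inc blk)ᵀ = (mat var blk).map (Nat.cast : ℕ → ℝ) := by
  ext i j
  rw [Matrix.mul_apply, Matrix.map_apply]
  unfold mat inc
  rw [Finset.card_filter]
  push_cast
  refine Finset.sum_congr rfl fun x _ => ?_
  rw [Matrix.transpose_apply]
  by_cases h1 : var x = i <;> by_cases h2 : blk x = j <;> simp [h1, h2]

theorem MM_eq_mat : MM var blk r k = ((r : ℝ) * k)⁻¹ •
    ((mat var blk).map (Nat.cast : ℕ → ℝ) * ((mat var blk).map (Nat.cast : ℕ → ℝ)).transpose) := by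
  unfold MM
  rw [← Bridge_inc, Matrix.transpose_mul, Matrix.transpose_transpose]

theorem FM_eq (h : IsD var blk r k) : FM k r (mat var blk) =
    (r : ℝ) • XX var blk r k
      + ((1 - (r : ℝ)) * (1 / (v : ℝ))) • Matrix.of (fun _ _ => (1 : ℝ)) := by
  have hr : (r : ℝ) ≠ 0 := by
    have := h.hr
    positivity
  unfold FM XX
  rw [MM_eq_mat, Fintype.card_fin]
  ext i j
  simp only [Matrix.add_apply, Matrix.sub_apply, Matrix.smul_apply, smul_eq_mul, Matrix.of_apply]
  generalize ((mat var blk).map (Nat.cast : ℕ → ℝ)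
    * ((mat var blk).map (Nat.cast : ℕ → ℝ)).transpose) i j = q
  generalize (1 : Matrix (Fin v) (Fin v) ℝ) i j = d
  have : (r : ℝ) * (((r : ℝ) * k)⁻¹ * q) = 1 / (k : ℝ) * q := by
    rw [mul_inv]
    field_simp
  linear_combination this

theorem Bridge_v (h : IsD var blk r k) : (v : ℝ) ≠ 0 := by
  obtain ⟨x⟩ := h.ne
  have : 0 < v := (var x).pos
  positivity

theorem Bridge_J (f : Fin v → ℝ) : (Matrix.of (fun _ _ => (1 : ℝ)) : Matrix (Fin v) (Fin v) ℝ) *ᵥ f
    = fun _ => ∑ i, f i := by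
  ext i
  simp [Matrix.mulVec, dotProduct]

theorem Bridge_XX_one (h : IsD var blk r k) :
    XX var blk r k *ᵥ (fun _ => (1 : ℝ)) = fun _ => 1 := by
  have hv := Bridge_v h
  unfold XX
  rw [Matrix.add_mulVec, Matrix.sub_mulVec, MM_one h, Matrix.one_mulVec, Matrix.smul_mulVec,
    Bridge_J]
  ext i
  simp [hv]

theorem Bridge_XX_symm (h : IsD var blk r k) : (XX var blk r k)ᵀ = XX var blk r k := by
  have h1 : (MM var blk r k)ᵀ = MM var blk r k := by
    have := (MM_posSemidef h).isHermitian.eq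
    rwa [Matrix.conjTranspose_eq_transpose_of_trivial] at this
  unfold XX
  rw [Matrix.transpose_add, Matrix.transpose_sub, h1, Matrix.transpose_one, Matrix.transpose_smul]
  congr 2

theorem Bridge_sum_XX (h : IsD var blk r k) (f : Fin v → ℝ) :
    ∑ i, (XX var blk r k *ᵥ f) i = ∑ i, f i := by
  have h1 : (fun _ : Fin v => (1 : ℝ)) ⬝ᵥ (XX var blk r k *ᵥ f) = (fun _ : Fin v => (1 : ℝ)) ⬝ᵥ f := by
    rw [Matrix.dotProduct_mulVec, ← Matrix.mulVec_transpose, Bridge_XX_symm h, Bridge_XX_one h]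
  simpa [dotProduct] using h1

theorem Bridge_FM_mulVec (h : IsD var blk r k) (f : Fin v → ℝ) (i : Fin v) :
    (FM k r (mat var blk) *ᵥ f) i = (r : ℝ) * (XX var blk r k *ᵥ f) i
      + ((1 - (r : ℝ)) * (1 / (v : ℝ))) * ∑ j, f j := by
  rw [FM_eq h, Matrix.add_mulVec, Matrix.smul_mulVec, Matrix.smul_mulVec, Bridge_J]
  simp

theorem det_bridge (h : IsD var blk r k) :
    (FM k r (mat var blk)).det ≠ 0 ↔ (XX var blk r k).det ≠ 0 := by
  have hv := Bridge_v h
  have hr : (r : ℝ) ≠ 0 := by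
    have := h.hr
    positivity
  rw [not_iff_not, ← Matrix.exists_mulVec_eq_zero_iff, ← Matrix.exists_mulVec_eq_zero_iff]
  constructor
  · rintro ⟨f, hf, h0⟩
    have h1 : ∀ i, (r : ℝ) * (XX var blk r k *ᵥ f) i
        + ((1 - (r : ℝ)) * (1 / (v : ℝ))) * ∑ j, f j = 0 := by
      intro i
      rw [← Bridge_FM_mulVec h, h0]
      rfl
    have h2 : ∑ j, f j = 0 := by
      have h3 : ∑ i, ((r : ℝ) * (XX var blk r k *ᵥ f) i
        + ((1 - (r : ℝ)) * (1 / (v : ℝ))) * ∑ j, f j) = 0 := by
        rw [Finset.sum_congr rfl fun i _ => h1 i]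
        simp
      rw [Finset.sum_add_distrib, ← Finset.mul_sum, Bridge_sum_XX h, Finset.sum_const, card_univ,
        Fintype.card_fin, nsmul_eq_mul] at h3
      field_simp at h3
      linarith
    refine ⟨f, hf, ?_⟩
    ext i
    have := h1 i
    rw [h2, mul_zero, add_zero] at this
    simpa [hr] using this
  · rintro ⟨f, hf, h0⟩
    have h2 : ∑ j, f j = 0 := by
      rw [← Bridge_sum_XX h, h0]
      simp
    refine ⟨f, hf, ?_⟩
    ext i
    rw [Bridge_FM_mulVec h, h0, h2]
    simp

theorem trace_bridge (h : IsD var blk r k) (hd : (XX var blk r k).det ≠ 0) :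
    ((FM k r (mat var blk))⁻¹).trace = (1 / (r : ℝ)) * ff var blk r k + (1 - 1 / (r : ℝ)) := by
  have hv := Bridge_v h
  have hr : (r : ℝ) ≠ 0 := by
    have := h.hr
    positivity
  set X := XX var blk r k with hX
  set J : Matrix (Fin v) (Fin v) ℝ := Matrix.of (fun _ _ => (1 : ℝ)) with hJ
  have hu : IsUnit X.det := isUnit_iff_ne_zero.mpr hd
  have hXJ : X * J = J := by
    ext i j
    have := congrFun (Bridge_XX_one h) i
    rw [Matrix.mul_apply]
    change ∑ x, X i x * (1 : ℝ) = 1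
    simpa [Matrix.mulVec, dotProduct] using this
  have hJX : J * X = J := by
    have h1 := congrArg Matrix.transpose hXJ
    rw [Matrix.transpose_mul, Bridge_XX_symm h] at h1
    have h2 : Jᵀ = J := by
      ext i j
      rfl
    rwa [h2] at h1
  have hJXi : J * X⁻¹ = J := by
    calc J * X⁻¹ = (J * X) * X⁻¹ := by rw [hJX]
      _ = J := by rw [Matrix.mul_assoc, Matrix.mul_nonsing_inv X hu, Matrix.mul_one]
  have hJJ : J * J = (v : ℝ) • J := by
    ext i j
    rw [Matrix.mul_apply]
    simp [hJ]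
  have hXX : X * X⁻¹ = 1 := Matrix.mul_nonsing_inv X hu
  have hinv : FM k r (mat var blk) * ((1 / (r : ℝ)) • X⁻¹ + ((1 - 1 / (r : ℝ)) * (1 / (v : ℝ))) • J)
      = 1 := by
    rw [FM_eq h, Matrix.add_mul, Matrix.mul_add, Matrix.mul_add]
    simp only [Matrix.smul_mul, Matrix.mul_smul]
    rw [← hX, ← hJ, hXX, hXJ, hJXi, hJJ]
    ext i j
    simp only [Matrix.add_apply, Matrix.smul_apply, smul_eq_mul]
    have : J i j = 1 := rfl
    rw [this]
    field_simp
    ring
  rw [Matrix.inv_eq_right_inv hinv, Matrix.trace_add, Matrix.trace_smul, Matrix.trace_smul]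
  have : J.trace = v := by
    simp [Matrix.trace, hJ]
  rw [this]
  unfold ff
  rw [← hX, smul_eq_mul, smul_eq_mul]
  field_simp

/-- a non-binary connected design has `r, k ≥ 2` and `(r, k) ≠ (2, 2)` -/
theorem param_of_nonbinary (hv : 2 ≤ v) (N : Matrix (Fin v) (Fin b) ℕ)
    (hc : ∀ j, ∑ i, N i j = k) (hr : ∀ i, ∑ j, N i j = r) (hN : ∃ i j, 2 ≤ N i j)
    (hd : (FM k r N).det ≠ 0) : 2 ≤ r ∧ 2 ≤ k ∧ 5 ≤ r + k := by
  obtain ⟨i, j, hij⟩ := hN
  have h1 : N i j ≤ r := by
    rw [← hr i]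
    exact Finset.single_le_sum (f := fun j => N i j) (fun _ _ => Nat.zero_le _) (mem_univ j)
  have h2 : N i j ≤ k := by
    rw [← hc j]
    exact Finset.single_le_sum (f := fun i => N i j) (fun _ _ => Nat.zero_le _) (mem_univ i)
  refine ⟨hij.trans h1, hij.trans h2, ?_⟩
  by_contra hcon
  have hr2 : r = 2 := by omega
  have hk2 : k = 2 := by omega
  subst hr2 hk2
  have hN2 : N i j = 2 := by omega
  have hrow : ∀ l, l ≠ j → N i l = 0 := by
    intro l hl
    have h3 := hr i
    rw [← Finset.add_sum_erase univ (fun l => N i l) (mem_univ j), hN2] at h3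
    have h4 : ∑ l ∈ univ.erase j, N i l = 0 := by omega
    exact (Finset.sum_eq_zero_iff.mp h4) l (by simp [hl])
  have hcol : ∀ l, l ≠ i → N l j = 0 := by
    intro l hl
    have h3 := hc j
    rw [← Finset.add_sum_erase univ (fun l => N l j) (mem_univ i), hN2] at h3
    have h4 : ∑ l ∈ univ.erase i, N l j = 0 := by omega
    exact (Finset.sum_eq_zero_iff.mp h4) l (by simp [hl])
  have hv0 : (v : ℝ) ≠ 0 := by positivity
  apply hd
  rw [← Matrix.exists_mulVec_eq_zero_iff]
  refine ⟨fun l => (if l = i then 1 else 0) - 1 / (v : ℝ), ?_, ?_⟩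
  · intro h0
    obtain ⟨l, hl⟩ : ∃ l : Fin v, l ≠ i := by
      have : 1 < Fintype.card (Fin v) := by
        rw [Fintype.card_fin]
        omega
      have := Fintype.one_lt_card_iff_nontrivial.mp this
      exact exists_ne i
    have := congrFun h0 l
    simp [hl] at this
    omega
  · have hsum : ∑ l, ((if l = i then (1 : ℝ) else 0) - 1 / (v : ℝ)) = 0 := by
      rw [Finset.sum_sub_distrib]
      simp [hv0]
    have hNT : ∀ m, ∑ l, (N l m : ℝ) * ((if l = i then (1 : ℝ) else 0) - 1 / (v : ℝ))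
        = (N i m : ℝ) - 2 / (v : ℝ) := by
      intro m
      have h5 : (∑ l, (N l m : ℝ)) = 2 := by exact_mod_cast hc m
      simp only [mul_sub, Finset.sum_sub_distrib, mul_ite, mul_one, mul_zero,
        Finset.sum_ite_eq', mem_univ, if_true, ← Finset.sum_mul, h5]
      ring
    ext l
    unfold FM
    rw [Matrix.add_mulVec, Matrix.sub_mulVec, Matrix.smul_mulVec, Matrix.smul_mulVec,
      Matrix.smul_mulVec, Matrix.one_mulVec, Bridge_J, ← Matrix.mulVec_mulVec]
    simp only [Pi.add_apply, Pi.sub_apply, Pi.smul_apply, smul_eq_mul, Pi.zero_apply]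
    rw [hsum]
    have h6 : ((N.map (Nat.cast : ℕ → ℝ)) *ᵥ (((N.map (Nat.cast : ℕ → ℝ)).transpose) *ᵥ
        fun l => (if l = i then 1 else 0) - 1 / (v : ℝ))) l
        = 4 * ((if l = i then 1 else 0) - 1 / (v : ℝ)) := by
      have h7 : (((N.map (Nat.cast : ℕ → ℝ)).transpose) *ᵥ
        fun l => (if l = i then 1 else 0) - 1 / (v : ℝ)) = fun m => (N i m : ℝ) - 2 / (v : ℝ) := by
        ext m
        rw [← hNT m]
        rfl
      rw [h7]
      have h8 : (∑ m, (N l m : ℝ)) = 2 := by exact_mod_cast hr l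
      have h9 : ∑ m, (N l m : ℝ) * (N i m : ℝ) = 4 * (if l = i then 1 else 0) := by
        rw [Finset.sum_eq_single j]
        · by_cases hl : l = i
          · subst hl
            rw [hN2]
            norm_num
          · rw [hcol l hl]
            simp [hl]
        · intro m _ hm
          rw [hrow m hm]
          simp
        · simp
      have h10 : ((N.map (Nat.cast : ℕ → ℝ)) *ᵥ fun m => (N i m : ℝ) - 2 / (v : ℝ)) l
          = ∑ m, (N l m : ℝ) * ((N i m : ℝ) - 2 / (v : ℝ)) := rfl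
      rw [h10]
      simp only [mul_sub, Finset.sum_sub_distrib, ← Finset.sum_mul, h8, h9]
      ring
    rw [h6]
    push_cast
    ring

end Pool.Agent.Lib.MP_a7e07e_co.Sp
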