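import Pool.Agent.Lib.MP_a7e07e_co.Sp.Defs

set_option autoImplicit false

/-! # The radial chain -/

namespace Pool.Agent.Lib.MP_a7e07e_co.Sp

open Matrix Finset

variable {r k : ℕ}

theorem Chain_up_nonneg (hr : 2 ≤ r) (hk : 2 ≤ k) : 0 ≤ up r k := by
  have h1 : (2 : ℝ) ≤ r := by exact_mod_cast hr
  have h2 : (2 : ℝ) ≤ k := by exact_mod_cast hk
  unfold up
  exact div_nonneg (mul_nonneg (by linarith) (by linarith)) (by positivity)

theorem Chain_st_nonneg (hr : 2 ≤ r) (hk : 2 ≤ k) : 0 ≤ st r k := by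
  have h1 : (2 : ℝ) ≤ r := by exact_mod_cast hr
  have h2 : (2 : ℝ) ≤ k := by exact_mod_cast hk
  unfold st
  exact div_nonneg (by linarith) (by positivity)

theorem Chain_dn_nonneg : 0 ≤ dn r k := by
  unfold dn
  positivity

theorem Chain_sum_one (hr : 2 ≤ r) (hk : 2 ≤ k) : up r k + st r k + dn r k = 1 := by
  have h1 : (2 : ℝ) ≤ r := by exact_mod_cast hr
  have h2 : (2 : ℝ) ≤ k := by exact_mod_cast hk
  have h3 : (r : ℝ) ≠ 0 := by linarith
  have h4 : (k : ℝ) ≠ 0 := by linarith
  unfold up st dn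
  field_simp
  ring

theorem xs_nonneg (hr : 2 ≤ r) (hk : 2 ≤ k) (s j : ℕ) : 0 ≤ xs r k s j := by
  have h2 : (2 : ℝ) ≤ k := by exact_mod_cast hk
  have hup := Chain_up_nonneg hr hk
  have hst := Chain_st_nonneg hr hk
  have hdn : 0 ≤ dn r k := Chain_dn_nonneg
  induction s generalizing j with
  | zero =>
    cases j with
    | zero => simp [xs]
    | succ j => simp [xs]
  | succ s ih =>
    match j with
    | 0 =>
      simp only [xs]
      exact add_nonneg (mul_nonneg (by positivity) (ih 0)) (mul_nonneg hdn (ih 1))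
    | 1 =>
      simp only [xs]
      have h3 : 0 ≤ ((k : ℝ) - 1) / k := div_nonneg (by linarith) (by linarith)
      exact add_nonneg (add_nonneg (mul_nonneg h3 (ih 0)) (mul_nonneg hst (ih 1)))
        (mul_nonneg hdn (ih 2))
    | j + 2 =>
      simp only [xs]
      exact add_nonneg (add_nonneg (mul_nonneg hup (ih _)) (mul_nonneg hst (ih _)))
        (mul_nonneg hdn (ih _))

theorem xs_eq_zero (s j : ℕ) (h : s < j) : xs r k s j = 0 := by
  induction s generalizing j with
  | zero =>
    cases j with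
    | zero => omega
    | succ j => simp [xs]
  | succ s ih =>
    match j, h with
    | 0, h => omega
    | 1, h => omega
    | j + 2, h =>
      simp only [xs]
      rw [ih (j + 1) (by omega), ih (j + 2) (by omega), ih (j + 3) (by omega)]
      ring

/-- one step of the chain applied to a function -/
noncomputable def Chain_P (r k : ℕ) (w : ℕ → ℝ) : ℕ → ℝ
  | 0 => 1 / (k : ℝ) * w 0 + ((k : ℝ) - 1) / k * w 1
  | j + 1 => up r k * w (j + 2) + st r k * w (j + 1) + dn r k * w j

theorem Chain_step (w : ℕ → ℝ) (s : ℕ) :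
    ∑ j ∈ range (s + 2), w j * xs r k (s + 1) j
      = ∑ j ∈ range (s + 1), Chain_P r k w j * xs r k s j := by
  have z1 : xs r k s (s + 1) = 0 := xs_eq_zero s (s + 1) (by omega)
  have z2 : xs r k s (s + 2) = 0 := xs_eq_zero s (s + 2) (by omega)
  have e1 : ∑ j ∈ range s, st r k * (w (j + 2) * xs r k s (j + 2)) + st r k * (w 1 * xs r k s 1)
      = ∑ j ∈ range s, st r k * (w (j + 1) * xs r k s (j + 1)) := by
    have h1 := Finset.sum_range_succ' (fun j => st r k * (w (j + 1) * xs r k s (j + 1))) s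
    have h2 := Finset.sum_range_succ (fun j => st r k * (w (j + 1) * xs r k s (j + 1))) s
    rw [h2, z1] at h1
    simp only [mul_zero, add_zero, zero_add] at h1
    exact h1.symm
  have e2 : ∑ j ∈ range s, dn r k * (w (j + 2) * xs r k s (j + 3)) + dn r k * (w 1 * xs r k s 2)
      + dn r k * (w 0 * xs r k s 1)
      = ∑ j ∈ range s, dn r k * (w j * xs r k s (j + 1)) := by
    have h1 := Finset.sum_range_succ' (fun j => dn r k * (w j * xs r k s (j + 1))) (s + 1)
    have h2 := Finset.sum_range_succ' (fun j => dn r k * (w (j + 1) * xs r k s (j + 2))) s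
    have h3 := Finset.sum_range_succ (fun j => dn r k * (w j * xs r k s (j + 1))) (s + 1)
    have h4 := Finset.sum_range_succ (fun j => dn r k * (w j * xs r k s (j + 1))) s
    rw [h3, h4, z1, z2] at h1
    simp only [mul_zero, add_zero, zero_add] at h1 h2
    rw [h1, h2]
  rw [Finset.sum_range_succ' (fun j => w j * xs r k (s + 1) j) (s + 1),
    Finset.sum_range_succ' (fun j => w (j + 1) * xs r k (s + 1) (j + 1)) s,
    Finset.sum_range_succ' (fun j => Chain_P r k w j * xs r k s j) s]
  have e3 : ∑ j ∈ range s, w (j + 1 + 1) * xs r k (s + 1) (j + 1 + 1)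
      = ∑ j ∈ range s, up r k * (w (j + 2) * xs r k s (j + 1))
        + ∑ j ∈ range s, st r k * (w (j + 2) * xs r k s (j + 2))
        + ∑ j ∈ range s, dn r k * (w (j + 2) * xs r k s (j + 3)) := by
    rw [← Finset.sum_add_distrib, ← Finset.sum_add_distrib]
    refine Finset.sum_congr rfl fun j _ => ?_
    simp only [xs]
    ring
  have e4 : ∑ j ∈ range s, Chain_P r k w (j + 1) * xs r k s (j + 1)
      = ∑ j ∈ range s, up r k * (w (j + 2) * xs r k s (j + 1))
        + ∑ j ∈ range s, st r k * (w (j + 1) * xs r k s (j + 1))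
        + ∑ j ∈ range s, dn r k * (w j * xs r k s (j + 1)) := by
    rw [← Finset.sum_add_distrib, ← Finset.sum_add_distrib]
    refine Finset.sum_congr rfl fun j _ => ?_
    simp only [Chain_P]
    ring
  rw [e3, e4, ← e1, ← e2]
  simp only [Chain_P, xs, zero_add]
  ring

theorem xs_sum (hr : 2 ≤ r) (hk : 2 ≤ k) (s : ℕ) : ∑ j ∈ range (s + 1), xs r k s j = 1 := by
  have h2 : (2 : ℝ) ≤ k := by exact_mod_cast hk
  have hk0 : (k : ℝ) ≠ 0 := by linarith
  induction s with
  | zero => simp [xs]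
  | succ s ih =>
    have h := Chain_step (r := r) (k := k) (fun _ => 1) s
    simp only [one_mul] at h
    rw [h]
    refine Eq.trans (Finset.sum_congr rfl fun j _ => ?_) ih
    have hP : Chain_P r k (fun _ => 1) j = 1 := by
      cases j with
      | zero =>
        simp only [Chain_P]
        field_simp
        ring
      | succ j =>
        simp only [Chain_P, mul_one]
        exact Chain_sum_one hr hk
    rw [hP, one_mul]

theorem xs_one_one : xs r k 1 1 = ((k : ℝ) - 1) / k := by
  simp [xs]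

theorem Chain_drift (hr : 2 ≤ r) (hk : 2 ≤ k) (hrk : 5 ≤ r + k) :
    up r k * (3 / 4) + st r k + dn r k * (4 / 3) ≤ 35 / 36 := by
  have h1 : (2 : ℝ) ≤ r := by exact_mod_cast hr
  have h2 : (2 : ℝ) ≤ k := by exact_mod_cast hk
  have h3 : (5 : ℝ) ≤ r + k := by exact_mod_cast hrk
  have hs := Chain_sum_one hr hk
  have hrk0 : 0 < (r : ℝ) * k := by positivity
  have hN : (0 : ℝ) ≤ ((r : ℝ) - 2) * (k - 2) := mul_nonneg (by linarith) (by linarith)
  have hA : 1 / 36 ≤ up r k * (1 / 4) - dn r k * (1 / 3) := by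
    unfold up dn
    have e : ((r : ℝ) - 1) * (k - 1) / (r * k) * (1 / 4) - 1 / ((r : ℝ) * k) * (1 / 3)
        = (((r : ℝ) - 1) * (k - 1) * (1 / 4) - 1 / 3) / (r * k) := by
      field_simp
    rw [e, le_div_iff₀ hrk0]
    nlinarith
  linarith

theorem Chain_phi (hr : 2 ≤ r) (hk : 2 ≤ k) (hrk : 5 ≤ r + k) (s : ℕ) :
    ∑ j ∈ range (s + 1), (3 / 4 : ℝ) ^ j * xs r k s j ≤ (35 / 36 : ℝ) ^ s := by
  have h2 : (2 : ℝ) ≤ k := by exact_mod_cast hk
  have hk0 : (0 : ℝ) < k := by linarith
  induction s with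
  | zero => simp [xs]
  | succ s ih =>
    rw [Chain_step (r := r) (k := k) (fun j => (3 / 4 : ℝ) ^ j) s, pow_succ, mul_comm]
    refine le_trans ?_ (mul_le_mul_of_nonneg_left ih (by norm_num))
    rw [Finset.mul_sum]
    refine Finset.sum_le_sum fun j _ => ?_
    have hx := xs_nonneg hr hk s j
    have hP : Chain_P r k (fun j => (3 / 4 : ℝ) ^ j) j ≤ 35 / 36 * (3 / 4 : ℝ) ^ j := by
      cases j with
      | zero =>
        simp only [Chain_P, pow_zero, pow_one, mul_one]
        have e : 1 / (k : ℝ) + ((k : ℝ) - 1) / k * (3 / 4) = 3 / 4 + 1 / (4 * k) := by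
          field_simp
          ring
        rw [e]
        have h5 : 1 / (4 * (k : ℝ)) ≤ 1 / 8 :=
          one_div_le_one_div_of_le (by norm_num) (by linarith)
        linarith
      | succ j =>
        simp only [Chain_P]
        have hd := Chain_drift hr hk hrk
        have e : up r k * (3 / 4 : ℝ) ^ (j + 2) + st r k * (3 / 4 : ℝ) ^ (j + 1)
            + dn r k * (3 / 4 : ℝ) ^ j
            = (up r k * (3 / 4) + st r k + dn r k * (4 / 3)) * (3 / 4 : ℝ) ^ (j + 1) := by
          ring
        rw [e]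
        exact mul_le_mul_of_nonneg_right hd (by positivity)
    calc Chain_P r k (fun j => (3 / 4 : ℝ) ^ j) j * xs r k s j
        ≤ 35 / 36 * (3 / 4 : ℝ) ^ j * xs r k s j := mul_le_mul_of_nonneg_right hP hx
      _ = 35 / 36 * ((3 / 4 : ℝ) ^ j * xs r k s j) := by ring

/-- the potential `(3/4) ^ j` -/
theorem xs_zero_le (hr : 2 ≤ r) (hk : 2 ≤ k) (hrk : 5 ≤ r + k) (s : ℕ) :
    xs r k s 0 ≤ (35 / 36 : ℝ) ^ s := by
  refine le_trans ?_ (Chain_phi hr hk hrk s)
  have h := Finset.single_le_sum (f := fun j => (3 / 4 : ℝ) ^ j * xs r k s j)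
    (s := range (s + 1)) (fun j _ => mul_nonneg (by positivity) (xs_nonneg hr hk s j))
    (Finset.mem_range.2 (Nat.succ_pos s))
  simpa using h

theorem WW_mono (hr : 2 ≤ r) (hk : 2 ≤ k) {S T : ℕ} (h : S ≤ T) : WW r k S ≤ WW r k T := by
  unfold WW
  exact Finset.sum_le_sum_of_subset_of_nonneg (Finset.range_mono h)
    (fun s _ _ => xs_nonneg hr hk s 0)

/-- the tail of `WW` -/
theorem WW_le (hr : 2 ≤ r) (hk : 2 ≤ k) (hrk : 5 ≤ r + k) {Sa S T : ℕ} (h : Sa ≤ S) :
    WW r k T ≤ WW r k S + 36 * (35 / 36 : ℝ) ^ Sa := by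
  have hpos : ∀ n : ℕ, (0 : ℝ) ≤ (35 / 36 : ℝ) ^ n := fun n => by positivity
  have hS : (35 / 36 : ℝ) ^ S ≤ (35 / 36 : ℝ) ^ Sa :=
    pow_le_pow_of_le_one (by norm_num) (by norm_num) h
  by_cases hT : T ≤ S
  · have h1 := WW_mono hr hk hT
    have h2 := hpos Sa
    linarith
  · push Not at hT
    have key : ∀ n, S ≤ n → WW r k n ≤ WW r k S + 36 * ((35 / 36 : ℝ) ^ S - (35 / 36 : ℝ) ^ n) := by
      intro n hn
      induction n, hn using Nat.le_induction with
      | base => simp
      | succ n hn ih =>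
        have h1 : WW r k (n + 1) = WW r k n + xs r k n 0 := by
          unfold WW
          rw [Finset.sum_range_succ]
        have h2 := xs_zero_le hr hk hrk n
        rw [h1, pow_succ]
        linarith
    have h1 := key T hT.le
    have h2 := hpos T
    linarith

end Pool.Agent.Lib.MP_a7e07e_co.Sp
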