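import Pool.Agent.Lib.MP_a7e07e_co.Sp.Mat

set_option autoImplicit false

/-! # Eigenvalues of `M - J / v` -/

namespace Pool.Agent.Lib.MP_a7e07e_co.Sp

open Matrix Finset

variable {P V B : Type} [Fintype P] [DecidableEq P] [Fintype V] [DecidableEq V] [Fintype B]
  [DecidableEq B] {var : P → V} {blk : P → B} {r k : ℕ}

section Aux

variable {C : Type} [Fintype C] [DecidableEq C]

theorem Spec_sum_fiber {c : P → C} {n : ℕ} (h : Unif c n) (g : C → ℝ) :
    ∑ x, g (c x) = n * ∑ i, g i := by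
  rw [← Finset.sum_fiberwise (s := univ) (g := c) (f := fun x => g (c x)), Finset.mul_sum]
  refine Finset.sum_congr rfl fun i _ => ?_
  rw [Finset.sum_congr rfl (g := fun _ => g i)
    (fun x hx => by rw [(Finset.mem_filter.mp hx).2])]
  rw [Finset.sum_const, h i, nsmul_eq_mul]

theorem Spec_inc_mulVec (c : P → C) (F : P → ℝ) (i : C) :
    (inc c *ᵥ F) i = ∑ x with c x = i, F x := by
  simp only [Matrix.mulVec, dotProduct, inc, Finset.sum_filter, ite_mul, one_mul, zero_mul]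

theorem Spec_incT_mulVec (c : P → C) (f : C → ℝ) (x : P) :
    ((inc c)ᵀ *ᵥ f) x = f (c x) := by
  simp [Matrix.mulVec, dotProduct, inc, Matrix.transpose_apply]

end Aux

/-- the incidence matrix `N` of varieties and blocks -/
noncomputable def Spec_W (var : P → V) (blk : P → B) : Matrix V B ℝ := inc var * (inc blk)ᵀ

theorem Spec_WT_mulVec (f : V → ℝ) (j : B) :
    ((Spec_W var blk)ᵀ *ᵥ f) j = ∑ y with blk y = j, f (var y) := by
  rw [Spec_W, Matrix.transpose_mul, Matrix.transpose_transpose, ← Matrix.mulVec_mulVec,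
    Spec_inc_mulVec]
  exact Finset.sum_congr rfl fun y _ => Spec_incT_mulVec var f y

theorem Spec_W_mulVec (g : B → ℝ) (i : V) :
    (Spec_W var blk *ᵥ g) i = ∑ y with var y = i, g (blk y) := by
  rw [Spec_W, ← Matrix.mulVec_mulVec, Spec_inc_mulVec]
  exact Finset.sum_congr rfl fun y _ => Spec_incT_mulVec blk g y

theorem Spec_MM_eq (var : P → V) (blk : P → B) (r k : ℕ) :
    MM var blk r k = ((r : ℝ) * k)⁻¹ • (Spec_W var blk * (Spec_W var blk)ᵀ) := by
  rw [MM, Spec_W, Matrix.transpose_mul, Matrix.transpose_transpose]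

theorem Spec_quad (f : V → ℝ) :
    f ⬝ᵥ (MM var blk r k) *ᵥ f
      = ((r : ℝ) * k)⁻¹ * ∑ j, (∑ y with blk y = j, f (var y)) ^ 2 := by
  rw [Spec_MM_eq, Matrix.smul_mulVec, dotProduct_smul, smul_eq_mul, ← Matrix.mulVec_mulVec,
    Matrix.dotProduct_mulVec, ← Matrix.mulVec_transpose]
  congr 1
  simp only [dotProduct]
  refine Finset.sum_congr rfl fun j _ => ?_
  rw [Spec_WT_mulVec, sq]

theorem Spec_k_pos (h : IsD var blk r k) : (0 : ℝ) < k := by
  have := h.hk
  exact_mod_cast (by omega : 0 < k)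

theorem Spec_r_pos (h : IsD var blk r k) : (0 : ℝ) < r := by
  have := h.hr
  exact_mod_cast (by omega : 0 < r)

/-- `1 - M` as a sum of squares over the plots, for the best function on the blocks -/
theorem energy_eq (h : IsD var blk r k) (f : V → ℝ) :
    ∑ x, (f (var x) - (k : ℝ)⁻¹ * (∑ y with blk y = blk x, f (var y))) ^ 2
      = r * (f ⬝ᵥ f - f ⬝ᵥ (MM var blk r k) *ᵥ f) := by
  have hk := Spec_k_pos h
  have hr := Spec_r_pos h
  rw [Spec_quad]
  set G : B → ℝ := fun j => ∑ y with blk y = j, f (var y) with hG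
  have e1 : ∑ x, f (var x) ^ 2 = r * (f ⬝ᵥ f) := by
    rw [Spec_sum_fiber h.uv (fun i => f i ^ 2)]
    simp only [dotProduct, sq]
  have e2 : ∑ x, f (var x) * G (blk x) = ∑ j, G j ^ 2 := by
    rw [← Finset.sum_fiberwise (s := univ) (g := blk) (f := fun x => f (var x) * G (blk x))]
    refine Finset.sum_congr rfl fun j _ => ?_
    rw [Finset.sum_congr rfl (g := fun x => f (var x) * G j)
      (fun x hx => by rw [(Finset.mem_filter.mp hx).2]), ← Finset.sum_mul, sq]
  have e3 : ∑ x, G (blk x) ^ 2 = k * ∑ j, G j ^ 2 := Spec_sum_fiber h.ub (fun j => G j ^ 2)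
  have e4 : ∀ x, (f (var x) - (k : ℝ)⁻¹ * (∑ y with blk y = blk x, f (var y))) ^ 2
      = f (var x) ^ 2 - 2 * (k : ℝ)⁻¹ * (f (var x) * G (blk x))
        + ((k : ℝ)⁻¹) ^ 2 * (G (blk x) ^ 2) := by
    intro x
    simp only [hG]
    ring
  rw [Finset.sum_congr rfl (fun x _ => e4 x), Finset.sum_add_distrib, Finset.sum_sub_distrib,
    ← Finset.mul_sum, ← Finset.mul_sum, e1, e2, e3]
  field_simp
  ring

theorem MM_posSemidef (h : IsD var blk r k) : (MM var blk r k).PosSemidef := by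
  rw [Spec_MM_eq]
  have h1 : (Spec_W var blk * (Spec_W var blk)ᵀ).PosSemidef := by
    have := Matrix.posSemidef_self_mul_conjTranspose (Spec_W var blk)
    rwa [Matrix.conjTranspose_eq_transpose_of_trivial] at this
  exact h1.smul (by positivity)

theorem MM_one (h : IsD var blk r k) : (MM var blk r k) *ᵥ (fun _ => 1) = fun _ => 1 := by
  have hk := Spec_k_pos h
  have hr := Spec_r_pos h
  have e1 : (Spec_W var blk)ᵀ *ᵥ (fun _ => (1 : ℝ)) = fun _ => (k : ℝ) := by
    funext j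
    rw [Spec_WT_mulVec, Finset.sum_const, h.ub j, nsmul_eq_mul, mul_one]
  funext i
  rw [Spec_MM_eq, Matrix.smul_mulVec, ← Matrix.mulVec_mulVec, e1, Pi.smul_apply, Spec_W_mulVec,
    Finset.sum_const, h.uv i, nsmul_eq_mul, smul_eq_mul]
  field_simp

/-- an abstract spectral decomposition: `A = U D U'` with `U U' = U' U = 1`, `D` diagonal, and
nonzero eigenvectors -/
theorem Spec_decomp {A : Matrix V V ℝ} (hA : A.IsHermitian) : ∃ (β : V → ℝ) (U U' : Matrix V V ℝ),
    U * U' = 1 ∧ U' * U = 1 ∧ A = U * diagonal β * U' ∧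
    ∀ i, ∃ u : V → ℝ, 0 < u ⬝ᵥ u ∧ A *ᵥ u = β i • u := by
  refine ⟨hA.eigenvalues, hA.eigenvectorUnitary, star (hA.eigenvectorUnitary : Matrix V V ℝ),
    ?_, ?_, ?_, ?_⟩
  · exact Unitary.coe_mul_star_self _
  · exact Unitary.coe_star_mul_self _
  · have := hA.spectral_theorem
    rw [Unitary.conjStarAlgAut_apply] at this
    exact this
  · intro i
    refine ⟨⇑(hA.eigenvectorBasis i), ?_, hA.mulVec_eigenvectorBasis i⟩
    have h0 : hA.eigenvectorBasis i ≠ 0 := hA.eigenvectorBasis.orthonormal.ne_zero i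
    have h1 : (⇑(hA.eigenvectorBasis i) : V → ℝ) ≠ 0 := by
      intro hc
      apply h0
      ext j
      exact congrFun hc j
    have := dotProduct_star_self_pos_iff.mpr h1
    simpa using this

theorem Spec_decomp_pow {β : V → ℝ} {U U' : Matrix V V ℝ} (h1 : U * U' = 1) (h2 : U' * U = 1)
    (s : ℕ) : (U * diagonal β * U') ^ s = U * diagonal (fun i => β i ^ s) * U' := by
  induction s with
  | zero =>
    simp [h1]
  | succ s ih =>
    rw [pow_succ, ih]
    calc U * diagonal (fun i => β i ^ s) * U' * (U * diagonal β * U')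
        = U * diagonal (fun i => β i ^ s) * (U' * U) * diagonal β * U' := by
          simp only [Matrix.mul_assoc]
      _ = U * (diagonal (fun i => β i ^ s) * diagonal β) * U' := by
          rw [h2, Matrix.mul_one]
          simp only [Matrix.mul_assoc]
      _ = _ := by
          rw [Matrix.diagonal_mul_diagonal]
          rfl

theorem Spec_decomp_trace {β : V → ℝ} {U U' : Matrix V V ℝ} (h2 : U' * U = 1) :
    (U * diagonal β * U').trace = ∑ i, β i := by
  rw [Matrix.trace_mul_comm, ← Matrix.mul_assoc, h2, Matrix.one_mul, Matrix.trace_diagonal]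

theorem Spec_decomp_det {β : V → ℝ} {U U' : Matrix V V ℝ} (h1 : U * U' = 1) :
    (U * diagonal β * U').det = ∏ i, β i := by
  have hd : U.det * U'.det = 1 := by rw [← Matrix.det_mul, h1, Matrix.det_one]
  rw [Matrix.det_mul, Matrix.det_mul, Matrix.det_diagonal]
  calc U.det * (∏ i, β i) * U'.det = (U.det * U'.det) * ∏ i, β i := by ring
    _ = _ := by rw [hd, one_mul]

theorem Spec_decomp_inv {β : V → ℝ} {U U' : Matrix V V ℝ} (h1 : U * U' = 1) (h2 : U' * U = 1)
    (h0 : ∀ i, β i ≠ 0) : (U * diagonal β * U')⁻¹ = U * diagonal (fun i => 1 / β i) * U' := by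
  apply Matrix.inv_eq_right_inv
  calc U * diagonal β * U' * (U * diagonal (fun i => 1 / β i) * U')
      = U * diagonal β * (U' * U) * diagonal (fun i => 1 / β i) * U' := by
        simp only [Matrix.mul_assoc]
    _ = U * (diagonal β * diagonal (fun i => 1 / β i)) * U' := by
        rw [h2, Matrix.mul_one]
        simp only [Matrix.mul_assoc]
    _ = 1 := by
        rw [Matrix.diagonal_mul_diagonal]
        have : (fun i => β i * (1 / β i)) = fun _ => (1 : ℝ) := by
          funext i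
          exact mul_one_div_cancel (h0 i)
        rw [this, Matrix.diagonal_one, Matrix.mul_one, h1]

/-- the all ones matrix -/
def Spec_J (V : Type) : Matrix V V ℝ := Matrix.of (fun _ _ => (1 : ℝ))

theorem Spec_J_mulVec (f : V → ℝ) : Spec_J V *ᵥ f = fun _ => ∑ i, f i := by
  funext i
  simp [Spec_J, Matrix.mulVec, dotProduct]

theorem Spec_MM_symm (var : P → V) (blk : P → B) (r k : ℕ) :
    (MM var blk r k)ᵀ = MM var blk r k := by
  rw [Spec_MM_eq, Matrix.transpose_smul, Matrix.transpose_mul, Matrix.transpose_transpose]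

theorem Spec_MM_mul_J (h : IsD var blk r k) : MM var blk r k * Spec_J V = Spec_J V := by
  ext i j
  have := congrFun (MM_one h) i
  rw [Matrix.mul_apply]
  simpa [Spec_J, Matrix.mulVec, dotProduct] using this

theorem Spec_J_mul_MM (h : IsD var blk r k) : Spec_J V * MM var blk r k = Spec_J V := by
  have h1 := congrArg Matrix.transpose (Spec_MM_mul_J h)
  rw [Matrix.transpose_mul, Spec_MM_symm] at h1
  have h2 : (Spec_J V)ᵀ = Spec_J V := by
    ext i j
    rfl
  rwa [h2] at h1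

theorem Spec_J_mul_J : Spec_J V * Spec_J V = (Fintype.card V : ℝ) • Spec_J V := by
  ext i j
  simp [Spec_J, Matrix.mul_apply]

theorem Spec_pow_mul_J (h : IsD var blk r k) (s : ℕ) :
    (MM var blk r k) ^ s * Spec_J V = Spec_J V := by
  induction s with
  | zero => simp
  | succ s ih => rw [pow_succ, Matrix.mul_assoc, Spec_MM_mul_J h, ih]

theorem Spec_v_pos (h : IsD var blk r k) : (0 : ℝ) < Fintype.card V := by
  obtain ⟨x⟩ := h.ne
  have : Nonempty V := ⟨var x⟩
  exact_mod_cast Fintype.card_pos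

/-- the matrix `M - J / v` -/
noncomputable def Spec_B (var : P → V) (blk : P → B) (r k : ℕ) : Matrix V V ℝ :=
  MM var blk r k - ((Fintype.card V : ℝ)⁻¹) • Spec_J V

theorem Spec_B_pow (h : IsD var blk r k) (s : ℕ) :
    (Spec_B var blk r k) ^ (s + 1)
      = (MM var blk r k) ^ (s + 1) - ((Fintype.card V : ℝ)⁻¹) • Spec_J V := by
  have hv := Spec_v_pos h
  induction s with
  | zero => simp [Spec_B]
  | succ s ih =>
    rw [pow_succ, ih, Spec_B, Matrix.sub_mul, Matrix.mul_sub, Matrix.mul_sub, Matrix.mul_smul,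
      Spec_pow_mul_J h, Matrix.smul_mul, Spec_J_mul_MM h, Matrix.smul_mul, Matrix.mul_smul,
      Spec_J_mul_J, smul_smul, smul_smul, mul_assoc, inv_mul_cancel₀ hv.ne', mul_one, sub_self,
      sub_zero, ← pow_succ]

theorem Spec_J_trace (h : IsD var blk r k) :
    (((Fintype.card V : ℝ)⁻¹) • Spec_J V).trace = 1 := by
  have hv := Spec_v_pos h
  rw [Matrix.trace_smul, smul_eq_mul]
  have : (Spec_J V).trace = Fintype.card V := by
    simp [Matrix.trace, Spec_J]
  rw [this, inv_mul_cancel₀ hv.ne']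

theorem Spec_B_quad (f : V → ℝ) : f ⬝ᵥ (Spec_B var blk r k) *ᵥ f
    = f ⬝ᵥ (MM var blk r k) *ᵥ f - (Fintype.card V : ℝ)⁻¹ * (∑ i, f i) ^ 2 := by
  rw [Spec_B, Matrix.sub_mulVec, dotProduct_sub, Matrix.smul_mulVec, Spec_J_mulVec,
    dotProduct_smul, smul_eq_mul]
  congr 2
  simp only [dotProduct]
  rw [← Finset.sum_mul, sq]

theorem Spec_B_one (h : IsD var blk r k) :
    (Spec_B var blk r k) *ᵥ (fun _ => 1) = 0 := by
  have hv := Spec_v_pos h
  rw [Spec_B, Matrix.sub_mulVec, MM_one h, Matrix.smul_mulVec, Spec_J_mulVec]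
  funext i
  simp [hv.ne']

theorem Spec_B_symm (var : P → V) (blk : P → B) (r k : ℕ) :
    (Spec_B var blk r k)ᵀ = Spec_B var blk r k := by
  rw [Spec_B, Matrix.transpose_sub, Spec_MM_symm, Matrix.transpose_smul]
  congr 2

theorem Spec_MM_quad_nonneg (f : V → ℝ) : 0 ≤ f ⬝ᵥ (MM var blk r k) *ᵥ f := by
  rw [Spec_quad]
  positivity

theorem Spec_MM_quad_le (h : IsD var blk r k) (f : V → ℝ) :
    f ⬝ᵥ (MM var blk r k) *ᵥ f ≤ f ⬝ᵥ f := by
  have h1 := energy_eq h f
  have h2 : 0 ≤ ∑ x, (f (var x) - (k : ℝ)⁻¹ * (∑ y with blk y = blk x, f (var y))) ^ 2 :=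
    Finset.sum_nonneg fun x _ => sq_nonneg _
  rw [h1] at h2
  have := Spec_r_pos h
  have h3 : 0 ≤ f ⬝ᵥ f - f ⬝ᵥ (MM var blk r k) *ᵥ f := nonneg_of_mul_nonneg_right h2 this
  linarith

/-- an eigenvector of `M - J / v` with nonzero eigenvalue has sum zero -/
theorem Spec_sum_zero (h : IsD var blk r k) {u : V → ℝ} {b : ℝ} (hb : b ≠ 0)
    (hu : (Spec_B var blk r k) *ᵥ u = b • u) : ∑ i, u i = 0 := by
  have h1 : (fun _ => (1 : ℝ)) ⬝ᵥ ((Spec_B var blk r k) *ᵥ u) = 0 := by
    rw [Matrix.dotProduct_mulVec, ← Matrix.mulVec_transpose, Spec_B_symm, Spec_B_one h,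
      zero_dotProduct]
  rw [hu, dotProduct_smul, smul_eq_mul] at h1
  have h2 := (mul_eq_zero.mp h1).resolve_left hb
  simpa [dotProduct] using h2

/-- the eigenvalues of `M - J / v` -/
theorem exists_spec (h : IsD var blk r k) : ∃ β : V → ℝ, (∀ i, 0 ≤ β i) ∧ (∀ i, β i ≤ 1) ∧
    (∀ s, 1 ≤ s → ∑ i, β i ^ s = aa var blk r k s - 1) ∧
    ((∀ i, β i < 1) ↔ (XX var blk r k).det ≠ 0) ∧
    ((∀ i, β i < 1) → ff var blk r k = ∑ i, 1 / (1 - β i)) ∧
    (∀ γ : ℝ, 0 ≤ γ → γ ≤ 1 → (∀ f : V → ℝ, ∑ i, f i = 0 →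
      f ⬝ᵥ (MM var blk r k) *ᵥ f ≤ (1 - γ) * (f ⬝ᵥ f)) → ∀ i, β i ≤ 1 - γ) := by
  have hA : (Spec_B var blk r k).IsHermitian := by
    rw [Matrix.IsHermitian, Matrix.conjTranspose_eq_transpose_of_trivial, Spec_B_symm]
  obtain ⟨β, U, U', h1, h2, h3, h4⟩ := Spec_decomp hA
  -- every nonzero eigenvalue is a Rayleigh quotient of `M`
  have key : ∀ i, β i ≠ 0 → ∃ u : V → ℝ, 0 < u ⬝ᵥ u ∧ ∑ j, u j = 0 ∧
      u ⬝ᵥ (MM var blk r k) *ᵥ u = β i * (u ⬝ᵥ u) := by
    intro i hi
    obtain ⟨u, hu, hu2⟩ := h4 i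
    have hs := Spec_sum_zero h hi hu2
    refine ⟨u, hu, hs, ?_⟩
    have h5 := Spec_B_quad (var := var) (blk := blk) (r := r) (k := k) u
    rw [hu2, hs, dotProduct_smul, smul_eq_mul] at h5
    rw [h5]
    ring
  have hβ0 : ∀ i, 0 ≤ β i := by
    intro i
    by_cases hi : β i = 0
    · rw [hi]
    · obtain ⟨u, hu, -, hu3⟩ := key i hi
      have := Spec_MM_quad_nonneg (var := var) (blk := blk) (r := r) (k := k) u
      rw [hu3] at this
      exact nonneg_of_mul_nonneg_left this hu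
  have hγ : ∀ γ : ℝ, 0 ≤ γ → γ ≤ 1 → (∀ f : V → ℝ, ∑ i, f i = 0 →
      f ⬝ᵥ (MM var blk r k) *ᵥ f ≤ (1 - γ) * (f ⬝ᵥ f)) → ∀ i, β i ≤ 1 - γ := by
    intro γ _ hγ1 hf i
    by_cases hi : β i = 0
    · rw [hi]
      linarith
    · obtain ⟨u, hu, hu2, hu3⟩ := key i hi
      have := hf u hu2
      rw [hu3] at this
      exact le_of_mul_le_mul_right this hu
  have hβ1 : ∀ i, β i ≤ 1 := by
    intro i
    have := hγ 0 le_rfl zero_le_one (fun f _ => by
      rw [sub_zero, one_mul]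
      exact Spec_MM_quad_le h f) i
    simpa using this
  have hX : XX var blk r k = U * diagonal (fun i => 1 - β i) * U' := by
    have e1 : XX var blk r k = 1 - Spec_B var blk r k := by
      rw [XX, Spec_B, Spec_J]
      abel
    have e2 : diagonal (fun i => 1 - β i) = (1 : Matrix V V ℝ) - diagonal β := by
      rw [← Matrix.diagonal_one, Matrix.diagonal_sub]
    rw [e1, e2, Matrix.mul_sub, Matrix.sub_mul, Matrix.mul_one, h1, ← h3]
  have hdet : (∀ i, β i < 1) ↔ (XX var blk r k).det ≠ 0 := by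
    rw [hX, Spec_decomp_det h1, Finset.prod_ne_zero_iff]
    constructor
    · intro hb i _
      have := hb i
      exact (sub_pos.mpr this).ne'
    · intro hb i
      exact lt_of_le_of_ne (hβ1 i) (fun hc => hb i (Finset.mem_univ i) (by rw [hc, sub_self]))
  refine ⟨β, hβ0, hβ1, ?_, hdet, ?_, hγ⟩
  · intro s hs
    obtain ⟨s, rfl⟩ : ∃ t, s = t + 1 := ⟨s - 1, by omega⟩
    have e1 := Spec_B_pow h s
    have e2 := congrArg Matrix.trace e1
    rw [Matrix.trace_sub, Spec_J_trace h, h3, Spec_decomp_pow h1 h2, Spec_decomp_trace h2] at e2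
    exact e2
  · intro hb
    rw [ff, hX, Spec_decomp_inv h1 h2 (fun i => (sub_pos.mpr (hb i)).ne'), Spec_decomp_trace h2]

end Pool.Agent.Lib.MP_a7e07e_co.Sp
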