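import Mathlib

set_option autoImplicit false

/-! # Geometric sums of eigenvalues -/

namespace Pool.Agent.Lib.MP_a7e07e_co.Sp

open Finset

variable {ι : Type} [Fintype ι] {β : ι → ℝ}

theorem Tail_geom {b : ℝ} (hb : b < 1) (S : ℕ) :
    1 / (1 - b) = ∑ s ∈ range S, b ^ s + b ^ S / (1 - b) := by
  have h1 : (1 - b) ≠ 0 := by
    intro h
    linarith
  have h2 := geom_sum_mul b S
  field_simp
  linarith

theorem sum_pow_le (h0 : ∀ i, 0 ≤ β i) (h1 : ∀ i, β i < 1) (S : ℕ) :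
    ∑ s ∈ range S, ∑ i, β i ^ s ≤ ∑ i, 1 / (1 - β i) := by
  rw [Finset.sum_comm]
  refine Finset.sum_le_sum fun i _ => ?_
  rw [Tail_geom (h1 i) S]
  have : 0 ≤ β i ^ S / (1 - β i) := div_nonneg (pow_nonneg (h0 i) S) (by linarith [h1 i])
  linarith

theorem sum_inv_le_gap (h0 : ∀ i, 0 ≤ β i) {γ : ℝ} (hγ : 0 < γ) (h1 : ∀ i, β i ≤ 1 - γ) (S : ℕ) :
    ∑ i, 1 / (1 - β i) ≤ ∑ s ∈ range S, ∑ i, β i ^ s
      + Fintype.card ι * (1 - γ) ^ S / γ := by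
  rw [Finset.sum_comm]
  have h2 : ∀ i, 1 / (1 - β i) ≤ ∑ s ∈ range S, β i ^ s + (1 - γ) ^ S / γ := by
    intro i
    have h3 : β i < 1 := by linarith [h1 i]
    rw [Tail_geom h3 S]
    have h4 : β i ^ S / (1 - β i) ≤ (1 - γ) ^ S / γ := by
      have h5 : β i ^ S ≤ (1 - γ) ^ S := pow_le_pow_left₀ (h0 i) (h1 i) S
      exact div_le_div₀ ((pow_nonneg (h0 i) S).trans h5) h5 hγ (by linarith [h1 i])
    linarith
  refine (Finset.sum_le_sum fun i _ => h2 i).trans ?_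
  rw [Finset.sum_add_distrib, Finset.sum_const, Finset.card_univ, nsmul_eq_mul, mul_div_assoc]

theorem pow_anti (h0 : ∀ i, 0 ≤ β i) (h1 : ∀ i, β i ≤ 1) {s t : ℕ} (h : s ≤ t) :
    ∑ i, β i ^ t ≤ ∑ i, β i ^ s :=
  Finset.sum_le_sum fun i _ => pow_le_pow_of_le_one (h0 i) (h1 i) h

theorem lt_one_of_half (h0 : ∀ i, 0 ≤ β i) (h1 : ∀ i, β i ≤ 1) {S : ℕ} (hS : 1 ≤ S)
    (h : ∑ i, β i ^ S ≤ 1 / 2) (i : ι) : β i < 1 := by
  rcases lt_or_eq_of_le (h1 i) with h2 | h2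
  · exact h2
  · exfalso
    have h3 : β i ^ S ≤ ∑ i, β i ^ S :=
      Finset.single_le_sum (f := fun i => β i ^ S) (fun j _ => pow_nonneg (h0 j) S) (Finset.mem_univ i)
    rw [h2, one_pow] at h3
    linarith

/-- sums of powers -/
theorem Tail_pow (h0 : ∀ i, 0 ≤ β i) {S : ℕ} (h : ∑ i, β i ^ S ≤ 1 / 2) (l : ℕ) (hl : 1 ≤ l) :
    ∑ i, β i ^ (l * S) ≤ (1 / 2 : ℝ) ^ l := by
  induction l, hl using Nat.le_induction with
  | base => simpa using h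
  | succ l hl ih =>
    have h2 : ∀ i, β i ^ S ≤ 1 / 2 := fun i =>
      (Finset.single_le_sum (f := fun i => β i ^ S) (fun j _ => pow_nonneg (h0 j) S)
        (Finset.mem_univ i)).trans h
    calc ∑ i, β i ^ ((l + 1) * S) = ∑ i, β i ^ (l * S) * β i ^ S := by
          refine Finset.sum_congr rfl fun i _ => ?_
          rw [add_mul, one_mul, pow_add]
      _ ≤ ∑ i, β i ^ (l * S) * (1 / 2) := by
          refine Finset.sum_le_sum fun i _ => ?_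
          exact mul_le_mul_of_nonneg_left (h2 i) (pow_nonneg (h0 i) _)
      _ = (∑ i, β i ^ (l * S)) * (1 / 2) := by rw [Finset.sum_mul]
      _ ≤ (1 / 2 : ℝ) ^ l * (1 / 2) := by
          exact mul_le_mul_of_nonneg_right ih (by norm_num)
      _ = (1 / 2 : ℝ) ^ (l + 1) := by rw [pow_succ]

theorem sum_inv_le (h0 : ∀ i, 0 ≤ β i) (h1 : ∀ i, β i ≤ 1) {S : ℕ} (hS : 1 ≤ S)
    (h : ∑ i, β i ^ S ≤ 1 / 2) (j : ℕ) (hj : 1 ≤ j) :
    ∑ i, 1 / (1 - β i) ≤ ∑ s ∈ range (j * S), ∑ i, β i ^ s + 2 * S * (1 / 2 : ℝ) ^ j := by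
  have hlt := lt_one_of_half h0 h1 hS h
  have h2 : ∀ i, β i ^ S ≤ 1 / 2 := fun i =>
    (Finset.single_le_sum (f := fun i => β i ^ S) (fun j _ => pow_nonneg (h0 j) S)
      (Finset.mem_univ i)).trans h
  -- `1 / (1 - b) ≤ 2 S` when `b ^ S ≤ 1 / 2`
  have h3 : ∀ i, 1 / (1 - β i) ≤ 2 * S := by
    intro i
    have hb : 0 < 1 - β i := by linarith [hlt i]
    have h4 : ∑ s ∈ range S, β i ^ s ≤ S := by
      calc ∑ s ∈ range S, β i ^ s ≤ ∑ s ∈ range S, (1 : ℝ) :=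
            Finset.sum_le_sum fun s _ => pow_le_one₀ (h0 i) (h1 i)
        _ = S := by simp
    have h5 := Tail_geom (hlt i) S
    have h6 : β i ^ S / (1 - β i) ≤ (1 / 2) * (1 / (1 - β i)) := by
      rw [mul_one_div]
      exact div_le_div_of_nonneg_right (h2 i) hb.le
    linarith
  rw [Finset.sum_comm]
  have h7 : ∀ i, 1 / (1 - β i) ≤ ∑ s ∈ range (j * S), β i ^ s + 2 * S * β i ^ (j * S) := by
    intro i
    have h8 := Tail_geom (hlt i) (j * S)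
    have h9 : β i ^ (j * S) / (1 - β i) ≤ 2 * S * β i ^ (j * S) := by
      calc β i ^ (j * S) / (1 - β i) = (1 / (1 - β i)) * β i ^ (j * S) := by ring
        _ ≤ 2 * S * β i ^ (j * S) :=
          mul_le_mul_of_nonneg_right (h3 i) (pow_nonneg (h0 i) _)
    linarith
  refine (Finset.sum_le_sum fun i _ => h7 i).trans ?_
  rw [Finset.sum_add_distrib, ← Finset.mul_sum]
  have h10 := Tail_pow h0 h j hj
  have h11 : 2 * (S : ℝ) * ∑ i, β i ^ (j * S) ≤ 2 * S * (1 / 2 : ℝ) ^ j :=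
    mul_le_mul_of_nonneg_left h10 (by positivity)
  linarith

end Pool.Agent.Lib.MP_a7e07e_co.Sp
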