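import Pool.Agent.Lib.MP_a7e07e_co.Sp.Union
import Pool.Agent.Lib.MP_a7e07e_co.Sp.Spec
import Pool.Agent.Lib.MP_a7e07e_co.Sp.Tail

set_option autoImplicit false

/-! # Cheeger's inequality for designs -/

namespace Pool.Agent.Lib.MP_a7e07e_co.Sp

open Matrix Finset

variable {P V B : Type} [Fintype P] [DecidableEq P] [Fintype V] [DecidableEq V] [Fintype B]
  [DecidableEq B] {var : P → V} {blk : P → B} {r k : ℕ}

omit [DecidableEq P] in
theorem Cheeger_sum {C : Type} [Fintype C] [DecidableEq C] {c : P → C} {n : ℕ} (h : Unif c n)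
    (F : C → ℝ) : ∑ x, F (c x) = n * ∑ i, F i := by
  rw [← Finset.sum_fiberwise (s := univ) (g := c) (f := fun x => F (c x)), mul_sum]
  refine sum_congr rfl fun i _ => ?_
  have h1 : ∑ x ∈ univ with c x = i, F (c x) = ∑ x ∈ univ with c x = i, F i :=
    sum_congr rfl fun x hx => by rw [(mem_filter.mp hx).2]
  rw [h1, sum_const, h i, nsmul_eq_mul]

omit [DecidableEq P] in
theorem Cheeger_vol {C : Type} [Fintype C] [DecidableEq C] {c : P → C} {n : ℕ} (h : Unif c n)
    (S : Finset C) : (univ.filter fun x => c x ∈ S).card = S.card * n := by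
  have h1 := Cheeger_sum h (fun i => if i ∈ S then (1 : ℝ) else 0)
  rw [sum_boole, sum_boole] at h1
  simp only [filter_mem_eq_inter, univ_inter] at h1
  have h2 : ((univ.filter fun x => c x ∈ S).card : ℝ) = ((S.card * n : ℕ) : ℝ) := by
    rw [h1]
    push_cast
    ring
  exact_mod_cast h2

/-- co-area formula: induction on the number of positive values -/
theorem Cheeger_coarea_aux (hv : Unif var r) (hb : Unif blk k) {h : ℝ} (hC : Cond var blk r k h)
    (N : ℕ) : ∀ (f : V → ℝ) (g : B → ℝ), (∀ i, 0 ≤ f i) → (∀ j, 0 ≤ g j) →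
    ((univ.filter fun i => 0 < f i).card * r + (univ.filter fun j => 0 < g j).card * k
      ≤ Fintype.card P) →
    (univ.filter fun i => 0 < f i).card + (univ.filter fun j => 0 < g j).card ≤ N →
    h * ∑ x, (f (var x) + g (blk x)) ≤ ∑ x, |f (var x) - g (blk x)| := by
  have hzero : ∀ (f : V → ℝ) (g : B → ℝ), (∀ i, 0 ≤ f i) → (∀ j, 0 ≤ g j) →
      (∀ i, ¬ 0 < f i) → (∀ j, ¬ 0 < g j) →
      h * ∑ x, (f (var x) + g (blk x)) ≤ ∑ x, |f (var x) - g (blk x)| := by
    intro f g hf hg h1 h2
    have hf0 : ∀ i, f i = 0 := fun i => le_antisymm (not_lt.mp (h1 i)) (hf i)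
    have hg0 : ∀ j, g j = 0 := fun j => le_antisymm (not_lt.mp (h2 j)) (hg j)
    simp [hf0, hg0]
  induction N with
  | zero =>
    intro f g hf hg _ hN
    have h1 : (univ.filter fun i => 0 < f i) = ∅ := card_eq_zero.mp (by omega)
    have h2 : (univ.filter fun j => 0 < g j) = ∅ := card_eq_zero.mp (by omega)
    refine hzero f g hf hg (fun i hi => ?_) (fun j hj => ?_)
    · have : i ∈ (univ.filter fun i => 0 < f i) := mem_filter.mpr ⟨mem_univ i, hi⟩
      rw [h1] at this
      simp at this
    · have : j ∈ (univ.filter fun j => 0 < g j) := mem_filter.mpr ⟨mem_univ j, hj⟩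
      rw [h2] at this
      simp at this
  | succ N ih =>
    intro f g hf hg hs hN
    set A := univ.filter fun i => 0 < f i with hA
    set A' := univ.filter fun j => 0 < g j with hA'
    have memA : ∀ i, i ∈ A ↔ 0 < f i := fun i => by simp [hA]
    have memA' : ∀ j, j ∈ A' ↔ 0 < g j := fun j => by simp [hA']
    by_cases hne : (A.image f ∪ A'.image g).Nonempty
    · obtain ⟨α, hαmem, hαmin⟩ := exists_min_image (A.image f ∪ A'.image g) id hne
      simp only [id] at hαmin
      have hαf : ∀ i, 0 < f i → α ≤ f i := fun i hi =>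
        hαmin _ (mem_union_left _ (mem_image_of_mem f ((memA i).mpr hi)))
      have hαg : ∀ j, 0 < g j → α ≤ g j := fun j hj =>
        hαmin _ (mem_union_right _ (mem_image_of_mem g ((memA' j).mpr hj)))
      have hα : 0 < α := by
        rcases mem_union.mp hαmem with h1 | h1
        · obtain ⟨i, hi, rfl⟩ := mem_image.mp h1
          exact (memA i).mp hi
        · obtain ⟨j, hj, rfl⟩ := mem_image.mp h1
          exact (memA' j).mp hj
      set f' : V → ℝ := fun i => if 0 < f i then f i - α else 0 with hf'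
      set g' : B → ℝ := fun j => if 0 < g j then g j - α else 0 with hg'
      have hf'0 : ∀ i, 0 ≤ f' i := by
        intro i
        simp only [hf']
        split_ifs with h1
        · linarith [hαf i h1]
        · exact le_refl _
      have hg'0 : ∀ j, 0 ≤ g' j := by
        intro j
        simp only [hg']
        split_ifs with h1
        · linarith [hαg j h1]
        · exact le_refl _
      have hsf : (univ.filter fun i => 0 < f' i) ⊆ A := by
        intro i hi
        rw [mem_filter] at hi
        rw [memA]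
        by_contra hcon
        have : f' i = 0 := by simp only [hf']; rw [if_neg hcon]
        linarith [hi.2]
      have hsg : (univ.filter fun j => 0 < g' j) ⊆ A' := by
        intro j hj
        rw [mem_filter] at hj
        rw [memA']
        by_contra hcon
        have : g' j = 0 := by simp only [hg']; rw [if_neg hcon]
        linarith [hj.2]
      have hcf := card_le_card hsf
      have hcg := card_le_card hsg
      have hlt : (univ.filter fun i => 0 < f' i).card + (univ.filter fun j => 0 < g' j).card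
          ≤ N := by
        rcases mem_union.mp hαmem with h1 | h1
        · obtain ⟨i, hi, hiα⟩ := mem_image.mp h1
          have hss : (univ.filter fun i => 0 < f' i) ⊂ A := by
            refine (ssubset_iff_of_subset hsf).mpr ⟨i, hi, ?_⟩
            rw [mem_filter]
            rintro ⟨_, h2⟩
            simp only [hf'] at h2
            rw [if_pos ((memA i).mp hi), hiα, sub_self] at h2
            exact lt_irrefl _ h2
          have := card_lt_card hss
          omega
        · obtain ⟨j, hj, hjα⟩ := mem_image.mp h1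
          have hss : (univ.filter fun j => 0 < g' j) ⊂ A' := by
            refine (ssubset_iff_of_subset hsg).mpr ⟨j, hj, ?_⟩
            rw [mem_filter]
            rintro ⟨_, h2⟩
            simp only [hg'] at h2
            rw [if_pos ((memA' j).mp hj), hjα, sub_self] at h2
            exact lt_irrefl _ h2
          have := card_lt_card hss
          omega
      have hvol : (univ.filter fun i => 0 < f' i).card * r +
          (univ.filter fun j => 0 < g' j).card * k ≤ Fintype.card P :=
        le_trans (add_le_add (Nat.mul_le_mul_right _ hcf) (Nat.mul_le_mul_right _ hcg)) hs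
      have hih := ih f' g' hf'0 hg'0 hvol hlt
      have hcond := hC A A' hs
      have e1 : ∀ x, f (var x) + g (blk x) =
          α * ((if var x ∈ A then 1 else 0) + (if blk x ∈ A' then 1 else 0)) +
            (f' (var x) + g' (blk x)) := by
        intro x
        simp only [hf', hg', memA, memA']
        have h1 := hf (var x)
        have h2 := hg (blk x)
        split_ifs with h3 h4 h4
        · ring
        · have : g (blk x) = 0 := le_antisymm (not_lt.mp h4) h2
          rw [this]
          ring
        · have : f (var x) = 0 := le_antisymm (not_lt.mp h3) h1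
          rw [this]
          ring
        · have h5 : g (blk x) = 0 := le_antisymm (not_lt.mp h4) h2
          have h6 : f (var x) = 0 := le_antisymm (not_lt.mp h3) h1
          rw [h5, h6]
          ring
      have e2 : ∀ x, |f (var x) - g (blk x)| =
          α * (if ¬ (var x ∈ A ↔ blk x ∈ A') then 1 else 0) + |f' (var x) - g' (blk x)| := by
        intro x
        have h1 := hf (var x)
        have h2 := hg (blk x)
        by_cases h3 : 0 < f (var x) <;> by_cases h4 : 0 < g (blk x)
        · rw [if_neg (by rw [memA, memA']; tauto)]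
          simp only [hf', hg', if_pos h3, if_pos h4]
          rw [mul_zero, zero_add]
          congr 1
          ring
        · rw [if_pos (by rw [memA, memA']; tauto)]
          simp only [hf', hg', if_pos h3, if_neg h4]
          have h5 : g (blk x) = 0 := le_antisymm (not_lt.mp h4) h2
          rw [h5, sub_zero, sub_zero, abs_of_pos h3, abs_of_nonneg (by linarith [hαf _ h3])]
          ring
        · rw [if_pos (by rw [memA, memA']; tauto)]
          simp only [hf', hg', if_neg h3, if_pos h4]
          have h5 : f (var x) = 0 := le_antisymm (not_lt.mp h3) h1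
          rw [h5, zero_sub, zero_sub, abs_neg, abs_neg, abs_of_pos h4,
            abs_of_nonneg (by linarith [hαg _ h4])]
          ring
        · rw [if_neg (by rw [memA, memA']; tauto)]
          simp only [hf', hg', if_neg h3, if_neg h4]
          have h5 : g (blk x) = 0 := le_antisymm (not_lt.mp h4) h2
          have h6 : f (var x) = 0 := le_antisymm (not_lt.mp h3) h1
          rw [h5, h6]
          simp
      have s1 : ∑ x, (f (var x) + g (blk x)) =
          α * (A.card * r + A'.card * k) + ∑ x, (f' (var x) + g' (blk x)) := by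
        rw [sum_congr rfl fun x _ => e1 x, sum_add_distrib, ← mul_sum, sum_add_distrib,
          sum_boole, sum_boole, Cheeger_vol hv, Cheeger_vol hb]
        push_cast
        ring
      have s2 : ∑ x, |f (var x) - g (blk x)| =
          α * bd var blk A A' + ∑ x, |f' (var x) - g' (blk x)| := by
        rw [sum_congr rfl fun x _ => e2 x, sum_add_distrib, ← mul_sum, sum_boole]
        rfl
      rw [s1, s2, mul_add]
      refine add_le_add ?_ hih
      calc h * (α * (A.card * r + A'.card * k)) = α * (h * (A.card * r + A'.card * k)) := by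
            ring
        _ ≤ α * bd var blk A A' := mul_le_mul_of_nonneg_left hcond hα.le
    · rw [not_nonempty_iff_eq_empty, union_eq_empty, image_eq_empty, image_eq_empty] at hne
      refine hzero f g hf hg (fun i hi => ?_) (fun j hj => ?_)
      · have := (memA i).mpr hi
        rw [hne.1] at this
        simp at this
      · have := (memA' j).mpr hj
        rw [hne.2] at this
        simp at this

/-- co-area formula: for nonnegative functions with support of volume at most `|P|` -/
theorem coarea (hv : Unif var r) (hb : Unif blk k) {h : ℝ} (hC : Cond var blk r k h)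
    (f : V → ℝ) (g : B → ℝ) (hf : ∀ i, 0 ≤ f i) (hg : ∀ j, 0 ≤ g j)
    (hs : (univ.filter fun i => 0 < f i).card * r + (univ.filter fun j => 0 < g j).card * k
      ≤ Fintype.card P) :
    h * ∑ x, (f (var x) + g (blk x)) ≤ ∑ x, |f (var x) - g (blk x)| :=
  Cheeger_coarea_aux hv hb hC _ f g hf hg hs le_rfl

/-- one side -/
theorem cheeger_pos (hv : Unif var r) (hb : Unif blk k) {h : ℝ} (hh : 0 ≤ h)
    (hC : Cond var blk r k h)
    (f : V → ℝ) (g : B → ℝ) (hf : ∀ i, 0 ≤ f i) (hg : ∀ j, 0 ≤ g j)
    (hs : (univ.filter fun i => 0 < f i).card * r + (univ.filter fun j => 0 < g j).card * k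
      ≤ Fintype.card P) :
    h ^ 2 / 2 * ∑ x, (f (var x) ^ 2 + g (blk x) ^ 2) ≤ ∑ x, (f (var x) - g (blk x)) ^ 2 := by
  have hsq : ∀ a : ℝ, 0 ≤ a → (0 < a ^ 2 ↔ 0 < a) := fun a ha =>
    ⟨fun h1 => lt_of_le_of_ne ha fun h2 => by rw [← h2] at h1; norm_num at h1,
      fun h1 => by positivity⟩
  have h1 := coarea hv hb hC (fun i => f i ^ 2) (fun j => g j ^ 2) (fun i => sq_nonneg _)
    (fun j => sq_nonneg _) (by
      have e1 : (univ.filter fun i => 0 < f i ^ 2) = univ.filter fun i => 0 < f i :=
        filter_congr fun i _ => hsq _ (hf i)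
      have e2 : (univ.filter fun j => 0 < g j ^ 2) = univ.filter fun j => 0 < g j :=
        filter_congr fun j _ => hsq _ (hg j)
      rw [e1, e2]
      exact hs)
  set E := ∑ x, (f (var x) ^ 2 + g (blk x) ^ 2) with hE
  set D := ∑ x, (f (var x) - g (blk x)) ^ 2 with hD
  have hE0 : 0 ≤ E := sum_nonneg fun x _ => by positivity
  have hD0 : 0 ≤ D := sum_nonneg fun x _ => sq_nonneg _
  have h2 : ∑ x, |f (var x) ^ 2 - g (blk x) ^ 2| =
      ∑ x, |f (var x) - g (blk x)| * (f (var x) + g (blk x)) := by
    refine sum_congr rfl fun x _ => ?_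
    have : f (var x) ^ 2 - g (blk x) ^ 2 = (f (var x) - g (blk x)) * (f (var x) + g (blk x)) := by
      ring
    rw [this, abs_mul, abs_of_nonneg (add_nonneg (hf _) (hg _))]
  have h3 := sum_mul_sq_le_sq_mul_sq univ (fun x => |f (var x) - g (blk x)|)
    (fun x => f (var x) + g (blk x))
  have h4 : ∑ x, |f (var x) - g (blk x)| ^ 2 = D :=
    sum_congr rfl fun x _ => sq_abs _
  have h5 : ∑ x, (f (var x) + g (blk x)) ^ 2 ≤ 2 * E := by
    rw [hE, mul_sum]
    refine sum_le_sum fun x _ => ?_
    nlinarith [sq_nonneg (f (var x) - g (blk x))]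
  rw [h4] at h3
  rw [h2] at h1
  have h6 : (h * E) ^ 2 ≤ D * (2 * E) := by
    calc (h * E) ^ 2 ≤ (∑ x, |f (var x) - g (blk x)| * (f (var x) + g (blk x))) ^ 2 :=
          pow_le_pow_left₀ (mul_nonneg hh hE0) h1 2
      _ ≤ D * ∑ x, (f (var x) + g (blk x)) ^ 2 := h3
      _ ≤ D * (2 * E) := mul_le_mul_of_nonneg_left h5 hD0
  rcases hE0.lt_or_eq with hpos | hzero
  · have h7 : (h ^ 2 / 2 * E) * (2 * E) ≤ D * (2 * E) := by
      calc (h ^ 2 / 2 * E) * (2 * E) = (h * E) ^ 2 := by ring
        _ ≤ D * (2 * E) := h6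
    exact le_of_mul_le_mul_right h7 (by linarith)
  · rw [← hzero, mul_zero]
    exact hD0

/-- the median of a finite family of even size -/
theorem Cheeger_median {ι : Type} [Fintype ι] [Nonempty ι] (φ : ι → ℝ) (m : ℕ)
    (hm : Fintype.card ι = 2 * m) :
    ∃ c : ℝ, (univ.filter fun i => c < φ i).card ≤ m ∧ (univ.filter fun i => φ i < c).card ≤ m := by
  classical
  -- the indices such that at most `m` values are larger
  set G := univ.filter fun i => (univ.filter fun j => φ i < φ j).card ≤ m with hG
  have hGne : G.Nonempty := by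
    obtain ⟨i, _, hi⟩ := exists_max_image univ φ univ_nonempty
    refine ⟨i, mem_filter.mpr ⟨mem_univ i, ?_⟩⟩
    have : (univ.filter fun j => φ i < φ j) = ∅ :=
      filter_eq_empty_iff.mpr fun j _ => not_lt.mpr (hi j (mem_univ j))
    rw [this, card_empty]
    exact Nat.zero_le _
  obtain ⟨i, hi, himin⟩ := exists_min_image G φ hGne
  refine ⟨φ i, (mem_filter.mp hi).2, ?_⟩
  by_contra hcon
  push Not at hcon
  have hne : (univ.filter fun j => φ j < φ i).Nonempty := by
    rw [← card_pos]
    omega
  obtain ⟨j, hj, hjmax⟩ := exists_max_image _ φ hne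
  have hjlt := (mem_filter.mp hj).2
  have hjG : j ∈ G := by
    refine mem_filter.mpr ⟨mem_univ j, ?_⟩
    have hsub : (univ.filter fun l => φ j < φ l) ⊆ (univ.filter fun l => φ l < φ i)ᶜ := by
      intro l hl
      rw [mem_compl]
      intro hl2
      have := hjmax l hl2
      exact absurd (mem_filter.mp hl).2 (not_lt.mpr this)
    have h1 := card_le_card hsub
    rw [card_compl] at h1
    omega
  exact absurd (himin j hjG) (not_le.mpr hjlt)

/-- a median -/
theorem exists_median (hv : Unif var r) (hb : Unif blk k) (f : V → ℝ) (g : B → ℝ) :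
    ∃ c : ℝ, (univ.filter fun i => c < f i).card * r + (univ.filter fun j => c < g j).card * k
        ≤ Fintype.card P ∧
      (univ.filter fun i => f i < c).card * r + (univ.filter fun j => g j < c).card * k
        ≤ Fintype.card P := by
  have key : ∀ (p : ℝ → Prop) [DecidablePred p],
      (univ.filter fun i => p (f i)).card * r + (univ.filter fun j => p (g j)).card * k =
      (univ.filter fun y : P ⊕ P => p (Sum.elim (fun x => f (var x)) (fun x => g (blk x)) y)).card := by
    intro p _
    rw [← Cheeger_vol hv, ← Cheeger_vol hb]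
    simp only [card_filter, Fintype.sum_sum_type, Sum.elim_inl, Sum.elim_inr, mem_filter,
      mem_univ, true_and]
    rfl
  rcases isEmpty_or_nonempty P with hP | hP
  · refine ⟨0, ?_, ?_⟩
    · rw [key (fun a => 0 < a)]
      simp
    · rw [key (fun a => a < 0)]
      simp
  · obtain ⟨c, h1, h2⟩ := Cheeger_median
      (Sum.elim (fun x : P => f (var x)) (fun x : P => g (blk x))) (Fintype.card P)
      (by rw [Fintype.card_sum]; ring)
    refine ⟨c, ?_, ?_⟩
    · rw [key (fun a => c < a)]
      exact h1
    · rw [key (fun a => a < c)]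
      exact h2

theorem Cheeger_parts (s t : ℝ) :
    (max s 0 - max t 0) ^ 2 + (max (-s) 0 - max (-t) 0) ^ 2 ≤ (s - t) ^ 2 := by
  rcases le_total 0 s with hs | hs <;> rcases le_total 0 t with ht | ht
  · rw [max_eq_left hs, max_eq_left ht, max_eq_right (by linarith), max_eq_right (by linarith)]
    nlinarith
  · rw [max_eq_left hs, max_eq_right ht, max_eq_right (by linarith), max_eq_left (by linarith)]
    nlinarith [mul_nonneg hs (neg_nonneg.mpr ht)]
  · rw [max_eq_right hs, max_eq_left ht, max_eq_left (by linarith), max_eq_right (by linarith)]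
    nlinarith [mul_nonneg ht (neg_nonneg.mpr hs)]
  · rw [max_eq_right hs, max_eq_right ht, max_eq_left (by linarith), max_eq_left (by linarith)]
    nlinarith

theorem Cheeger_parts_sq (s : ℝ) : max s 0 ^ 2 + max (-s) 0 ^ 2 = s ^ 2 := by
  rcases le_total 0 s with hs | hs
  · rw [max_eq_left hs, max_eq_right (by linarith)]
    ring
  · rw [max_eq_right hs, max_eq_left (by linarith)]
    ring

theorem cheeger (hv : Unif var r) (hb : Unif blk k) {h : ℝ} (hh : 0 ≤ h)
    (hC : Cond var blk r k h) (f : V → ℝ) (g : B → ℝ) (hf : ∑ i, f i = 0) :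
    h ^ 2 / 2 * ∑ x, f (var x) ^ 2 ≤ ∑ x, (f (var x) - g (blk x)) ^ 2 := by
  obtain ⟨c, hc1, hc2⟩ := exists_median hv hb f g
  have h1 := cheeger_pos hv hb hh hC (fun i => max (f i - c) 0) (fun j => max (g j - c) 0)
    (fun i => le_max_right _ _) (fun j => le_max_right _ _) (by
      have e1 : (univ.filter fun i => 0 < max (f i - c) 0) = univ.filter fun i => c < f i :=
        filter_congr fun i _ => by rw [lt_max_iff]; simp
      have e2 : (univ.filter fun j => 0 < max (g j - c) 0) = univ.filter fun j => c < g j :=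
        filter_congr fun j _ => by rw [lt_max_iff]; simp
      rw [e1, e2]
      exact hc1)
  have h2 := cheeger_pos hv hb hh hC (fun i => max (-(f i - c)) 0)
    (fun j => max (-(g j - c)) 0)
    (fun i => le_max_right _ _) (fun j => le_max_right _ _) (by
      have e1 : (univ.filter fun i => 0 < max (-(f i - c)) 0) = univ.filter fun i => f i < c :=
        filter_congr fun i _ => by rw [lt_max_iff]; simp
      have e2 : (univ.filter fun j => 0 < max (-(g j - c)) 0) = univ.filter fun j => g j < c :=
        filter_congr fun j _ => by rw [lt_max_iff]; simp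
      rw [e1, e2]
      exact hc2)
  have h3 : ∑ x, (max (f (var x) - c) 0 - max (g (blk x) - c) 0) ^ 2 +
      ∑ x, (max (-(f (var x) - c)) 0 - max (-(g (blk x) - c)) 0) ^ 2 ≤
      ∑ x, (f (var x) - g (blk x)) ^ 2 := by
    rw [← sum_add_distrib]
    refine sum_le_sum fun x _ => ?_
    refine le_trans (Cheeger_parts (f (var x) - c) (g (blk x) - c)) (le_of_eq ?_)
    ring
  have h4 : ∑ x, (f (var x) - c) ^ 2 ≤ ∑ x, (max (f (var x) - c) 0 ^ 2 +
      max (g (blk x) - c) 0 ^ 2) + ∑ x, (max (-(f (var x) - c)) 0 ^ 2 +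
      max (-(g (blk x) - c)) 0 ^ 2) := by
    rw [← sum_add_distrib]
    refine sum_le_sum fun x _ => ?_
    have e := Cheeger_parts_sq (f (var x) - c)
    have n1 := sq_nonneg (max (g (blk x) - c) 0)
    have n2 := sq_nonneg (max (-(g (blk x) - c)) 0)
    linarith
  have h5 : ∑ x, f (var x) ^ 2 ≤ ∑ x, (f (var x) - c) ^ 2 := by
    rw [Cheeger_sum hv (fun i => f i ^ 2), Cheeger_sum hv (fun i => (f i - c) ^ 2)]
    refine mul_le_mul_of_nonneg_left ?_ (Nat.cast_nonneg r)
    have : ∑ i, (f i - c) ^ 2 = ∑ i, f i ^ 2 - 2 * c * ∑ i, f i + ∑ _i : V, c ^ 2 := by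
      rw [mul_sum, ← sum_sub_distrib, ← sum_add_distrib]
      refine sum_congr rfl fun i _ => ?_
      ring
    rw [this, hf, mul_zero, sub_zero]
    have h6 : 0 ≤ ∑ _i : V, c ^ 2 := sum_nonneg fun i _ => sq_nonneg _
    linarith
  have hh2 : 0 ≤ h ^ 2 / 2 := by positivity
  calc h ^ 2 / 2 * ∑ x, f (var x) ^ 2 ≤ h ^ 2 / 2 * (∑ x, (max (f (var x) - c) 0 ^ 2 +
      max (g (blk x) - c) 0 ^ 2) + ∑ x, (max (-(f (var x) - c)) 0 ^ 2 +
      max (-(g (blk x) - c)) 0 ^ 2)) := mul_le_mul_of_nonneg_left (h5.trans h4) hh2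
    _ ≤ ∑ x, (max (f (var x) - c) 0 - max (g (blk x) - c) 0) ^ 2 +
      ∑ x, (max (-(f (var x) - c)) 0 - max (-(g (blk x) - c)) 0) ^ 2 := by
        rw [mul_add]
        exact add_le_add h1 h2
    _ ≤ ∑ x, (f (var x) - g (blk x)) ^ 2 := h3

theorem gap (h : IsD var blk r k) {t : ℝ} (ht : 0 ≤ t) (hC : Cond var blk r k t) (f : V → ℝ)
    (hf : ∑ i, f i = 0) : f ⬝ᵥ (MM var blk r k) *ᵥ f ≤ (1 - t ^ 2 / 2) * (f ⬝ᵥ f) := by
  have h1 := cheeger h.uv h.ub ht hC f
    (fun j => (k : ℝ)⁻¹ * (∑ y with blk y = j, f (var y))) hf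
  rw [energy_eq h f, Cheeger_sum h.uv (fun i => f i ^ 2)] at h1
  have hr : (0 : ℝ) < r := by
    have := h.hr
    positivity
  have hff : f ⬝ᵥ f = ∑ i, f i ^ 2 := by
    unfold dotProduct
    exact sum_congr rfl fun i _ => (sq (f i)).symm
  rw [← hff] at h1
  have h2 : (r : ℝ) * (t ^ 2 / 2 * (f ⬝ᵥ f)) ≤
      r * (f ⬝ᵥ f - f ⬝ᵥ (MM var blk r k) *ᵥ f) := by
    calc (r : ℝ) * (t ^ 2 / 2 * (f ⬝ᵥ f)) = t ^ 2 / 2 * (r * (f ⬝ᵥ f)) := by ring
      _ ≤ _ := h1
  have h3 := le_of_mul_le_mul_left h2 hr
  linarith

/-- an expanding design is connected and the tail of its criterion is small -/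
theorem ff_le_of_cond (h : IsD var blk r k) {t : ℝ} (ht : 0 < t) (ht1 : t ≤ 1)
    (hC : Cond var blk r k t) (S : ℕ) (hS : 1 ≤ S) :
    (XX var blk r k).det ≠ 0 ∧ ff var blk r k ≤ 1 + ∑ s ∈ range S, (aa var blk r k s - 1)
      + Fintype.card V * (1 - t ^ 2 / 2) ^ S / (t ^ 2 / 2) := by
  obtain ⟨β, hβ0, _, hβs, hdet, hff, hgap⟩ := exists_spec h
  have hγ0 : 0 < t ^ 2 / 2 := by positivity
  have hγ1 : t ^ 2 / 2 ≤ 1 := by nlinarith
  have hβ := hgap (t ^ 2 / 2) hγ0.le hγ1 fun f hf => gap h ht.le hC f hf
  have hlt : ∀ i, β i < 1 := fun i => lt_of_le_of_lt (hβ i) (by linarith)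
  refine ⟨hdet.mp hlt, ?_⟩
  rw [hff hlt]
  refine le_trans (sum_inv_le_gap hβ0 hγ0 hβ S) (add_le_add ?_ (le_refl _))
  obtain ⟨S', rfl⟩ : ∃ S', S = S' + 1 := ⟨S - 1, by omega⟩
  rw [sum_range_succ', sum_range_succ' (fun s => aa var blk r k s - 1)]
  have e0 : aa var blk r k 0 = Fintype.card V := by
    unfold aa
    rw [pow_zero, trace_one]
  have e1 : ∑ i, β i ^ 0 = (Fintype.card V : ℝ) := by
    simp
  have e2 : ∑ s ∈ range S', ∑ i, β i ^ (s + 1) =
      ∑ s ∈ range S', (aa var blk r k (s + 1) - 1) :=
    sum_congr rfl fun s _ => hβs (s + 1) (by omega)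
  rw [e0, e1, e2]
  linarith

end Pool.Agent.Lib.MP_a7e07e_co.Sp
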