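import Pool.Agent.Lib.MP_a7e07e_co.Sp.Match

set_option autoImplicit false

/-! # Closed walks of a random bijection -/

namespace Pool.Agent.Lib.MP_a7e07e_co.Sp

open Finset

variable {P Q : Type} [Fintype P] [DecidableEq P] [Fintype Q] [DecidableEq Q]

/-- the walk with the steps `ρ i` (on `P`) and `τ i` (on `Q`), started at time `i` in `x`,
after `n` double steps -/
def wk (ρ : ℕ → Equiv.Perm P) (τ : ℕ → Equiv.Perm Q) (σ : P ≃ Q) (i : ℕ) (x : P) : ℕ → P
  | 0 => x
  | n + 1 => wk ρ τ σ (i + 1) (σ.symm (τ i (σ (ρ i x)))) n

theorem Word_sum_left {L : Finset (P × Q)} {a : P} (ha : a ∉ L.image Prod.fst) :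
    ∑ b ∈ univ.filter (fun b => b ∉ L.image Prod.snd), (Ext (insert (a, b) L)).card =
      (Ext L).card := by
  have h := card_Ext_filter_left ha (fun _ => True)
  simp only [filter_true_of_mem, implies_true] at h
  exact h.symm

theorem Word_sum_right {L : Finset (P × Q)} {b : Q} (hb : b ∉ L.image Prod.snd) :
    ∑ a ∈ univ.filter (fun a => a ∉ L.image Prod.fst), (Ext (insert (a, b) L)).card =
      (Ext L).card := by
  have h := card_Ext_filter_right hb (fun _ => True)
  simp only [filter_true_of_mem, implies_true] at h
  exact h.symm

/-- the step of the walk when the two exposed pairs are known -/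
theorem Word_step (ρ : ℕ → Equiv.Perm P) (τ : ℕ → Equiv.Perm Q) (i : ℕ) (x : P) (n : ℕ)
    {L : Finset (P × Q)} {p : Q} {x' : P} {σ : P ≃ Q}
    (h : σ ∈ Ext (insert (x', τ i p) (insert (ρ i x, p) L))) :
    wk ρ τ σ i x (n + 1) = wk ρ τ σ (i + 1) x' n := by
  rw [mem_Ext] at h
  have h1 : σ (ρ i x) = p := h (ρ i x, p) (by simp)
  have h2 : σ x' = τ i p := h (x', τ i p) (by simp)
  show wk ρ τ σ (i + 1) (σ.symm (τ i (σ (ρ i x)))) n = _
  rw [h1, ← h2, Equiv.symm_apply_apply]

/-- lazy exposure: `O` is the set of the plots seen so far -/
theorem word_aux (hPQ : Fintype.card P = Fintype.card Q) (ρ : ℕ → Equiv.Perm P)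
    (τ : ℕ → Equiv.Perm Q) (hρ : ∀ i x, ρ i x ≠ x) (hτ : ∀ i x, τ i x ≠ x) (l : ℕ)
    (hl : 8 * l ≤ Fintype.card P) (n : ℕ) (hn : 1 ≤ n) (i : ℕ) (hi : i + n ≤ l)
    (L : Finset (P × Q)) (hL : IsMatch L) (hLc : L.card = 2 * i) (O : Finset P)
    (hO : O.card ≤ 2 * i + 1) (hLO : L.image Prod.fst ⊆ O)
    (hO1 : (O \ L.image Prod.fst).card ≤ 1) (x z : P) (hx : x ∈ O)
    (hxO : ρ i x ∉ O) (hz : z ∈ O) :
    (Fintype.card P - 2 * l) * ((Ext L).filter fun σ => wk ρ τ σ i x n = z).card ≤
      (∑ j ∈ range n, (4 * (i + j) + 4)) * (Ext L).card := by
  induction n generalizing i L O x with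
  | zero => omega
  | succ n ih =>
    have hy : ρ i x ∉ L.image Prod.fst := fun h => hxO (hLO h)
    set K := ∑ j ∈ range n, (4 * (i + 1 + j) + 4) with hKdef
    have hK : ∑ j ∈ range (n + 1), (4 * (i + j) + 4) = K + (4 * i + 4) := by
      rw [sum_range_succ', hKdef]
      congr 1
      refine sum_congr rfl fun j _ => ?_
      ring
    rw [hK, card_Ext_filter_left hy]
    -- the bound for one value `p` of `σ y`
    have hp : ∀ p ∈ univ.filter (fun b => b ∉ L.image Prod.snd),
        (Fintype.card P - 2 * l) *
          ((Ext (insert (ρ i x, p) L)).filter fun σ => wk ρ τ σ i x (n + 1) = z).card ≤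
        (if τ i p ∈ L.image Prod.snd then (Ext L).card else 0) +
          (2 * i + 3 + K) * (Ext (insert (ρ i x, p) L)).card := by
      intro p hp
      rw [mem_filter] at hp
      have hpL := hp.2
      have hL1 := hL.insert hy hpL
      have hc1 := card_Ext_insert hPQ hL hy hpL
      set L1 := insert (ρ i x, p) L with hL1def
      have hL1c : L1.card = 2 * i + 1 := by
        rw [hL1def, card_insert_of_notMem, hLc]
        intro h
        exact hy (mem_image_of_mem Prod.fst h)
      split_ifs with hbad
      · refine le_trans ?_ (Nat.le_add_right _ _)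
        calc _ ≤ (Fintype.card P - 2 * l) * (Ext L1).card :=
              Nat.mul_le_mul_left _ (card_le_card (filter_subset _ _))
          _ ≤ (Fintype.card P - L.card) * (Ext L1).card :=
              Nat.mul_le_mul_right _ (by omega)
          _ = (Ext L).card := hc1
      · rw [zero_add]
        have hp' : τ i p ∉ L1.image Prod.snd := by
          rw [hL1def, image_insert, mem_insert]
          push Not
          exact ⟨hτ i p, hbad⟩
        rw [card_Ext_filter_right hp', mul_sum]
        have hdom : L1.image Prod.fst = insert (ρ i x) (L.image Prod.fst) := by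
          rw [hL1def, image_insert]
        -- the bound for one value `x'`
        have hx' : ∀ x' ∈ univ.filter (fun a => a ∉ L1.image Prod.fst),
            (Fintype.card P - 2 * l) *
              ((Ext (insert (x', τ i p) L1)).filter fun σ =>
                wk ρ τ σ i x (n + 1) = z).card ≤
            (if x' ∈ O ∨ ρ (i + 1) x' ∈ insert (ρ i x) O then (Ext L1).card else 0) +
              K * (Ext (insert (x', τ i p) L1)).card := by
          intro x' hx'
          rw [mem_filter] at hx'
          have hx'L := hx'.2
          have hL2 := hL1.insert hx'L hp'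
          have hc2 := card_Ext_insert hPQ hL1 hx'L hp'
          set L2 := insert (x', τ i p) L1 with hL2def
          have hL2c : L2.card = 2 * (i + 1) := by
            rw [hL2def, card_insert_of_notMem, hL1c]
            · ring
            · intro h
              exact hx'L (mem_image_of_mem Prod.fst h)
          have hwk : (Ext L2).filter (fun σ => wk ρ τ σ i x (n + 1) = z) =
              (Ext L2).filter (fun σ => wk ρ τ σ (i + 1) x' n = z) := by
            refine filter_congr fun σ hσ => ?_
            rw [Word_step ρ τ i x n hσ]
          rw [hwk]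
          split_ifs with hb
          · refine le_trans ?_ (Nat.le_add_right _ _)
            calc _ ≤ (Fintype.card P - 2 * l) * (Ext L2).card :=
                  Nat.mul_le_mul_left _ (card_le_card (filter_subset _ _))
              _ ≤ (Fintype.card P - L1.card) * (Ext L2).card :=
                  Nat.mul_le_mul_right _ (by omega)
              _ = (Ext L1).card := hc2
          · rw [zero_add]
            push Not at hb
            obtain ⟨hb1, hb2⟩ := hb
            rcases Nat.eq_zero_or_pos n with hn0 | hn0
            · subst hn0
              have : (Ext L2).filter (fun σ => wk ρ τ σ (i + 1) x' 0 = z) = ∅ := by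
                refine filter_eq_empty_iff.mpr fun σ _ h => ?_
                have h' : x' = z := h
                exact hb1 (h' ▸ hz)
              rw [this, card_empty, mul_zero]
              exact Nat.zero_le _
            · have hdom2 : L2.image Prod.fst =
                  insert x' (insert (ρ i x) (L.image Prod.fst)) := by
                rw [hL2def, image_insert, hdom]
              have h := ih hn0 (i + 1) (by omega) L2 hL2 hL2c (insert x' (insert (ρ i x) O))
                (by
                  have h1 := card_insert_le x' (insert (ρ i x) O)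
                  have h2 := card_insert_le (ρ i x) O
                  omega)
                (by
                  rw [hdom2]
                  exact insert_subset_insert _ (insert_subset_insert _ hLO))
                (by
                  refine le_trans (card_le_card ?_) hO1
                  rw [hdom2]
                  intro a ha
                  simp only [mem_sdiff, mem_insert, not_or] at ha ⊢
                  obtain ⟨h1, h2, h3, h4⟩ := ha
                  rcases h1 with h1 | h1 | h1
                  · exact absurd h1 h2
                  · exact absurd h1 h3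
                  · exact ⟨h1, h4⟩)
                x' (mem_insert_self _ _)
                (by
                  rw [mem_insert]
                  push Not
                  exact ⟨hρ (i + 1) x', hb2⟩)
                (mem_insert_of_mem (mem_insert_of_mem hz))
              exact h
        refine le_trans (sum_le_sum hx') ?_
        rw [sum_add_distrib, ← mul_sum, Word_sum_right hp', add_mul]
        refine Nat.add_le_add_right ?_ _
        rw [← sum_filter, sum_const, smul_eq_mul]
        refine Nat.mul_le_mul_right _ ?_
        -- the number of bad `x'`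
        rw [filter_filter]
        have hsub : univ.filter (fun a => a ∉ L1.image Prod.fst ∧
            (a ∈ O ∨ ρ (i + 1) a ∈ insert (ρ i x) O)) ⊆
            (O \ L.image Prod.fst) ∪ (insert (ρ i x) O).image (ρ (i + 1)).symm := by
          intro a ha
          rw [mem_filter] at ha
          obtain ⟨_, h1, h2⟩ := ha
          rw [hdom, mem_insert, not_or] at h1
          rw [mem_union]
          rcases h2 with h2 | h2
          · left
            exact mem_sdiff.mpr ⟨h2, h1.2⟩
          · right
            exact mem_image.mpr ⟨_, h2, Equiv.symm_apply_apply _ _⟩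
        have h1 := card_le_card hsub
        have h2 := card_union_le (O \ L.image Prod.fst)
          ((insert (ρ i x) O).image (ρ (i + 1)).symm)
        have h3 : ((insert (ρ i x) O).image (ρ (i + 1)).symm).card ≤ (insert (ρ i x) O).card :=
          card_image_le
        have h4 := card_insert_le (ρ i x) O
        omega
    rw [mul_sum]
    refine le_trans (sum_le_sum hp) ?_
    rw [sum_add_distrib, ← mul_sum, Word_sum_left hy, ← sum_filter, sum_const, smul_eq_mul,
      ← add_mul]
    refine Nat.mul_le_mul_right _ ?_
    have hcard : ((univ.filter (fun b => b ∉ L.image Prod.snd)).filter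
        (fun p => τ i p ∈ L.image Prod.snd)).card ≤ L.card := by
      refine le_trans (card_le_card_of_injOn (τ i) ?_ (τ i).injective.injOn)
        (card_image_le : (L.image Prod.snd).card ≤ L.card)
      intro p hp
      rw [mem_coe, mem_filter] at hp
      exact hp.2
    omega

theorem word_bound (hPQ : Fintype.card P = Fintype.card Q) (ρ : ℕ → Equiv.Perm P)
    (τ : ℕ → Equiv.Perm Q) (hρ : ∀ i x, ρ i x ≠ x) (hτ : ∀ i x, τ i x ≠ x) {l : ℕ} (h1 : 1 ≤ l)
    (hl : 8 * l ≤ Fintype.card P) (x : P) :
    Fintype.card P * (univ.filter fun σ : P ≃ Q => wk ρ τ σ 0 x l = x).card ≤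
      8 * l ^ 2 * Fintype.card (P ≃ Q) := by
  have hE : Ext (∅ : Finset (P × Q)) = univ := by
    ext σ
    rw [mem_Ext]
    simp
  have h := word_aux hPQ ρ τ hρ hτ l hl l h1 0 (by omega) ∅
    (by intro p hp; simp at hp) (by simp) {x} (by simp) (by simp) (by simp) x x
    (mem_singleton_self x) (by rw [mem_singleton]; exact hρ 0 x) (mem_singleton_self x)
  rw [hE, card_univ] at h
  have hS : ∑ j ∈ range l, (4 * (0 + j) + 4) = 2 * l ^ 2 + 2 * l := by
    clear h hl h1
    induction l with
    | zero => simp
    | succ l ih =>
      rw [sum_range_succ, ih]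
      ring
  rw [hS] at h
  set c := (univ.filter fun σ : P ≃ Q => wk ρ τ σ 0 x l = x).card
  set N := Fintype.card (P ≃ Q)
  have h2 : 2 * l ^ 2 + 2 * l ≤ 4 * l ^ 2 := by nlinarith
  have h3 : Fintype.card P ≤ 2 * (Fintype.card P - 2 * l) := by omega
  calc Fintype.card P * c ≤ 2 * (Fintype.card P - 2 * l) * c := Nat.mul_le_mul_right _ h3
    _ = 2 * ((Fintype.card P - 2 * l) * c) := by ring
    _ ≤ 2 * ((2 * l ^ 2 + 2 * l) * N) := Nat.mul_le_mul_left _ h
    _ ≤ 2 * (4 * l ^ 2 * N) := Nat.mul_le_mul_left _ (Nat.mul_le_mul_right _ h2)
    _ = 8 * l ^ 2 * N := by ring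

end Pool.Agent.Lib.MP_a7e07e_co.Sp
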