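import Pool.Agent.Lib.MP_a7e07e_co.Sp.Walk
import Pool.Agent.Lib.MP_a7e07e_co.Sp.Word

set_option autoImplicit false

/-! # The expected number of closed walks of a random design -/

namespace Pool.Agent.Lib.MP_a7e07e_co.Sp

open Matrix Finset

variable {v b r k : ℕ}

/-- the design of a bijection -/
def vr (σ : (Fin b × Fin k) ≃ (Fin v × Fin r)) : Fin b × Fin k → Fin v := fun x => (σ x).1

theorem Coin_unif_fst (n m : ℕ) : Unif (Prod.fst : Fin n × Fin m → Fin n) m := by
  intro i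
  have h : (univ.filter fun x : Fin n × Fin m => x.1 = i) = ({i} : Finset (Fin n)) ×ˢ univ := by
    ext x
    rw [mem_filter, mem_product, mem_singleton]
    simp only [mem_univ, true_and, and_true]
  rw [h, card_product, card_singleton, card_univ, Fintype.card_fin, one_mul]

theorem isD_vr (hr : 2 ≤ r) (hk : 2 ≤ k) (hrk : 5 ≤ r + k) (hv : 1 ≤ v)
    (σ : (Fin b × Fin k) ≃ (Fin v × Fin r)) :
    IsD (vr σ) (Prod.fst : Fin b × Fin k → Fin b) r k := by
  refine ⟨hr, hk, hrk, ?_, Coin_unif_fst b k, ⟨σ.symm (⟨0, by omega⟩, ⟨0, by omega⟩)⟩⟩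
  intro i
  have h := Coin_unif_fst v r i
  refine Eq.trans ?_ h
  refine card_bij' (fun x _ => σ x) (fun y _ => σ.symm y) ?_ ?_ ?_ ?_
  · intro x hx
    have hx' := (mem_filter.1 hx).2
    exact mem_filter.2 ⟨mem_univ _, hx'⟩
  · intro y hy
    have hy' := (mem_filter.1 hy).2
    refine mem_filter.2 ⟨mem_univ _, ?_⟩
    unfold vr
    rw [Equiv.apply_symm_apply]
    exact hy'
  · intro x _
    simp
  · intro y _
    simp

/-- cyclic shift of the second coordinate -/
def shift {n m : ℕ} [NeZero m] (c : Fin m) : Equiv.Perm (Fin n × Fin m) :=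
  Equiv.prodCongr (Equiv.refl _) (Equiv.addRight c)

theorem Coin_shift_apply {n m : ℕ} [NeZero m] (c : Fin m) (x : Fin n × Fin m) :
    shift c x = (x.1, x.2 + c) := rfl

theorem Coin_shift_ne {n m : ℕ} [NeZero m] {c : Fin m} (hc : c ≠ 0) (x : Fin n × Fin m) :
    shift c x ≠ x := by
  rw [Coin_shift_apply]
  intro h
  have h2 : x.2 + c = x.2 := congrArg Prod.snd h
  exact hc (by simpa using h2)

theorem Coin_sum_shift {n m : ℕ} [NeZero m] (x y : Fin n × Fin m) :
    ∑ c ∈ univ.filter (fun c : Fin m => c ≠ 0), (if shift c x = y then (1 : ℝ) else 0) =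
      if x ≠ y ∧ x.1 = y.1 then 1 else 0 := by
  by_cases h : x.1 = y.1
  · by_cases h2 : x.2 = y.2
    · have hxy : x = y := Prod.ext h h2
      rw [if_neg (by simp [hxy])]
      apply sum_eq_zero
      intro c hc
      rw [if_neg]
      rw [hxy]
      exact Coin_shift_ne (mem_filter.1 hc).2 y
    · have hxy : x ≠ y := fun h3 => h2 (congrArg Prod.snd h3)
      rw [if_pos ⟨hxy, h⟩]
      rw [sum_eq_single (y.2 - x.2)]
      · rw [if_pos]
        rw [Coin_shift_apply]
        refine Prod.ext h ?_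
        simp
      · intro c _ hc
        rw [if_neg]
        intro h3
        apply hc
        rw [Coin_shift_apply] at h3
        have h4 : x.2 + c = y.2 := congrArg Prod.snd h3
        rw [← h4]
        simp
      · intro h3
        exfalso
        apply h3
        refine mem_filter.2 ⟨mem_univ _, ?_⟩
        intro h4
        exact h2 (sub_eq_zero.1 h4).symm
  · rw [if_neg (fun h3 => h h3.2)]
    apply sum_eq_zero
    intro c _
    rw [if_neg]
    intro h3
    rw [Coin_shift_apply] at h3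
    rw [← h3] at h
    exact h rfl

theorem cw_fst [NeZero k] (x y : Fin b × Fin k) :
    cw (Prod.fst : Fin b × Fin k → Fin b) k x y =
      ((k : ℝ) - 1)⁻¹ * ∑ c ∈ univ.filter (fun c : Fin k => c ≠ 0),
        if shift c x = y then 1 else 0 := by
  rw [Coin_sum_shift]
  unfold cw
  split_ifs <;> simp

theorem cw_vr [NeZero r] (σ : (Fin b × Fin k) ≃ (Fin v × Fin r)) (x y : Fin b × Fin k) :
    cw (vr σ) r x y = ((r : ℝ) - 1)⁻¹ * ∑ d ∈ univ.filter (fun d : Fin r => d ≠ 0),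
        if σ.symm (shift d (σ x)) = y then 1 else 0 := by
  have h : ∀ d : Fin r, (σ.symm (shift d (σ x)) = y) = (shift d (σ x) = σ y) := by
    intro d
    rw [Equiv.symm_apply_eq]
  simp only [h]
  rw [Coin_sum_shift]
  unfold cw vr
  have h2 : (x ≠ y ∧ (σ x).1 = (σ y).1) ↔ (σ x ≠ σ y ∧ (σ x).1 = (σ y).1) := by
    rw [ne_eq, ne_eq, σ.injective.eq_iff]
  by_cases h3 : x ≠ y ∧ (σ x).1 = (σ y).1
  · rw [if_pos h3, if_pos (h2.1 h3), mul_one]
  · rw [if_neg h3, if_neg (fun h4 => h3 (h2.2 h4)), mul_zero]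

/-- labels of a double step -/
abbrev Coin_Lab (k r : ℕ) [NeZero k] [NeZero r] : Type :=
  {c : Fin k // c ≠ 0} × {d : Fin r // d ≠ 0}

theorem Coin_card_ne (m : ℕ) [NeZero m] : Fintype.card {c : Fin m // c ≠ 0} = m - 1 := by
  rw [Fintype.card_subtype, filter_ne', card_erase_of_mem (mem_univ _), card_univ,
    Fintype.card_fin]

theorem Coin_card_Lab (k r : ℕ) [NeZero k] [NeZero r] :
    Fintype.card (Coin_Lab k r) = (k - 1) * (r - 1) := by
  rw [Fintype.card_prod, Coin_card_ne, Coin_card_ne]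

/-- one double step -/
def Coin_step [NeZero k] [NeZero r] (σ : (Fin b × Fin k) ≃ (Fin v × Fin r)) (a : Coin_Lab k r)
    (x : Fin b × Fin k) : Fin b × Fin k := σ.symm (shift a.2.1 (σ (shift a.1.1 x)))

theorem Coin_AA [NeZero k] [NeZero r] (σ : (Fin b × Fin k) ≃ (Fin v × Fin r))
    (x y : Fin b × Fin k) :
    AA (vr σ) (Prod.fst : Fin b × Fin k → Fin b) r k x y =
      (((k : ℝ) - 1) * ((r : ℝ) - 1))⁻¹ *
        ∑ a : Coin_Lab k r, if Coin_step σ a x = y then 1 else 0 := by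
  unfold AA
  rw [Matrix.mul_apply]
  simp only [cw_fst, cw_vr]
  have h1 : ∀ z : Fin b × Fin k,
      ((k : ℝ) - 1)⁻¹ * (∑ c ∈ univ.filter (fun c : Fin k => c ≠ 0),
        if shift c x = z then (1 : ℝ) else 0) *
      (((r : ℝ) - 1)⁻¹ * ∑ d ∈ univ.filter (fun d : Fin r => d ≠ 0),
        if σ.symm (shift d (σ z)) = y then (1 : ℝ) else 0) =
      (((k : ℝ) - 1) * ((r : ℝ) - 1))⁻¹ * ∑ c ∈ univ.filter (fun c : Fin k => c ≠ 0),
        ∑ d ∈ univ.filter (fun d : Fin r => d ≠ 0), (if shift c x = z then (1 : ℝ) else 0) *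
        (if σ.symm (shift d (σ z)) = y then (1 : ℝ) else 0) := by
    intro z
    rw [← sum_mul_sum, mul_inv]
    ring
  simp only [h1]
  rw [← mul_sum]
  congr 1
  have h2 : (∑ a : Coin_Lab k r, if Coin_step σ a x = y then (1 : ℝ) else 0) =
      ∑ c ∈ univ.filter (fun c : Fin k => c ≠ 0), ∑ d ∈ univ.filter (fun d : Fin r => d ≠ 0),
        if σ.symm (shift d (σ (shift c x))) = y then (1 : ℝ) else 0 := by
    rw [Fintype.sum_prod_type]
    rw [sum_subtype (univ.filter (fun c : Fin k => c ≠ 0)) (p := fun c => c ≠ 0) (by simp)]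
    refine sum_congr rfl fun c _ => ?_
    rw [sum_subtype (univ.filter (fun d : Fin r => d ≠ 0)) (p := fun d => d ≠ 0) (by simp)]
    rfl
  rw [h2, sum_comm]
  refine sum_congr rfl fun c _ => ?_
  rw [sum_comm]
  refine sum_congr rfl fun d _ => ?_
  simp only [ite_mul, one_mul, zero_mul]
  rw [sum_ite_eq univ (shift c x)]
  simp

/-- extension of a label sequence -/
def Coin_ex [NeZero k] [NeZero r] {n : ℕ} (a0 : Coin_Lab k r) (f : Fin n → Coin_Lab k r) :
    ℕ → Coin_Lab k r := fun i => if h : i < n then f ⟨i, h⟩ else a0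

theorem Coin_wk_shift {P Q : Type} [Fintype P] [DecidableEq P] [Fintype Q] [DecidableEq Q]
    (ρ : ℕ → Equiv.Perm P) (τ : ℕ → Equiv.Perm Q) (σ : P ≃ Q) (n : ℕ) :
    ∀ (i : ℕ) (x : P), wk ρ τ σ (i + 1) x n = wk (fun j => ρ (j + 1)) (fun j => τ (j + 1)) σ i x n
      := by
  induction n with
  | zero => intro i x; rfl
  | succ n ih =>
    intro i x
    show wk ρ τ σ (i + 1 + 1) _ n = wk _ _ σ (i + 1) _ n
    rw [ih]

/-- the walk of a label sequence -/
def Coin_wk [NeZero k] [NeZero r] (σ : (Fin b × Fin k) ≃ (Fin v × Fin r)) (g : ℕ → Coin_Lab k r)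
    (x : Fin b × Fin k) (n : ℕ) : Fin b × Fin k :=
  wk (fun i => shift (g i).1.1) (fun i => shift (g i).2.1) σ 0 x n

theorem Coin_wk_succ [NeZero k] [NeZero r] (σ : (Fin b × Fin k) ≃ (Fin v × Fin r))
    (g : ℕ → Coin_Lab k r) (x : Fin b × Fin k) (n : ℕ) :
    Coin_wk σ g x (n + 1) = Coin_wk σ (fun i => g (i + 1)) (Coin_step σ (g 0) x) n := by
  unfold Coin_wk
  show wk _ _ σ (0 + 1) _ n = _
  rw [Coin_wk_shift]
  rfl

theorem Coin_ex_cons [NeZero k] [NeZero r] {n : ℕ} (a0 a : Coin_Lab k r)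
    (f : Fin n → Coin_Lab k r) : (fun i => Coin_ex a0 (Fin.cons a f : Fin (n + 1) → Coin_Lab k r)
      (i + 1)) = Coin_ex a0 f := by
  funext i
  unfold Coin_ex
  by_cases h : i < n
  · rw [dif_pos h, dif_pos (by omega)]
    have : (⟨i + 1, by omega⟩ : Fin (n + 1)) = Fin.succ ⟨i, h⟩ := rfl
    rw [this, Fin.cons_succ]
  · rw [dif_neg h, dif_neg (by omega)]

theorem Coin_ex_cons_zero [NeZero k] [NeZero r] {n : ℕ} (a0 a : Coin_Lab k r)
    (f : Fin n → Coin_Lab k r) : Coin_ex a0 (Fin.cons a f : Fin (n + 1) → Coin_Lab k r) 0 = a := by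
  unfold Coin_ex
  rw [dif_pos (by omega)]
  rfl

theorem Coin_pow [NeZero k] [NeZero r] (a0 : Coin_Lab k r)
    (σ : (Fin b × Fin k) ≃ (Fin v × Fin r)) (n : ℕ) : ∀ x y : Fin b × Fin k,
    ((AA (vr σ) (Prod.fst : Fin b × Fin k → Fin b) r k) ^ n) x y =
      ((((k : ℝ) - 1) * ((r : ℝ) - 1))⁻¹) ^ n *
        ∑ f : Fin n → Coin_Lab k r, if Coin_wk σ (Coin_ex a0 f) x n = y then 1 else 0 := by
  induction n with
  | zero =>
    intro x y
    rw [pow_zero, pow_zero, one_mul, Fintype.sum_unique, Matrix.one_apply]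
    rfl
  | succ n ih =>
    intro x y
    rw [pow_succ', Matrix.mul_apply]
    have h1 : ∀ z : Fin b × Fin k,
        AA (vr σ) (Prod.fst : Fin b × Fin k → Fin b) r k x z *
          ((AA (vr σ) (Prod.fst : Fin b × Fin k → Fin b) r k) ^ n) z y =
        ((((k : ℝ) - 1) * ((r : ℝ) - 1))⁻¹) ^ (n + 1) *
          ∑ a : Coin_Lab k r, ∑ f : Fin n → Coin_Lab k r,
            (if Coin_step σ a x = z then (1 : ℝ) else 0) *
              (if Coin_wk σ (Coin_ex a0 f) z n = y then 1 else 0) := by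
      intro z
      rw [Coin_AA, ih, ← sum_mul_sum]
      ring
    simp only [h1]
    rw [← mul_sum]
    congr 1
    rw [sum_comm]
    have h2 : ∀ a : Coin_Lab k r, (∑ z : Fin b × Fin k, ∑ f : Fin n → Coin_Lab k r,
            (if Coin_step σ a x = z then (1 : ℝ) else 0) *
              (if Coin_wk σ (Coin_ex a0 f) z n = y then 1 else 0)) =
        ∑ f : Fin n → Coin_Lab k r,
          if Coin_wk σ (Coin_ex a0 f) (Coin_step σ a x) n = y then (1 : ℝ) else 0 := by
      intro a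
      rw [sum_comm]
      refine sum_congr rfl fun f _ => ?_
      simp only [ite_mul, one_mul, zero_mul]
      rw [sum_ite_eq univ (Coin_step σ a x)]
      simp
    simp only [h2]
    conv_rhs =>
      rw [← Equiv.sum_comp (Fin.consEquiv (fun _ : Fin (n + 1) => Coin_Lab k r))
        (fun f => if Coin_wk σ (Coin_ex a0 f) x (n + 1) = y then (1 : ℝ) else 0),
        Fintype.sum_prod_type]
    refine sum_congr rfl fun a _ => ?_
    refine sum_congr rfl fun f _ => ?_
    have h3 : (Fin.consEquiv (fun _ : Fin (n + 1) => Coin_Lab k r)) (a, f)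
        = (Fin.cons a f : Fin (n + 1) → Coin_Lab k r) := rfl
    rw [h3, Coin_wk_succ, Coin_ex_cons, Coin_ex_cons_zero]

/-- the expected number of closed walks -/
theorem coin (hr : 2 ≤ r) (hk : 2 ≤ k) (hrk : 5 ≤ r + k) (hm : v * r = b * k) {l : ℕ}
    (h1 : 1 ≤ l) (hl : 8 * l ≤ v * r) :
    ∑ σ : (Fin b × Fin k) ≃ (Fin v × Fin r), tt (vr σ) (Prod.fst : Fin b × Fin k → Fin b) r k l ≤
      8 * (l : ℝ) ^ 2 * Fintype.card ((Fin b × Fin k) ≃ (Fin v × Fin r)) := by
  have : NeZero k := ⟨by omega⟩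
  have : NeZero r := ⟨by omega⟩
  have hcP : Fintype.card (Fin b × Fin k) = b * k := by
    rw [Fintype.card_prod, Fintype.card_fin, Fintype.card_fin]
  have hcQ : Fintype.card (Fin v × Fin r) = v * r := by
    rw [Fintype.card_prod, Fintype.card_fin, Fintype.card_fin]
  have hk0 : (⟨1, by omega⟩ : Fin k) ≠ 0 := by
    intro h
    have := congrArg Fin.val h
    simp at this
  have hr0 : (⟨1, by omega⟩ : Fin r) ≠ 0 := by
    intro h
    have := congrArg Fin.val h
    simp at this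
  let a0 : Coin_Lab k r := (⟨⟨1, by omega⟩, hk0⟩, ⟨⟨1, by omega⟩, hr0⟩)
  set q : ℝ := ((k : ℝ) - 1) * ((r : ℝ) - 1) with hq
  have hkR : (2 : ℝ) ≤ k := by exact_mod_cast hk
  have hrR : (2 : ℝ) ≤ r := by exact_mod_cast hr
  have hq0 : 0 < q := mul_pos (by linarith) (by linarith)
  have hm0 : 0 < v * r := by omega
  have hmR : (0 : ℝ) < ((v * r : ℕ) : ℝ) := by exact_mod_cast hm0
  have hLab : (Fintype.card (Coin_Lab k r) : ℝ) = q := by
    rw [Coin_card_Lab, hq]
    push_cast [Nat.cast_sub (show 1 ≤ k by omega), Nat.cast_sub (show 1 ≤ r by omega)]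
    ring
  -- bound for one label sequence and one start
  have key : ∀ (f : Fin l → Coin_Lab k r) (x : Fin b × Fin k),
      ∑ σ : (Fin b × Fin k) ≃ (Fin v × Fin r),
        (if Coin_wk σ (Coin_ex a0 f) x l = x then (1 : ℝ) else 0) ≤
      8 * (l : ℝ) ^ 2 * Fintype.card ((Fin b × Fin k) ≃ (Fin v × Fin r)) / ((v * r : ℕ) : ℝ) := by
    intro f x
    have hw := word_bound (P := Fin b × Fin k) (Q := Fin v × Fin r) (by rw [hcP, hcQ, hm])
      (fun i => shift (Coin_ex a0 f i).1.1) (fun i => shift (Coin_ex a0 f i).2.1)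
      (fun i x => Coin_shift_ne (Coin_ex a0 f i).1.2 x)
      (fun i x => Coin_shift_ne (Coin_ex a0 f i).2.2 x) h1 (by rw [hcP, ← hm]; exact hl) x
    rw [hcP, ← hm] at hw
    rw [le_div_iff₀ hmR, sum_boole]
    have hw' : (((v * r) * (univ.filter fun σ : (Fin b × Fin k) ≃ (Fin v × Fin r) =>
        Coin_wk σ (Coin_ex a0 f) x l = x).card : ℕ) : ℝ) ≤
        ((8 * l ^ 2 * Fintype.card ((Fin b × Fin k) ≃ (Fin v × Fin r)) : ℕ) : ℝ) := by
      exact_mod_cast hw
    push_cast at hw' ⊢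
    linarith
  have htt : ∀ σ : (Fin b × Fin k) ≃ (Fin v × Fin r),
      tt (vr σ) (Prod.fst : Fin b × Fin k → Fin b) r k l =
      (q⁻¹) ^ l * ∑ x : Fin b × Fin k, ∑ f : Fin l → Coin_Lab k r,
        if Coin_wk σ (Coin_ex a0 f) x l = x then (1 : ℝ) else 0 := by
    intro σ
    unfold tt Matrix.trace
    rw [mul_sum]
    refine sum_congr rfl fun x _ => ?_
    rw [Matrix.diag_apply, Coin_pow a0]
  simp only [htt]
  rw [← mul_sum, sum_comm]
  have h2 : ∑ x : Fin b × Fin k, ∑ σ : (Fin b × Fin k) ≃ (Fin v × Fin r),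
      ∑ f : Fin l → Coin_Lab k r, (if Coin_wk σ (Coin_ex a0 f) x l = x then (1 : ℝ) else 0) ≤
      ∑ x : Fin b × Fin k, ∑ f : Fin l → Coin_Lab k r,
        (8 * (l : ℝ) ^ 2 * Fintype.card ((Fin b × Fin k) ≃ (Fin v × Fin r))
          / ((v * r : ℕ) : ℝ)) := by
    refine sum_le_sum fun x _ => ?_
    rw [sum_comm]
    exact sum_le_sum fun f _ => key f x
  refine (mul_le_mul_of_nonneg_left h2 (by positivity)).trans (le_of_eq ?_)
  rw [sum_const, sum_const, card_univ, card_univ, hcP, ← hm, Fintype.card_fun, Fintype.card_fin,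
    nsmul_eq_mul, nsmul_eq_mul]
  push_cast [hLab]
  have h3 : (v : ℝ) * r ≠ 0 := by
    have := hmR.ne'
    push_cast at this
    exact this
  have h4 : q⁻¹ ^ l * q ^ l = 1 := by
    rw [← mul_pow, inv_mul_cancel₀ hq0.ne', one_pow]
  have h5 : ∀ N : ℝ, q⁻¹ ^ l * ((v : ℝ) * r * (q ^ l * (8 * (l : ℝ) ^ 2 * N / (v * r)))) =
      (q⁻¹ ^ l * q ^ l) * (8 * (l : ℝ) ^ 2 * N) * (((v : ℝ) * r) / (v * r)) := fun N => by ring
  rw [h5, h4, div_self h3]
  ring

end Pool.Agent.Lib.MP_a7e07e_co.Sp
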