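import Mathlib

set_option autoImplicit false

/-!
# MP_a7e07e_co, Theorem B (sparse designs): definitions

A design is given by two partitions of a finite set `P` of plots: `var : P → V` (varieties, all
classes of size `r`) and `blk : P → B` (blocks, all classes of size `k`).
-/

namespace Pool.Agent.Lib.MP_a7e07e_co.Sp

open Matrix Finset

section OnePartition

variable {P C : Type} [Fintype P] [DecidableEq P] [DecidableEq C]

/-- every class of `c` has exactly `n` elements -/
def Unif (c : P → C) (n : ℕ) : Prop := ∀ i, (univ.filter fun x => c x = i).card = n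

/-- the walk in the classes of `c` (which have size `n`): from `x` to a uniformly random other
element of its class -/
noncomputable def cw (c : P → C) (n : ℕ) : Matrix P P ℝ :=
  fun x y => if x ≠ y ∧ c x = c y then ((n : ℝ) - 1)⁻¹ else 0

/-- the incidence matrix of classes and plots -/
noncomputable def inc (c : P → C) : Matrix C P ℝ := fun i x => if c x = i then 1 else 0

end OnePartition

section Design

variable {P V B : Type} [Fintype P] [DecidableEq P] [Fintype V] [DecidableEq V] [Fintype B]
  [DecidableEq B]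

/-- the parameters and the two partitions form a design with `r, k ≥ 2` and `(r, k) ≠ (2, 2)` -/
structure IsD (var : P → V) (blk : P → B) (r k : ℕ) : Prop where
  hr : 2 ≤ r
  hk : 2 ≤ k
  hrk : 5 ≤ r + k
  uv : Unif var r
  ub : Unif blk k
  ne : Nonempty P

/-- the (non-backtracking) walk on the plots: a step in the block, then a step in the variety -/
noncomputable def AA (var : P → V) (blk : P → B) (r k : ℕ) : Matrix P P ℝ := cw blk k * cw var r

/-- the reversed walk: a step in the variety, then a step in the block -/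
noncomputable def AR (var : P → V) (blk : P → B) (r k : ℕ) : Matrix P P ℝ := cw var r * cw blk k

/-- `t_l = tr A ^ l` -/
noncomputable def tt (var : P → V) (blk : P → B) (r k : ℕ) (l : ℕ) : ℝ :=
  ((AA var blk r k) ^ l).trace

/-- `Y_{j+1} = tr (κ ϱ)^j κ` -/
noncomputable def YY (var : P → V) (blk : P → B) (r k : ℕ) (j : ℕ) : ℝ :=
  ((AA var blk r k) ^ j * cw blk k).trace

/-- `Z_{j+1} = tr (ϱ κ)^j ϱ` -/
noncomputable def ZZ (var : P → V) (blk : P → B) (r k : ℕ) (j : ℕ) : ℝ :=
  ((AR var blk r k) ^ j * cw var r).trace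

/-- `M = N Nᵀ / (r k)` -/
noncomputable def MM (var : P → V) (blk : P → B) (r k : ℕ) : Matrix V V ℝ :=
  ((r : ℝ) * k)⁻¹ • (inc var * (inc blk)ᵀ * (inc blk * (inc var)ᵀ))

/-- `a_s = tr M ^ s` -/
noncomputable def aa (var : P → V) (blk : P → B) (r k : ℕ) (s : ℕ) : ℝ :=
  ((MM var blk r k) ^ s).trace

/-- normalised matrices of non-backtracking walks from variety to variety -/
noncomputable def Th (var : P → V) (blk : P → B) (r k : ℕ) : ℕ → Matrix V V ℝ
  | 0 => 1
  | j + 1 => (r : ℝ)⁻¹ • (inc var * ((AA var blk r k) ^ j * cw blk k) * (inc var)ᵀ)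

/-- `X = 1 - M + J / v` -/
noncomputable def XX (var : P → V) (blk : P → B) (r k : ℕ) : Matrix V V ℝ :=
  1 - MM var blk r k + ((Fintype.card V : ℝ)⁻¹) • Matrix.of (fun _ _ => (1 : ℝ))

/-- the criterion `tr X⁻¹ = 1 + ∑ 1 / e_i` -/
noncomputable def ff (var : P → V) (blk : P → B) (r k : ℕ) : ℝ := ((XX var blk r k)⁻¹).trace

/-- exchange of the varieties of the plots `x` and `e` -/
def sw (var : P → V) (x e : P) : P → V := var ∘ Equiv.swap x e

/-- sum of the return probabilities of the walk started at `e` with a step in the block -/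
noncomputable def Hit1 (var : P → V) (blk : P → B) (r k : ℕ) (x e : P) (L : ℕ) : ℝ :=
  ∑ i ∈ range L, (((AA var blk r k) ^ i * cw blk k) e e + ((AA var blk r k) ^ i * cw blk k) e x
    + ((AA var blk r k) ^ (i + 1)) e e + ((AA var blk r k) ^ (i + 1)) e x)

/-- sum of the return probabilities of the walk started at `e` with a step in the variety -/
noncomputable def Hit2 (var : P → V) (blk : P → B) (r k : ℕ) (x e : P) (L : ℕ) : ℝ :=
  ∑ i ∈ range L, (((AR var blk r k) ^ i * cw var r) e e + ((AR var blk r k) ^ i * cw var r) e x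
    + ((AR var blk r k) ^ (i + 1)) e e + ((AR var blk r k) ^ (i + 1)) e x)

end Design

section Chain

/-- probability to move away from the origin -/
noncomputable def up (r k : ℕ) : ℝ := ((r : ℝ) - 1) * ((k : ℝ) - 1) / ((r : ℝ) * k)

/-- probability to stay -/
noncomputable def st (r k : ℕ) : ℝ := ((r : ℝ) + k - 2) / ((r : ℝ) * k)

/-- probability to move towards the origin -/
noncomputable def dn (r k : ℕ) : ℝ := 1 / ((r : ℝ) * k)

/-- the law at time `s` of the radial chain on `ℕ` started at `0` -/
noncomputable def xs (r k : ℕ) : ℕ → ℕ → ℝ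
  | 0, 0 => 1
  | 0, _ + 1 => 0
  | s + 1, 0 => 1 / (k : ℝ) * xs r k s 0 + dn r k * xs r k s 1
  | s + 1, 1 => ((k : ℝ) - 1) / k * xs r k s 0 + st r k * xs r k s 1 + dn r k * xs r k s 2
  | s + 1, j + 2 => up r k * xs r k s (j + 1) + st r k * xs r k s (j + 2)
      + dn r k * xs r k s (j + 3)

/-- expected number of visits of the origin before time `S` -/
noncomputable def WW (r k S : ℕ) : ℝ := ∑ s ∈ range S, xs r k s 0

end Chain

end Pool.Agent.Lib.MP_a7e07e_co.Sp
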