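import Pool.Agent.Lib.MP_a7e07e_co.Sp.Rec
import Pool.Agent.Lib.MP_a7e07e_co.Sp.Chain

set_option autoImplicit false

/-! # Expansion of `a_s` in the numbers `t_j` -/

namespace Pool.Agent.Lib.MP_a7e07e_co.Sp

open Matrix Finset

variable {P V B : Type} [Fintype P] [DecidableEq P] [Fintype V] [DecidableEq V] [Fintype B]
  [DecidableEq B] {var : P → V} {blk : P → B} {r k : ℕ}

private theorem Expand_trace_cw {C : Type} [DecidableEq C] [Fintype C] (c : P → C) (n : ℕ) :
    (cw c n).trace = 0 := by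
  unfold Matrix.trace
  exact sum_eq_zero fun x _ => cw_diag c n x

theorem YY_zero : YY var blk r k 0 = 0 := by
  unfold YY
  rw [pow_zero, one_mul, Expand_trace_cw]

theorem ZZ_zero : ZZ var blk r k 0 = 0 := by
  unfold ZZ
  rw [pow_zero, one_mul, Expand_trace_cw]

private theorem Expand_shift (X Y : Matrix P P ℝ) (n : ℕ) : (X * Y) ^ n * X = X * (Y * X) ^ n := by
  induction n with
  | zero => simp
  | succ n ih =>
    rw [pow_succ', mul_assoc, ih, ← mul_assoc, mul_assoc X Y X, mul_assoc, ← pow_succ']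

private theorem Expand_cyc (X Y : Matrix P P ℝ) (c1 c2 : ℝ) (hX : X * X = c1 • X + c2 • 1)
    (j : ℕ) : ((X * Y) ^ (j + 1) * X).trace
      = c1 * ((Y * X) ^ (j + 1)).trace + c2 * ((Y * X) ^ j * Y).trace := by
  rw [Expand_shift, Matrix.trace_mul_comm, pow_succ, mul_assoc, mul_assoc, hX, mul_add, mul_add,
    Matrix.trace_add, Matrix.mul_smul, Matrix.mul_smul, Matrix.mul_smul, Matrix.mul_smul,
    mul_one, Matrix.trace_smul, Matrix.trace_smul, smul_eq_mul, smul_eq_mul]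

theorem YY_succ (h : IsD var blk r k) (j : ℕ) : YY var blk r k (j + 1) =
    (((k : ℝ) - 2) / ((k : ℝ) - 1)) * tt var blk r k (j + 1)
      + (1 / ((k : ℝ) - 1)) * ZZ var blk r k j := by
  have h1 := Expand_cyc (cw blk k) (cw var r) _ _ (cw_sq h.ub h.hk) j
  have h2 := trace_AR (var := var) (blk := blk) (r := r) (k := k) (j + 1)
  unfold YY ZZ
  rw [← h2]
  exact h1

theorem ZZ_succ (h : IsD var blk r k) (j : ℕ) : ZZ var blk r k (j + 1) =
    (((r : ℝ) - 2) / ((r : ℝ) - 1)) * tt var blk r k (j + 1)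
      + (1 / ((r : ℝ) - 1)) * YY var blk r k j :=
  Expand_cyc (cw var r) (cw blk k) _ _ (cw_sq h.uv h.hr) j

private theorem Expand_coef {n : ℕ} (hn : 2 ≤ n) : 0 ≤ ((n : ℝ) - 2) / ((n : ℝ) - 1) ∧
    0 ≤ 1 / ((n : ℝ) - 1) ∧ ((n : ℝ) - 2) / ((n : ℝ) - 1) + 1 / ((n : ℝ) - 1) = 1 := by
  have h : (2 : ℝ) ≤ n := by exact_mod_cast hn
  refine ⟨div_nonneg (by linarith) (by linarith), div_nonneg zero_le_one (by linarith), ?_⟩
  rw [← add_div, div_eq_one_iff_eq (by linarith)]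
  ring

/-- if `t_1, …, t_j ≤ T` then `Y_{j+1}, Z_{j+1} ≤ T` -/
theorem YZ_le (h : IsD var blk r k) {T : ℝ} (hT : 0 ≤ T) (j : ℕ)
    (ht : ∀ i, 1 ≤ i → i ≤ j → tt var blk r k i ≤ T) :
    YY var blk r k j ≤ T ∧ ZZ var blk r k j ≤ T := by
  induction j with
  | zero => rw [YY_zero, ZZ_zero]; exact ⟨hT, hT⟩
  | succ j ih =>
    obtain ⟨h1, h2⟩ := ih fun i hi hij => ht i hi (by omega)
    have h3 := ht (j + 1) (by omega) le_rfl
    obtain ⟨a1, a2, a3⟩ := Expand_coef h.hk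
    obtain ⟨b1, b2, b3⟩ := Expand_coef h.hr
    rw [YY_succ h, ZZ_succ h]
    constructor
    · calc _ ≤ ((k : ℝ) - 2) / ((k : ℝ) - 1) * T + 1 / ((k : ℝ) - 1) * T :=
            add_le_add (mul_le_mul_of_nonneg_left h3 a1) (mul_le_mul_of_nonneg_left h2 a2)
        _ = T := by rw [← add_mul, a3, one_mul]
    · calc _ ≤ ((r : ℝ) - 2) / ((r : ℝ) - 1) * T + 1 / ((r : ℝ) - 1) * T :=
            add_le_add (mul_le_mul_of_nonneg_left h3 b1) (mul_le_mul_of_nonneg_left h1 b2)
        _ = T := by rw [← add_mul, b3, one_mul]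

theorem sum_YZ_le (h : IsD var blk r k) (L : ℕ) :
    ∑ i ∈ range L, YY var blk r k i ≤ ∑ i ∈ range L, tt var blk r k (i + 1) ∧
    ∑ i ∈ range L, ZZ var blk r k i ≤ ∑ i ∈ range L, tt var blk r k (i + 1) := by
  induction L with
  | zero => simp
  | succ L ih =>
    obtain ⟨h1, h2⟩ := ih
    obtain ⟨a1, a2, a3⟩ := Expand_coef h.hk
    obtain ⟨b1, b2, b3⟩ := Expand_coef h.hr
    have h0 := tt_nonneg h (L + 1)
    have e1 : ∑ i ∈ range (L + 1), YY var blk r k i
        = ((k : ℝ) - 2) / ((k : ℝ) - 1) * ∑ i ∈ range L, tt var blk r k (i + 1)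
          + 1 / ((k : ℝ) - 1) * ∑ i ∈ range L, ZZ var blk r k i := by
      rw [sum_range_succ', YY_zero, add_zero, mul_sum, mul_sum, ← sum_add_distrib]
      exact sum_congr rfl fun i _ => YY_succ h i
    have e2 : ∑ i ∈ range (L + 1), ZZ var blk r k i
        = ((r : ℝ) - 2) / ((r : ℝ) - 1) * ∑ i ∈ range L, tt var blk r k (i + 1)
          + 1 / ((r : ℝ) - 1) * ∑ i ∈ range L, YY var blk r k i := by
      rw [sum_range_succ', ZZ_zero, add_zero, mul_sum, mul_sum, ← sum_add_distrib]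
      exact sum_congr rfl fun i _ => ZZ_succ h i
    rw [e1, e2, sum_range_succ]
    constructor
    · calc _ ≤ ((k : ℝ) - 2) / ((k : ℝ) - 1) * ∑ i ∈ range L, tt var blk r k (i + 1)
            + 1 / ((k : ℝ) - 1) * ∑ i ∈ range L, tt var blk r k (i + 1) :=
            add_le_add le_rfl (mul_le_mul_of_nonneg_left h2 a2)
        _ = ∑ i ∈ range L, tt var blk r k (i + 1) := by rw [← add_mul, a3, one_mul]
        _ ≤ _ := by linarith
    · calc _ ≤ ((r : ℝ) - 2) / ((r : ℝ) - 1) * ∑ i ∈ range L, tt var blk r k (i + 1)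
            + 1 / ((r : ℝ) - 1) * ∑ i ∈ range L, tt var blk r k (i + 1) :=
            add_le_add le_rfl (mul_le_mul_of_nonneg_left h1 b2)
        _ = ∑ i ∈ range L, tt var blk r k (i + 1) := by rw [← add_mul, b3, one_mul]
        _ ≤ _ := by linarith

theorem trace_Th_succ (h : IsD var blk r k) (j : ℕ) : (Th var blk r k (j + 1)).trace =
    (((r : ℝ) - 1) / r) * tt var blk r k (j + 1) + (1 / (r : ℝ)) * YY var blk r k j := by
  have e1 : (inc var * ((AA var blk r k) ^ j * cw blk k) * (inc var)ᵀ).trace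
      = ((r : ℝ) - 1) * tt var blk r k (j + 1) + YY var blk r k j := by
    rw [Matrix.trace_mul_comm, ← Matrix.mul_assoc, transpose_mul_inc h.hr, Matrix.trace_mul_comm,
      mul_add, mul_one, Matrix.trace_add, Matrix.mul_smul, Matrix.trace_smul, smul_eq_mul,
      mul_assoc]
    rfl
  have e2 : (Th var blk r k (j + 1)).trace = (r : ℝ)⁻¹ *
      (inc var * ((AA var blk r k) ^ j * cw blk k) * (inc var)ᵀ).trace := by
    unfold Th
    rw [Matrix.trace_smul, smul_eq_mul]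
  rw [e2, e1]
  ring

theorem aa_eq (h : IsD var blk r k) (s : ℕ) : aa var blk r k s =
    Fintype.card V * xs r k s 0 + ∑ j ∈ range s, xs r k s (j + 1) *
      ((((r : ℝ) - 1) / r) * tt var blk r k (j + 1) + (1 / (r : ℝ)) * YY var blk r k j) := by
  unfold aa
  rw [MM_pow h s, sum_range_succ', Matrix.trace_add, Matrix.trace_sum, add_comm]
  congr 1
  · rw [Matrix.trace_smul]
    have : Th var blk r k 0 = 1 := rfl
    rw [this, Matrix.trace_one, smul_eq_mul, mul_comm]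
  · refine sum_congr rfl fun j _ => ?_
    rw [Matrix.trace_smul, smul_eq_mul, trace_Th_succ h]

private theorem Expand_rcoef {r : ℕ} (hr : 2 ≤ r) : 0 ≤ ((r : ℝ) - 1) / r ∧ 0 ≤ 1 / (r : ℝ) ∧
    ((r : ℝ) - 1) / r + 1 / (r : ℝ) = 1 := by
  have h : (2 : ℝ) ≤ r := by exact_mod_cast hr
  refine ⟨div_nonneg (by linarith) (by linarith), div_nonneg zero_le_one (by linarith), ?_⟩
  rw [← add_div, sub_add_cancel, div_self (by linarith)]

/-- the lower bound valid for all designs -/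
theorem aa_ge (h : IsD var blk r k) (s : ℕ) :
    Fintype.card V * xs r k s 0 ≤ aa var blk r k s := by
  rw [aa_eq h s]
  obtain ⟨a1, a2, -⟩ := Expand_rcoef h.hr
  refine le_add_of_nonneg_right (sum_nonneg fun j _ => ?_)
  exact mul_nonneg (xs_nonneg h.hr h.hk s (j + 1))
    (add_nonneg (mul_nonneg a1 (tt_nonneg h _)) (mul_nonneg a2 (YY_nonneg h _)))

/-- the upper bound -/
theorem aa_le (h : IsD var blk r k) (s : ℕ) {T : ℝ} (hT : 0 ≤ T)
    (ht : ∀ i, 1 ≤ i → i ≤ s → tt var blk r k i ≤ T) :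
    aa var blk r k s ≤ Fintype.card V * xs r k s 0 + T := by
  rw [aa_eq h s]
  obtain ⟨a1, a2, a3⟩ := Expand_rcoef h.hr
  refine add_le_add le_rfl ?_
  have h1 : ∑ j ∈ range s, xs r k s (j + 1) *
      ((((r : ℝ) - 1) / r) * tt var blk r k (j + 1) + (1 / (r : ℝ)) * YY var blk r k j)
      ≤ ∑ j ∈ range s, xs r k s (j + 1) * T := by
    refine sum_le_sum fun j hj => ?_
    have hj' := mem_range.1 hj
    refine mul_le_mul_of_nonneg_left ?_ (xs_nonneg h.hr h.hk s (j + 1))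
    have h2 := (YZ_le h hT j fun i hi hij => ht i hi (by omega)).1
    have h3 := ht (j + 1) (by omega) (by omega)
    calc _ ≤ ((r : ℝ) - 1) / r * T + 1 / (r : ℝ) * T :=
          add_le_add (mul_le_mul_of_nonneg_left h3 a1) (mul_le_mul_of_nonneg_left h2 a2)
      _ = T := by rw [← add_mul, a3, one_mul]
  refine h1.trans ?_
  rw [← sum_mul]
  have h4 := xs_sum h.hr h.hk s
  rw [sum_range_succ'] at h4
  have h5 := xs_nonneg h.hr h.hk s 0
  have h6 : ∑ j ∈ range s, xs r k s (j + 1) ≤ 1 := by linarith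
  calc _ ≤ 1 * T := mul_le_mul_of_nonneg_right h6 hT
    _ = T := one_mul T

end Pool.Agent.Lib.MP_a7e07e_co.Sp
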