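import Pool.Agent.Lib.MP_a7e07e_co.Sp.Chain

set_option autoImplicit false

/-! # The radial chain visits every point -/

namespace Pool.Agent.Lib.MP_a7e07e_co.Sp

open Matrix Finset

variable {r k : ℕ}

/-- the generator of the chain -/
noncomputable def Visit_gen (r k : ℕ) (φ : ℕ → ℝ) : ℕ → ℝ
  | 0 => 1 / (k : ℝ) * φ 0 + ((k : ℝ) - 1) / k * φ 1
  | i + 1 => dn r k * φ i + st r k * φ (i + 1) + up r k * φ (i + 2)

theorem Visit_step (φ : ℕ → ℝ) (s : ℕ) :
    ∑ j ∈ range (s + 2), φ j * xs r k (s + 1) j
      = ∑ j ∈ range (s + 1), Visit_gen r k φ j * xs r k s j := by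
  have z1 : xs r k s (s + 1) = 0 := xs_eq_zero s (s + 1) (by omega)
  have z2 : xs r k s (s + 2) = 0 := xs_eq_zero s (s + 2) (by omega)
  have hdn : φ 0 * xs r k s 1 + φ 1 * xs r k s 2 + ∑ j ∈ range s, φ (j + 2) * xs r k s (j + 3)
      = ∑ j ∈ range s, φ j * xs r k s (j + 1) := by
    have h1 : ∑ j ∈ range (s + 2), φ j * xs r k s (j + 1)
        = ∑ j ∈ range s, φ j * xs r k s (j + 1) := by
      rw [sum_range_succ, sum_range_succ, z1, z2]
      ring
    rw [← h1, sum_range_succ', sum_range_succ']
    ring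
  have hst : φ 1 * xs r k s 1 + ∑ j ∈ range s, φ (j + 2) * xs r k s (j + 2)
      = ∑ j ∈ range s, φ (j + 1) * xs r k s (j + 1) := by
    have h1 : ∑ j ∈ range (s + 1), φ (j + 1) * xs r k s (j + 1)
        = ∑ j ∈ range s, φ (j + 1) * xs r k s (j + 1) := by
      rw [sum_range_succ, z1]
      ring
    rw [← h1, sum_range_succ']
    ring
  rw [sum_range_succ', sum_range_succ', sum_range_succ' _ s]
  simp only [xs, Visit_gen, zero_add]
  have e1 : ∑ j ∈ range s, φ (j + 1 + 1) * (up r k * xs r k s (j + 1) + st r k * xs r k s (j + 2)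
      + dn r k * xs r k s (j + 3))
      = up r k * ∑ j ∈ range s, φ (j + 2) * xs r k s (j + 1)
        + st r k * ∑ j ∈ range s, φ (j + 2) * xs r k s (j + 2)
        + dn r k * ∑ j ∈ range s, φ (j + 2) * xs r k s (j + 3) := by
    rw [mul_sum, mul_sum, mul_sum, ← sum_add_distrib, ← sum_add_distrib]
    exact sum_congr rfl fun j _ => by ring
  have e2 : ∑ j ∈ range s, (dn r k * φ j + st r k * φ (j + 1) + up r k * φ (j + 2))
      * xs r k s (j + 1)
      = up r k * ∑ j ∈ range s, φ (j + 2) * xs r k s (j + 1)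
        + st r k * ∑ j ∈ range s, φ (j + 1) * xs r k s (j + 1)
        + dn r k * ∑ j ∈ range s, φ j * xs r k s (j + 1) := by
    rw [mul_sum, mul_sum, mul_sum, ← sum_add_distrib, ← sum_add_distrib]
    exact sum_congr rfl fun j _ => by ring
  rw [e1, e2, ← hdn, ← hst]
  ring

theorem Visit_one (hr : 2 ≤ r) (hk : 2 ≤ k) : dn r k + st r k + up r k = 1 := by
  have hr' : (0 : ℝ) < r := by exact_mod_cast (by omega : 0 < r)
  have hk' : (0 : ℝ) < k := by exact_mod_cast (by omega : 0 < k)
  unfold dn st up
  field_simp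
  ring

theorem Visit_nonneg (hr : 2 ≤ r) (hk : 2 ≤ k) : 0 ≤ dn r k ∧ 0 ≤ st r k ∧ 0 ≤ up r k := by
  have hr' : (2 : ℝ) ≤ r := by exact_mod_cast hr
  have hk' : (2 : ℝ) ≤ k := by exact_mod_cast hk
  refine ⟨?_, ?_, ?_⟩
  · unfold dn
    positivity
  · unfold st
    exact div_nonneg (by linarith) (by positivity)
  · unfold up
    exact div_nonneg (mul_nonneg (by linarith) (by linarith)) (by positivity)

theorem Visit_drift (hr : 2 ≤ r) (hk : 2 ≤ k) (hrk : 5 ≤ r + k) :
    (1 / 6 : ℝ) ≤ up r k - dn r k := by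
  have hr' : (2 : ℝ) ≤ r := by exact_mod_cast hr
  have hk' : (2 : ℝ) ≤ k := by exact_mod_cast hk
  have hpos : (0 : ℝ) < (r : ℝ) * k := by positivity
  unfold up dn
  rw [← sub_div, div_le_div_iff₀ (by norm_num) hpos]
  rcases (by omega : 3 ≤ r ∨ 3 ≤ k) with h | h
  · have h' : (3 : ℝ) ≤ r := by exact_mod_cast h
    nlinarith
  · have h' : (3 : ℝ) ≤ k := by exact_mod_cast h
    nlinarith

/-- the mean distance grows at least by `1/6` in each step -/
theorem mean_ge (hr : 2 ≤ r) (hk : 2 ≤ k) (hrk : 5 ≤ r + k) (s : ℕ) :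
    (s : ℝ) / 6 ≤ ∑ j ∈ range (s + 1), (j : ℝ) * xs r k s j := by
  induction s with
  | zero => simp
  | succ s ih =>
    rw [Visit_step (fun j => (j : ℝ)) s]
    have h1 : ∑ j ∈ range (s + 1), ((j : ℝ) * xs r k s j + 1 / 6 * xs r k s j)
        ≤ ∑ j ∈ range (s + 1), Visit_gen r k (fun j => (j : ℝ)) j * xs r k s j := by
      refine sum_le_sum fun j _ => ?_
      have h2 := xs_nonneg hr hk s j
      rw [← add_mul]
      refine mul_le_mul_of_nonneg_right ?_ h2
      rcases j with _ | j
      · simp only [Visit_gen]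
        have hk' : (2 : ℝ) ≤ k := by exact_mod_cast hk
        have : (1 / 6 : ℝ) ≤ ((k : ℝ) - 1) / k := by
          rw [div_le_div_iff₀ (by norm_num) (by linarith)]
          linarith
        push_cast
        linarith
      · simp only [Visit_gen]
        have h3 := Visit_one hr hk
        have h4 := Visit_drift hr hk hrk
        push_cast
        have h5 : dn r k * (j : ℝ) + st r k * ((j : ℝ) + 1) + up r k * ((j : ℝ) + 2)
            = (dn r k + st r k + up r k) * ((j : ℝ) + 1) + (up r k - dn r k) := by ring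
        rw [h5, h3]
        linarith
    refine le_trans ?_ h1
    rw [sum_add_distrib, ← mul_sum, xs_sum hr hk s]
    push_cast
    linarith

/-- to get beyond `j` one has to visit `j` -/
theorem beyond_le (hr : 2 ≤ r) (hk : 2 ≤ k) (S j : ℕ) :
    ∑ i ∈ range (S + 1) with j < i, xs r k S i ≤ ∑ s ∈ range S, xs r k s j := by
  induction S with
  | zero =>
    rw [sum_filter, zero_add, sum_range_one, if_neg (by omega)]
    simp
  | succ S ih =>
    rw [sum_range_succ]
    have h0 : ∀ s, ∑ i ∈ range (s + 1) with j < i, xs r k s i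
        = ∑ i ∈ range (s + 1), (fun i => if j < i then (1 : ℝ) else 0) i * xs r k s i := by
      intro s
      rw [sum_filter]
      exact sum_congr rfl fun i _ => by
        by_cases h : j < i <;> simp [h]
    rw [h0 (S + 1), Visit_step]
    obtain ⟨hd, hs, hu⟩ := Visit_nonneg hr hk
    have h1 := Visit_one hr hk
    have hk' : (2 : ℝ) ≤ k := by exact_mod_cast hk
    have h2 : ∀ i, Visit_gen r k (fun i => if j < i then (1 : ℝ) else 0) i
        ≤ (if j < i then (1 : ℝ) else 0) + (if i = j then 1 else 0) := by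
      intro i
      rcases i with _ | i
      · simp only [Visit_gen]
        have h3 : ((k : ℝ) - 1) / k ≤ 1 := by
          rw [div_le_one (by linarith)]
          linarith
        by_cases hj : j = 0
        · subst hj
          simpa using h3
        · have : ¬ j < 1 := by omega
          have h4 : ¬ (0 = j) := fun h => hj h.symm
          simp [this, h4]
      · simp only [Visit_gen]
        rcases lt_trichotomy j (i + 1) with h | h | h
        · have e1 : j < i + 2 := by omega
          have e2 : ¬ (i + 1 = j) := by omega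
          rw [if_pos h, if_pos e1, if_neg e2]
          by_cases e3 : j < i
          · rw [if_pos e3]; linarith
          · rw [if_neg e3]; linarith
        · have e1 : j < i + 2 := by omega
          have e2 : ¬ j < i + 1 := by omega
          have e3 : ¬ j < i := by omega
          rw [if_pos e1, if_neg e2, if_neg e3, if_pos h.symm]
          linarith
        · have e1 : ¬ j < i + 2 := by omega
          have e2 : ¬ j < i + 1 := by omega
          have e3 : ¬ j < i := by omega
          have e4 : ¬ (i + 1 = j) := by omega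
          rw [if_neg e1, if_neg e2, if_neg e3, if_neg e4]
          linarith
    have h3 : ∑ i ∈ range (S + 1), Visit_gen r k (fun i => if j < i then (1 : ℝ) else 0) i
        * xs r k S i
        ≤ ∑ i ∈ range (S + 1), ((if j < i then (1 : ℝ) else 0) * xs r k S i
          + (if i = j then 1 else 0) * xs r k S i) := by
      refine sum_le_sum fun i _ => ?_
      rw [← add_mul]
      exact mul_le_mul_of_nonneg_right (h2 i) (xs_nonneg hr hk S i)
    refine h3.trans ?_
    rw [sum_add_distrib]
    have h4 : ∑ i ∈ range (S + 1), (if i = j then (1 : ℝ) else 0) * xs r k S i ≤ xs r k S j := by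
      have h5 : ∀ i, (if i = j then (1 : ℝ) else 0) * xs r k S i
          = if i = j then xs r k S j else 0 := by
        intro i
        by_cases h : i = j
        · subst h; simp
        · simp [h]
      simp only [h5]
      rw [sum_ite_eq']
      split_ifs
      · exact le_refl _
      · exact xs_nonneg hr hk S j
    have h6 := h0 S
    rw [h6] at ih
    linarith

theorem visit_ge (hr : 2 ≤ r) (hk : 2 ≤ k) (hrk : 5 ≤ r + k) {S j : ℕ} (hj : 1 ≤ j)
    (h : 12 * j ≤ S) : (1 / 12 : ℝ) ≤ ∑ s ∈ range S, xs r k s j := by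
  refine le_trans ?_ (beyond_le hr hk S j)
  have h1 := mean_ge hr hk hrk S
  have h2 : ∑ i ∈ range (S + 1), (i : ℝ) * xs r k S i
      ≤ ∑ i ∈ range (S + 1), ((j : ℝ) * xs r k S i
        + (S : ℝ) * (if j < i then xs r k S i else 0)) := by
    refine sum_le_sum fun i hi => ?_
    have h3 := xs_nonneg hr hk S i
    have h4 : (i : ℝ) ≤ S := by
      have := mem_range.1 hi
      exact_mod_cast (by omega : i ≤ S)
    have hj0 : (0 : ℝ) ≤ j := Nat.cast_nonneg j
    split_ifs with h5
    · nlinarith
    · have h6 : (i : ℝ) ≤ j := by exact_mod_cast (by omega : i ≤ j)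
      nlinarith
  rw [sum_add_distrib, ← mul_sum, ← mul_sum, xs_sum hr hk S, ← sum_filter] at h2
  have hS : (0 : ℝ) < S := by exact_mod_cast (by omega : 0 < S)
  have h7 : (12 : ℝ) * j ≤ S := by exact_mod_cast h
  have h8 : (S : ℝ) / 6 ≤ j + S * ∑ i ∈ range (S + 1) with j < i, xs r k S i := by linarith
  by_contra hlt
  rw [not_le] at hlt
  have h9 := mul_lt_mul_of_pos_left hlt hS
  linarith

end Pool.Agent.Lib.MP_a7e07e_co.Sp
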