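import Pool.Agent.Lib.MP_a7e07e_co.Sp.Expand
import Pool.Agent.Lib.MP_a7e07e_co.Sp.Visit
import Pool.Agent.Lib.MP_a7e07e_co.Sp.Spec
import Pool.Agent.Lib.MP_a7e07e_co.Sp.Tail

set_option autoImplicit false

/-! # A nearly optimal design has few short closed walks -/

namespace Pool.Agent.Lib.MP_a7e07e_co.Sp

open Matrix Finset

variable {P V B : Type} [Fintype P] [DecidableEq P] [Fintype V] [DecidableEq V] [Fintype B]
  [DecidableEq B] {var : P → V} {blk : P → B} {r k : ℕ}

theorem Upper_aa_zero : aa var blk r k 0 = Fintype.card V := by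
  simp [aa, Matrix.trace_one]

theorem sum_aa_le (h : IsD var blk r k) (hdet : (XX var blk r k).det ≠ 0) (S : ℕ) :
    ∑ s ∈ range S, (aa var blk r k s - 1) ≤ ff var blk r k - 1 := by
  obtain ⟨β, h0, _, h2, h3, h4, _⟩ := exists_spec h
  have hlt : ∀ i, β i < 1 := h3.mpr hdet
  have hff := h4 hlt
  have hV : 0 < Fintype.card V := by
    obtain ⟨x⟩ := h.ne
    exact Fintype.card_pos_iff.mpr ⟨var x⟩
  have hV1 : (1 : ℝ) ≤ Fintype.card V := by exact_mod_cast hV
  rcases Nat.eq_zero_or_pos S with rfl | hS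
  · have h5 := sum_pow_le h0 hlt 1
    simp only [sum_range_one, pow_zero, sum_const, card_univ, nsmul_eq_mul, mul_one] at h5
    simp only [range_zero, sum_empty]
    rw [hff]
    linarith
  · have h5 := sum_pow_le h0 hlt S
    obtain ⟨T, rfl⟩ : ∃ T, S = T + 1 := ⟨S - 1, by omega⟩
    rw [sum_range_succ'] at h5 ⊢
    have h6 : ∑ s ∈ range T, (aa var blk r k (s + 1) - 1) = ∑ s ∈ range T, ∑ i, β i ^ (s + 1) :=
      sum_congr rfl fun s _ => (h2 (s + 1) (by omega)).symm
    rw [h6, Upper_aa_zero, hff]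
    simp only [pow_zero, sum_const, card_univ, nsmul_eq_mul, mul_one] at h5
    linarith

theorem sum_tt_le (h : IsD var blk r k) (hdet : (XX var blk r k).det ≠ 0) {η : ℝ} (hη : 0 ≤ η)
    {Sa Sb J : ℕ} (hf : ff var blk r k ≤ Fintype.card V * WW r k Sb + η)
    (hSa : 36 * (Fintype.card V : ℝ) * (35 / 36 : ℝ) ^ Sa ≤ 1) (hJ : Sa ≤ 12 * J) :
    ∑ j ∈ range J, tt var blk r k (j + 1) ≤ 24 * (η + 12 * J + 2) := by
  have h1 := sum_aa_le h hdet (12 * J)
  have hr0 : (2 : ℝ) ≤ r := by exact_mod_cast h.hr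
  have hWW := WW_le h.hr h.hk h.hrk (T := Sb) hJ
  have hV0 : (0 : ℝ) ≤ Fintype.card V := Nat.cast_nonneg _
  have h2 : (Fintype.card V : ℝ) * WW r k Sb ≤ Fintype.card V * WW r k (12 * J) + 1 := by
    have := mul_le_mul_of_nonneg_left hWW hV0
    nlinarith
  have h3 : ∑ s ∈ range (12 * J), (aa var blk r k s - Fintype.card V * xs r k s 0) ≤
      η + 12 * J := by
    have h4 : ∑ s ∈ range (12 * J), (aa var blk r k s - Fintype.card V * xs r k s 0) =
        ∑ s ∈ range (12 * J), (aa var blk r k s - 1) + 12 * J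
          - Fintype.card V * WW r k (12 * J) := by
      rw [sum_sub_distrib, sum_sub_distrib, WW, mul_sum]
      simp
    rw [h4]
    linarith
  have h5 : ∀ s, ∑ j ∈ range J, xs r k s (j + 1) * (1 / 2 * tt var blk r k (j + 1)) ≤
      aa var blk r k s - Fintype.card V * xs r k s 0 := by
    intro s
    rw [aa_eq h s, add_sub_cancel_left]
    have h6 : ∑ j ∈ range J, xs r k s (j + 1) * (1 / 2 * tt var blk r k (j + 1)) =
        ∑ j ∈ (range J).filter (fun j => j < s),
          xs r k s (j + 1) * (1 / 2 * tt var blk r k (j + 1)) := by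
      rw [sum_filter_of_ne]
      intro j _ hne
      by_contra hjs
      exact hne (by rw [xs_eq_zero s (j + 1) (by omega), zero_mul])
    rw [h6]
    have hterm : ∀ j, 0 ≤ xs r k s (j + 1) *
        ((((r : ℝ) - 1) / r) * tt var blk r k (j + 1) + (1 / (r : ℝ)) * YY var blk r k j) := by
      intro j
      have e1 : (0 : ℝ) ≤ ((r : ℝ) - 1) / r := div_nonneg (by linarith) (by linarith)
      have e2 : (0 : ℝ) ≤ 1 / (r : ℝ) := by positivity
      exact mul_nonneg (xs_nonneg h.hr h.hk _ _)
        (add_nonneg (mul_nonneg e1 (tt_nonneg h _)) (mul_nonneg e2 (YY_nonneg h _)))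
    calc ∑ j ∈ (range J).filter (fun j => j < s),
          xs r k s (j + 1) * (1 / 2 * tt var blk r k (j + 1))
        ≤ ∑ j ∈ (range J).filter (fun j => j < s), xs r k s (j + 1) *
            ((((r : ℝ) - 1) / r) * tt var blk r k (j + 1) + (1 / (r : ℝ)) * YY var blk r k j) := by
          apply sum_le_sum
          intro j _
          apply mul_le_mul_of_nonneg_left _ (xs_nonneg h.hr h.hk _ _)
          have e1 : (1 : ℝ) / 2 ≤ ((r : ℝ) - 1) / r := by
            rw [div_le_div_iff₀ (by norm_num) (by linarith)]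
            linarith
          have e2 : (0 : ℝ) ≤ (1 / (r : ℝ)) * YY var blk r k j :=
            mul_nonneg (by positivity) (YY_nonneg h _)
          have e3 := mul_le_mul_of_nonneg_right e1 (tt_nonneg (var := var) (blk := blk) h (j + 1))
          linarith
      _ ≤ ∑ j ∈ range s, xs r k s (j + 1) *
            ((((r : ℝ) - 1) / r) * tt var blk r k (j + 1) + (1 / (r : ℝ)) * YY var blk r k j) := by
          apply sum_le_sum_of_subset_of_nonneg
          · intro j hj
            simp only [mem_filter, mem_range] at hj ⊢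
            exact hj.2
          · intro j _ _
            exact hterm j
  have h7 : ∑ j ∈ range J, (1 / 24 : ℝ) * tt var blk r k (j + 1) ≤ η + 12 * J := by
    calc ∑ j ∈ range J, (1 / 24 : ℝ) * tt var blk r k (j + 1)
        ≤ ∑ j ∈ range J, ∑ s ∈ range (12 * J),
            xs r k s (j + 1) * (1 / 2 * tt var blk r k (j + 1)) := by
          apply sum_le_sum
          intro j hj
          have hj' := mem_range.mp hj
          rw [← sum_mul]
          have h8 := visit_ge h.hr h.hk h.hrk (S := 12 * J) (j := j + 1) (by omega) (by omega)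
          have h9 := mul_le_mul_of_nonneg_right h8 (tt_nonneg (var := var) (blk := blk) h (j + 1))
          linarith
      _ = ∑ s ∈ range (12 * J), ∑ j ∈ range J,
            xs r k s (j + 1) * (1 / 2 * tt var blk r k (j + 1)) := sum_comm
      _ ≤ ∑ s ∈ range (12 * J), (aa var blk r k s - Fintype.card V * xs r k s 0) :=
          sum_le_sum fun s _ => h5 s
      _ ≤ η + 12 * J := h3
  rw [← mul_sum] at h7
  linarith

end Pool.Agent.Lib.MP_a7e07e_co.Sp
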