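import Pool.Agent.Lib.MP_a7e07e_co.Sp.SwapD
import Pool.Agent.Lib.MP_a7e07e_co.Sp.Upper

set_option autoImplicit false

/-! # A nearly optimal design with two equal plots can be improved -/

namespace Pool.Agent.Lib.MP_a7e07e_co.Sp

open Matrix Finset

variable {P V B : Type} [Fintype P] [DecidableEq P] [Fintype V] [DecidableEq V] [Fintype B]
  [DecidableEq B] {var : P → V} {blk : P → B} {r k : ℕ}

theorem Improve_aa_zero (var : P → V) (blk : P → B) (r k : ℕ) :
    aa var blk r k 0 = Fintype.card V := by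
  simp [aa, Matrix.trace_one]

theorem Improve_diff (h : IsD var blk r k) {x x1 e : P} (hx : x ≠ x1) (hv : var x = var x1)
    (hb : blk x = blk x1) (hxe : x ≠ e) {T L : ℕ} (hT : 1 ≤ T) (hTL : T ≤ L) :
    ∑ s ∈ range (T + 1), (aa (sw var x e) blk r k s - aa var blk r k s) ≤
      2 * (L : ℝ) ^ 2 * (Hit1 var blk r k x e L + Hit2 var blk r k x e L)
        - 2 / ((r : ℝ) * k) := by
  set H := Hit1 var blk r k x e L + Hit2 var blk r k x e L with hH
  have hH0 : 0 ≤ H := add_nonneg (Hit1_nonneg h x e L) (Hit2_nonneg h x e L)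
  rw [sum_range_succ', Improve_aa_zero, Improve_aa_zero, sub_self, add_zero]
  have h1 : ∀ s ∈ range T, aa (sw var x e) blk r k (s + 1) - aa var blk r k (s + 1) ≤
      2 * L * H - (if s = 0 then 2 / ((r : ℝ) * k) else 0) := by
    intro s hs
    have hs' := mem_range.1 hs
    have h2 := aa_sw_le h hx hv hb hxe (s := s + 1) (L := L) (by omega) (by omega)
    rw [← hH] at h2
    by_cases h0 : s = 0
    · simpa [h0] using h2
    · simpa [h0] using h2
  refine (sum_le_sum h1).trans ?_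
  rw [sum_sub_distrib, sum_const, card_range, nsmul_eq_mul, sum_ite_eq' (range T) 0,
    if_pos (mem_range.2 (by omega))]
  have h3 : (T : ℝ) ≤ L := by exact_mod_cast hTL
  have h4 : (T : ℝ) * (2 * L * H) ≤ L * (2 * L * H) :=
    mul_le_mul_of_nonneg_right h3 (by positivity)
  nlinarith [h4]

theorem improve (h : IsD var blk r k) (hdet : (XX var blk r k).det ≠ 0) {x x1 : P} (hx : x ≠ x1)
    (hv : var x = var x1) (hb : blk x = blk x1) {η : ℝ} (hη : 0 ≤ η) {Sa Sb S j L : ℕ}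
    (hf : ff var blk r k ≤ Fintype.card V * WW r k Sb + η)
    (hSa : 36 * (Fintype.card V : ℝ) * (35 / 36 : ℝ) ^ Sa ≤ 1)
    (hS1 : 1 ≤ S) (hS : 2 * (η + Sa + 2) + Sa + 1 ≤ S) (hL : L = j * S) (hj : 1 ≤ j)
    (hj2 : 8 * (r : ℝ) * k * S ≤ 2 ^ j)
    (hm : 16 * (r : ℝ) * k * L ^ 2 * (24 * (η + 12 * L + 2) + L) ≤ (Fintype.card P : ℝ) - 1) :
    ∃ e, (XX (sw var x e) blk r k).det ≠ 0 ∧ ff (sw var x e) blk r k < ff var blk r k := by
  have hr0 : (0 : ℝ) < r := by have := h.hr; exact_mod_cast (by omega : 0 < r)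
  have hk0 : (0 : ℝ) < k := by have := h.hk; exact_mod_cast (by omega : 0 < k)
  have hrk0 : (0 : ℝ) < (r : ℝ) * k := mul_pos hr0 hk0
  have hSaS : Sa + 5 ≤ S := by
    have h1 : ((Sa + 5 : ℕ) : ℝ) ≤ S := by
      push_cast
      have : (0 : ℝ) ≤ Sa := Nat.cast_nonneg _
      linarith
    exact_mod_cast h1
  have hSL : S ≤ L := by
    rw [hL]
    exact Nat.le_mul_of_pos_left S (by omega)
  have hL5 : 5 ≤ L := by omega
  have hL0 : (0 : ℝ) < L := by exact_mod_cast (by omega : 0 < L)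
  -- the number of varieties is positive
  obtain ⟨x0⟩ := h.ne
  have hv1 : 1 ≤ Fintype.card V := Fintype.card_pos_iff.2 ⟨var x0⟩
  have hv1' : (1 : ℝ) ≤ Fintype.card V := by exact_mod_cast hv1
  have hSa1 : 1 ≤ Sa := by
    by_contra hc
    have h0 : Sa = 0 := by omega
    rw [h0] at hSa
    norm_num at hSa
    linarith
  -- choice of `e`
  have hT := sum_tt_le h hdet hη hf hSa (J := L) (by omega)
  obtain ⟨e, hex, hH⟩ := exists_plot h x L
  have hxe : x ≠ e := fun hc => hex hc.symm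
  set H := Hit1 var blk r k x e L + Hit2 var blk r k x e L with hHdef
  have hH0 : 0 ≤ H := add_nonneg (Hit1_nonneg h x e L) (Hit2_nonneg h x e L)
  set W : ℝ := 24 * (η + 12 * L + 2) + L with hW
  have hW0 : 0 < W := by positivity
  have hm0 : (0 : ℝ) < (Fintype.card P : ℝ) - 1 := lt_of_lt_of_le (by positivity) hm
  have hHle : 2 * (L : ℝ) ^ 2 * H ≤ 1 / (2 * ((r : ℝ) * k)) := by
    have h1 : H ≤ 4 / ((Fintype.card P : ℝ) - 1) * W := by
      refine hH.trans (mul_le_mul_of_nonneg_left ?_ (by positivity))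
      rw [hW]
      linarith
    have h2 : 2 * (L : ℝ) ^ 2 * H * (2 * ((r : ℝ) * k)) ≤
        (16 * (r : ℝ) * k * L ^ 2 * W) / ((Fintype.card P : ℝ) - 1) := by
      calc 2 * (L : ℝ) ^ 2 * H * (2 * ((r : ℝ) * k))
          = (4 * (L : ℝ) ^ 2 * ((r : ℝ) * k)) * H := by ring
        _ ≤ (4 * (L : ℝ) ^ 2 * ((r : ℝ) * k)) * (4 / ((Fintype.card P : ℝ) - 1) * W) :=
            mul_le_mul_of_nonneg_left h1 (by positivity)
        _ = _ := by ring
    have h3 : (16 * (r : ℝ) * k * L ^ 2 * W) / ((Fintype.card P : ℝ) - 1) ≤ 1 := by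
      rw [div_le_one hm0]
      exact hm
    rw [le_div_iff₀ (by positivity)]
    exact h2.trans h3
  have hD := fun (T : ℕ) (hT1 : 1 ≤ T) (hTL : T ≤ L) => Improve_diff h hx hv hb hxe hT1 hTL
  rw [← hHdef] at hD
  have hcc : 1 / (2 * ((r : ℝ) * k)) = (1 / 2) * (1 / ((r : ℝ) * k)) := by
    field_simp
  have hcd : 2 / ((r : ℝ) * k) = 2 * (1 / ((r : ℝ) * k)) := by ring
  have hcp : 0 < 1 / ((r : ℝ) * k) := by positivity
  have h' : IsD (sw var x e) blk r k := h.sw x e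
  -- spectra
  obtain ⟨β, hβ0, hβ1, hβs, hβd, hβf, -⟩ := exists_spec h
  obtain ⟨β', hβ0', hβ1', hβs', hβd', hβf', -⟩ := exists_spec h'
  have hβlt := hβd.2 hdet
  -- (i)
  have hi1 : ∑ s ∈ range (S + 1), (aa (sw var x e) blk r k s - 1) ≤
      Fintype.card V * WW r k Sa + η := by
    have h1 := hD S hS1 hSL
    have h2 := sum_aa_le h hdet (S + 1)
    have h3 : ∑ s ∈ range (S + 1), (aa (sw var x e) blk r k s - 1) =
        ∑ s ∈ range (S + 1), (aa (sw var x e) blk r k s - aa var blk r k s) +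
        ∑ s ∈ range (S + 1), (aa var blk r k s - 1) := by
      rw [← sum_add_distrib]
      exact sum_congr rfl fun s _ => by ring
    have h4 := WW_le h.hr h.hk h.hrk (Sa := Sa) (S := Sa) (T := Sb) le_rfl
    have h5 : (Fintype.card V : ℝ) * WW r k Sb ≤
        Fintype.card V * (WW r k Sa + 36 * (35 / 36 : ℝ) ^ Sa) :=
      mul_le_mul_of_nonneg_left h4 (by positivity)
    rw [h3]
    nlinarith [h1, h2, h5, hf, hSa, hHle]
  have hi2 : Fintype.card V * WW r k Sa - Sa ≤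
      ∑ s ∈ range Sa, (aa (sw var x e) blk r k s - 1) := by
    have h1 : Fintype.card V * WW r k Sa - Sa =
        ∑ s ∈ range Sa, (Fintype.card V * xs r k s 0 - 1) := by
      rw [sum_sub_distrib, ← mul_sum, WW]
      simp
    rw [h1]
    exact sum_le_sum fun s _ => by linarith [aa_ge h' s]
  have hi3 : ∑ s ∈ Ico Sa (S + 1), (aa (sw var x e) blk r k s - 1) ≤ η + Sa := by
    have h1 := sum_range_add_sum_Ico (fun s => aa (sw var x e) blk r k s - 1)
      (show Sa ≤ S + 1 by omega)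
    linarith
  have hi4 : ∑ i, β' i ^ S ≤ 1 / 2 := by
    by_contra hc
    push Not at hc
    have h1 : ∀ s ∈ Ico Sa (S + 1), (1 / 2 : ℝ) ≤ aa (sw var x e) blk r k s - 1 := by
      intro s hs
      rw [mem_Ico] at hs
      rw [← hβs' s (by omega)]
      exact hc.le.trans (pow_anti hβ0' hβ1' (by omega))
    have h2 : ∑ s ∈ Ico Sa (S + 1), (1 / 2 : ℝ) ≤ η + Sa := (sum_le_sum h1).trans hi3
    rw [sum_const, Nat.card_Ico, nsmul_eq_mul, Nat.cast_sub (by omega)] at h2
    push_cast at h2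
    linarith
  -- (ii)
  have hlt' : ∀ i, β' i < 1 := fun i => lt_one_of_half hβ0' hβ1' hS1 hi4 i
  refine ⟨e, hβd'.1 hlt', ?_⟩
  rw [hβf' hlt', hβf hβlt]
  have h1 := sum_inv_le hβ0' hβ1' hS1 hi4 j hj
  have h2 := sum_pow_le hβ0 hβlt L
  rw [← hL] at h1
  have h3 : ∑ s ∈ range L, ∑ i, β' i ^ s - ∑ s ∈ range L, ∑ i, β i ^ s ≤
      1 / (2 * ((r : ℝ) * k)) - 2 / ((r : ℝ) * k) := by
    obtain ⟨T, rfl⟩ : ∃ T, L = T + 1 := ⟨L - 1, by omega⟩
    have h4 := hD T (by omega) (by omega)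
    rw [← sum_sub_distrib]
    have h5 : ∑ s ∈ range (T + 1), (∑ i, β' i ^ s - ∑ i, β i ^ s) =
        ∑ s ∈ range (T + 1), (aa (sw var x e) blk r k s - aa var blk r k s) := by
      refine sum_congr rfl fun s _ => ?_
      rcases Nat.eq_zero_or_pos s with h0 | h0
      · subst h0
        rw [Improve_aa_zero, Improve_aa_zero]
        simp
      · rw [hβs' s h0, hβs s h0]
        ring
    rw [h5]
    linarith
  have h6 : 2 * (S : ℝ) * (1 / 2 : ℝ) ^ j ≤ (1 / 4) * (1 / ((r : ℝ) * k)) := by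
    have h7 : (1 / 2 : ℝ) ^ j = 1 / 2 ^ j := by
      rw [div_pow, one_pow]
    rw [h7, mul_one_div, div_le_iff₀ (by positivity)]
    have h8 : 2 * (S : ℝ) = (1 / 4) * (1 / ((r : ℝ) * k)) * (8 * (r : ℝ) * k * S) := by
      field_simp
      ring
    rw [h8]
    exact mul_le_mul_of_nonneg_left hj2 (by positivity)
  linarith

end Pool.Agent.Lib.MP_a7e07e_co.Sp
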