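import Pool.Agent.Lib.MP_a7e07e_co.Sp.Defs

set_option autoImplicit false

/-! # Elementary identities for one partition -/

namespace Pool.Agent.Lib.MP_a7e07e_co.Sp

open Matrix Finset

variable {P C : Type} [Fintype P] [DecidableEq P] [Fintype C] [DecidableEq C] {c : P → C} {n : ℕ}

theorem cw_transpose (c : P → C) (n : ℕ) : (cw c n)ᵀ = cw c n := by
  ext x y
  show cw c n y x = cw c n x y
  unfold cw
  refine if_congr ?_ rfl rfl
  exact and_congr ne_comm eq_comm

theorem cw_diag (c : P → C) (n : ℕ) (x : P) : cw c n x x = 0 := by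
  simp [cw]

private theorem Mat_pos (hn : 2 ≤ n) : (0 : ℝ) < (n : ℝ) - 1 := by
  have : (2 : ℝ) ≤ n := by exact_mod_cast hn
  linarith

theorem cw_nonneg (hn : 2 ≤ n) (x y : P) : 0 ≤ cw c n x y := by
  unfold cw
  split_ifs
  · exact inv_nonneg.2 (Mat_pos hn).le
  · exact le_rfl

theorem cw_row (h : Unif c n) (hn : 2 ≤ n) (x : P) : ∑ y, cw c n x y = 1 := by
  unfold cw
  rw [← Finset.sum_filter, Finset.sum_const, nsmul_eq_mul]
  have e : (univ.filter fun y => x ≠ y ∧ c x = c y) =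
      (univ.filter fun y => c y = c x).erase x := by
    ext y
    simp only [Finset.mem_filter, Finset.mem_univ, true_and, Finset.mem_erase]
    exact and_congr ne_comm eq_comm
  rw [e, Finset.card_erase_of_mem (by simp), h (c x), Nat.cast_sub (by omega), Nat.cast_one]
  exact mul_inv_cancel₀ (Mat_pos hn).ne'

theorem Mat_inc_mul_transpose (h : Unif c n) : inc c * (inc c)ᵀ = (n : ℝ) • 1 := by
  ext i j
  rw [Matrix.mul_apply, Matrix.smul_apply, Matrix.one_apply, smul_eq_mul]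
  simp only [Matrix.transpose_apply, inc]
  by_cases hij : i = j
  · subst hij
    rw [if_pos rfl, mul_one, ← h i, Finset.card_filter, Nat.cast_sum]
    refine Finset.sum_congr rfl fun x _ => ?_
    split_ifs <;> simp
  · rw [if_neg hij, mul_zero]
    refine Finset.sum_eq_zero fun x _ => ?_
    by_cases h1 : c x = i
    · rw [if_neg (fun h2 => hij (h1.symm.trans h2)), mul_zero]
    · rw [if_neg h1, zero_mul]

theorem Mat_transpose_mul_inc (hn : 2 ≤ n) :
    (inc c)ᵀ * inc c = ((n : ℝ) - 1) • cw c n + 1 := by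
  ext x y
  rw [Matrix.mul_apply, Matrix.add_apply, Matrix.smul_apply, Matrix.one_apply, smul_eq_mul]
  simp only [Matrix.transpose_apply, inc, cw]
  have h1 : ∑ i, (if c x = i then (1 : ℝ) else 0) * (if c y = i then 1 else 0) =
      if c y = c x then 1 else 0 := by
    rw [Finset.sum_eq_single (c x)]
    · rw [if_pos rfl, one_mul]
    · intro i _ hi
      rw [if_neg hi.symm, zero_mul]
    · intro hi
      exact absurd (Finset.mem_univ _) hi
  rw [h1]
  by_cases hxy : x = y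
  · subst hxy
    simp
  · rw [if_neg hxy, add_zero]
    by_cases hc : c x = c y
    · rw [if_pos hc.symm, if_pos ⟨hxy, hc⟩, mul_inv_cancel₀ (Mat_pos hn).ne']
    · rw [if_neg (fun h2 => hc h2.symm), if_neg (fun h2 => hc h2.2), mul_zero]

private theorem Mat_cw (hn : 2 ≤ n) :
    cw c n = ((n : ℝ) - 1)⁻¹ • ((inc c)ᵀ * inc c - 1) := by
  rw [Mat_transpose_mul_inc hn, add_sub_cancel_right, smul_smul,
    inv_mul_cancel₀ (Mat_pos hn).ne', one_smul]

theorem cw_sq (h : Unif c n) (hn : 2 ≤ n) :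
    cw c n * cw c n = (((n : ℝ) - 2) / ((n : ℝ) - 1)) • cw c n + (1 / ((n : ℝ) - 1)) • 1 := by
  have ha : (n : ℝ) - 1 ≠ 0 := (Mat_pos hn).ne'
  have hT : ((inc c)ᵀ * inc c) * ((inc c)ᵀ * inc c) = (n : ℝ) • ((inc c)ᵀ * inc c) := by
    rw [Matrix.mul_assoc, ← Matrix.mul_assoc (inc c), Mat_inc_mul_transpose h, Matrix.smul_mul,
      Matrix.one_mul, Matrix.mul_smul]
  have h2 : cw c n * cw c n = (((n : ℝ) - 1)⁻¹ * ((n : ℝ) - 1)⁻¹) •
      (((inc c)ᵀ * inc c - 1) * ((inc c)ᵀ * inc c - 1)) := by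
    conv_lhs => rw [Mat_cw hn]
    rw [Matrix.smul_mul, Matrix.mul_smul, smul_smul]
  have h3 : ((inc c)ᵀ * inc c - 1) * ((inc c)ᵀ * inc c - 1) =
      (n : ℝ) • ((inc c)ᵀ * inc c) - (2 : ℝ) • ((inc c)ᵀ * inc c) + 1 := by
    rw [sub_mul, mul_sub, hT, Matrix.mul_one, Matrix.one_mul, two_smul]
    abel
  rw [h2, h3, Mat_transpose_mul_inc hn]
  match_scalars
  · field_simp
  · field_simp
    ring

theorem inc_mul_transpose (h : Unif c n) : inc c * (inc c)ᵀ = (n : ℝ) • 1 :=
  Mat_inc_mul_transpose h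

theorem transpose_mul_inc (hn : 2 ≤ n) : (inc c)ᵀ * inc c = ((n : ℝ) - 1) • cw c n + 1 :=
  Mat_transpose_mul_inc hn

theorem inc_mul_cw (h : Unif c n) (hn : 2 ≤ n) : inc c * cw c n = inc c := by
  have ha : (n : ℝ) - 1 ≠ 0 := (Mat_pos hn).ne'
  rw [Mat_cw hn, Matrix.mul_smul, Matrix.mul_sub, ← Matrix.mul_assoc, Mat_inc_mul_transpose h,
    Matrix.smul_mul, Matrix.one_mul, Matrix.mul_one]
  match_scalars
  field_simp

theorem cw_mul_inc (h : Unif c n) (hn : 2 ≤ n) : cw c n * (inc c)ᵀ = (inc c)ᵀ := by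
  have h1 := congrArg Matrix.transpose (inc_mul_cw h hn)
  rwa [Matrix.transpose_mul, cw_transpose] at h1

theorem card_eq (h : Unif c n) : Fintype.card P = Fintype.card C * n := by
  have h1 := Finset.card_eq_sum_card_fiberwise (f := c) (s := (univ : Finset P))
    (t := (univ : Finset C)) (fun x _ => Finset.mem_coe.2 (Finset.mem_univ _))
  rw [Finset.card_univ] at h1
  rw [h1, Finset.sum_congr rfl fun i _ => h i]
  simp

end Pool.Agent.Lib.MP_a7e07e_co.Sp
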