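import Mathlib

set_option autoImplicit false

/-! # Counting the bijections which extend a partial matching -/

namespace Pool.Agent.Lib.MP_a7e07e_co.Sp

open Finset

variable {P Q : Type} [Fintype P] [DecidableEq P] [Fintype Q] [DecidableEq Q]

/-- the bijections which extend the partial matching `L` -/
def Ext (L : Finset (P × Q)) : Finset (P ≃ Q) := univ.filter fun σ => ∀ p ∈ L, σ p.1 = p.2

/-- `L` is a partial matching: different pairs have different first and second components -/
def IsMatch (L : Finset (P × Q)) : Prop :=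
  ∀ p ∈ L, ∀ p' ∈ L, (p.1 = p'.1 ∨ p.2 = p'.2) → p = p'

theorem mem_Ext {L : Finset (P × Q)} {σ : P ≃ Q} : σ ∈ Ext L ↔ ∀ p ∈ L, σ p.1 = p.2 := by
  simp [Ext]

/-- a new pair can be added -/
theorem IsMatch.insert {L : Finset (P × Q)} (hL : IsMatch L) {a : P} {b : Q}
    (ha : a ∉ L.image Prod.fst) (hb : b ∉ L.image Prod.snd) : IsMatch (insert (a, b) L) := by
  intro p hp p' hp' h
  rw [mem_insert] at hp hp'
  have h1 : ∀ q ∈ L, q.1 ≠ a := fun q hq h => ha (mem_image.2 ⟨q, hq, h⟩)
  have h2 : ∀ q ∈ L, q.2 ≠ b := fun q hq h => hb (mem_image.2 ⟨q, hq, h⟩)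
  rcases hp with rfl | hp
  · rcases hp' with rfl | hp'
    · rfl
    · rcases h with h | h
      · exact absurd h.symm (h1 _ hp')
      · exact absurd h.symm (h2 _ hp')
  · rcases hp' with rfl | hp'
    · rcases h with h | h
      · exact absurd h (h1 _ hp)
      · exact absurd h (h2 _ hp)
    · exact hL p hp p' hp' h

theorem Match_mem_insert {L : Finset (P × Q)} {a : P} {b : Q} {σ : P ≃ Q} :
    σ ∈ Ext (insert (a, b) L) ↔ σ a = b ∧ σ ∈ Ext L := by
  rw [mem_Ext, mem_Ext]
  simp only [mem_insert, forall_eq_or_imp]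

/-- decomposition of `Ext L` by the partner of `a`: for a property `p` of bijections -/
theorem card_Ext_filter_left {L : Finset (P × Q)} {a : P} (ha : a ∉ L.image Prod.fst)
    (p : (P ≃ Q) → Prop) [DecidablePred p] :
    ((Ext L).filter p).card =
      ∑ b ∈ univ.filter (fun b => b ∉ L.image Prod.snd), ((Ext (insert (a, b) L)).filter p).card := by
  rw [card_eq_sum_card_fiberwise (f := fun σ : P ≃ Q => σ a)
    (t := univ.filter (fun b => b ∉ L.image Prod.snd))]
  · refine sum_congr rfl fun b _ => ?_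
    congr 1
    ext σ
    simp only [mem_filter, Match_mem_insert]
    tauto
  · intro σ hσ
    have hσ' := (mem_filter.1 (mem_coe.1 hσ)).1
    rw [mem_Ext] at hσ'
    simp only [coe_filter, mem_univ, true_and, Set.mem_setOf_eq]
    intro h
    obtain ⟨q, hq, h1⟩ := mem_image.1 h
    have h2 := hσ' q hq
    rw [h1] at h2
    exact ha (mem_image.2 ⟨q, hq, σ.injective h2⟩)

/-- decomposition of `Ext L` by the partner of `b` -/
theorem card_Ext_filter_right {L : Finset (P × Q)} {b : Q} (hb : b ∉ L.image Prod.snd)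
    (p : (P ≃ Q) → Prop) [DecidablePred p] :
    ((Ext L).filter p).card =
      ∑ a ∈ univ.filter (fun a => a ∉ L.image Prod.fst), ((Ext (insert (a, b) L)).filter p).card := by
  rw [card_eq_sum_card_fiberwise (f := fun σ : P ≃ Q => σ.symm b)
    (t := univ.filter (fun a => a ∉ L.image Prod.fst))]
  · refine sum_congr rfl fun a _ => ?_
    congr 1
    ext σ
    simp only [mem_filter, Match_mem_insert, Equiv.symm_apply_eq]
    constructor
    · rintro ⟨⟨h1, h2⟩, h3⟩
      exact ⟨⟨h3.symm, h1⟩, h2⟩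
    · rintro ⟨⟨h1, h2⟩, h3⟩
      exact ⟨⟨h2, h3⟩, h1.symm⟩
  · intro σ hσ
    have hσ' := (mem_filter.1 (mem_coe.1 hσ)).1
    rw [mem_Ext] at hσ'
    simp only [coe_filter, mem_univ, true_and, Set.mem_setOf_eq]
    intro h
    obtain ⟨q, hq, h1⟩ := mem_image.1 h
    have h2 := hσ' q hq
    rw [h1, Equiv.apply_symm_apply] at h2
    exact hb (mem_image.2 ⟨q, hq, h2.symm⟩)

/-- the partner of `a` may be changed -/
theorem Match_card_eq {L : Finset (P × Q)} {a : P} {b b' : Q} (hb : b ∉ L.image Prod.snd)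
    (hb' : b' ∉ L.image Prod.snd) :
    (Ext (insert (a, b) L)).card = (Ext (insert (a, b') L)).card := by
  have hfix : ∀ q ∈ L, Equiv.swap b b' q.2 = q.2 := by
    intro q hq
    apply Equiv.swap_apply_of_ne_of_ne
    · intro h
      exact hb (mem_image.2 ⟨q, hq, h⟩)
    · intro h
      exact hb' (mem_image.2 ⟨q, hq, h⟩)
  refine card_bij' (fun σ _ => σ.trans (Equiv.swap b b')) (fun σ _ => σ.trans (Equiv.swap b b'))
    ?_ ?_ ?_ ?_
  · intro σ hσ
    rw [Match_mem_insert, mem_Ext] at hσ ⊢
    refine ⟨by rw [Equiv.trans_apply, hσ.1, Equiv.swap_apply_left], ?_⟩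
    intro q hq
    rw [Equiv.trans_apply, hσ.2 q hq, hfix q hq]
  · intro σ hσ
    rw [Match_mem_insert, mem_Ext] at hσ ⊢
    refine ⟨by rw [Equiv.trans_apply, hσ.1, Equiv.swap_apply_right], ?_⟩
    intro q hq
    rw [Equiv.trans_apply, hσ.2 q hq, hfix q hq]
  · intro σ _
    ext x
    simp
  · intro σ _
    ext x
    simp

/-- exposing the partner of `a` -/
theorem card_Ext_insert (hPQ : Fintype.card P = Fintype.card Q) {L : Finset (P × Q)}
    (hL : IsMatch L) {a : P} {b : Q} (ha : a ∉ L.image Prod.fst) (hb : b ∉ L.image Prod.snd) :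
    (Fintype.card P - L.card) * (Ext (insert (a, b) L)).card = (Ext L).card := by
  have h1 := card_Ext_filter_left ha (fun _ => True)
  simp only [filter_true] at h1
  rw [h1]
  have h2 : ∀ b' ∈ univ.filter (fun b => b ∉ L.image Prod.snd),
      (Ext (insert (a, b') L)).card = (Ext (insert (a, b) L)).card := by
    intro b' hb'
    exact Match_card_eq (mem_filter.1 hb').2 hb
  rw [sum_congr rfl h2, sum_const, smul_eq_mul]
  congr 1
  have h3 : univ.filter (fun b => b ∉ L.image Prod.snd) = (L.image Prod.snd)ᶜ := by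
    ext x
    simp
  rw [h3, card_compl, hPQ]
  congr 1
  symm
  apply card_image_of_injOn
  intro p hp p' hp' h
  exact hL p hp p' hp' (Or.inr h)

end Pool.Agent.Lib.MP_a7e07e_co.Sp
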