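import Mathlib

set_option autoImplicit false

/-! # The choice of the parameters -/

namespace Pool.Agent.Lib.MP_a7e07e_co.Sp

private theorem Num_pow25 : (35 / 36 : ℝ) ^ 25 ≤ 1 / 2 := by norm_num

theorem num (c : ℕ) : ∃ C : ℕ, ∀ r k v m : ℕ, 2 ≤ r → 2 ≤ k → v ≤ m → C ≤ m →
    C * (r * k) * (Nat.log 2 m) ^ 30 ≤ m →
    ∃ Sa S j : ℕ, 36 * (v : ℝ) * (35 / 36 : ℝ) ^ Sa ≤ 1 ∧ 1 ≤ S ∧ 1 ≤ j ∧
      2 * ((c : ℝ) * (Nat.log 2 m : ℝ) ^ 9 + Sa + 2) + Sa + 1 ≤ S ∧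
      8 * (r : ℝ) * k * S ≤ 2 ^ j ∧
      16 * (r : ℝ) * k * ((j * S : ℕ) : ℝ) ^ 2 *
        (24 * ((c : ℝ) * (Nat.log 2 m : ℝ) ^ 9 + 12 * ((j * S : ℕ) : ℝ) + 2) + ((j * S : ℕ) : ℝ))
          ≤ (m : ℝ) - 1 := by
  obtain ⟨K, hK⟩ : ∃ K : ℕ, K = 2 * c + 605 := ⟨_, rfl⟩
  obtain ⟨D, hD⟩ : ∃ D : ℕ, D = 16 * (7 * K) ^ 2 * (24 * c + 289 * (7 * K) + 48) := ⟨_, rfl⟩
  have hK1 : 1 ≤ K := by omega
  have hDK : K ≤ D := by
    rw [hD]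
    have h1 : 1 ≤ K * (24 * c + 289 * (7 * K) + 48) :=
      Nat.one_le_iff_ne_zero.mpr (by positivity)
    nlinarith [Nat.mul_le_mul_left K h1]
  refine ⟨D + 1, ?_⟩
  intro r k v m hr hk hv hCm hm
  obtain ⟨g, hg⟩ : ∃ g : ℕ, g = Nat.log 2 m := ⟨_, rfl⟩
  rw [← hg] at hm ⊢
  have hm2 : 2 ≤ m := by omega
  have hg1 : 1 ≤ g := by
    rw [hg]
    exact Nat.log_pos (by norm_num) hm2
  have hmlt : m < 2 ^ (g + 1) := by
    rw [hg]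
    exact Nat.lt_pow_succ_log_self (by norm_num) m
  have hrk : 1 ≤ r * k := by nlinarith
  have hg30 : 1 ≤ g ^ 30 := Nat.one_le_pow _ _ hg1
  have hrkm : r * k ≤ m := by
    calc r * k = 1 * (r * k) * 1 := by ring
      _ ≤ (D + 1) * (r * k) * g ^ 30 := by gcongr; omega
      _ ≤ m := hm
  have hg9 : g ^ 9 ≤ g ^ 30 := Nat.pow_le_pow_right hg1 (by norm_num)
  have hKm : K * g ^ 9 ≤ m := by
    calc K * g ^ 9 ≤ (D + 1) * g ^ 30 := by gcongr; omega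
      _ = (D + 1) * 1 * g ^ 30 := by ring
      _ ≤ (D + 1) * (r * k) * g ^ 30 := by gcongr
      _ ≤ m := hm
  have hmain : D * (r * k) * g ^ 30 + 1 ≤ m := by
    calc D * (r * k) * g ^ 30 + 1 ≤ D * (r * k) * g ^ 30 + (r * k) * g ^ 30 := by
          have : 1 ≤ (r * k) * g ^ 30 := Nat.one_le_iff_ne_zero.mpr (by positivity)
          omega
      _ = (D + 1) * (r * k) * g ^ 30 := by ring
      _ ≤ m := hm
  refine ⟨200 * g, K * g ^ 9, 7 * g, ?_, ?_, ?_, ?_, ?_, ?_⟩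
  · have h1 : (35 / 36 : ℝ) ^ (200 * g) ≤ (35 / 36 : ℝ) ^ (25 * (g + 7)) :=
      pow_le_pow_of_le_one (by norm_num) (by norm_num) (by omega)
    have h2 : (35 / 36 : ℝ) ^ (25 * (g + 7)) ≤ (1 / 2 : ℝ) ^ (g + 7) := by
      rw [pow_mul]
      exact pow_le_pow_left₀ (by positivity) Num_pow25 _
    have h3 : (v : ℝ) ≤ 2 ^ (g + 1) := by
      have : v ≤ 2 ^ (g + 1) := by omega
      exact_mod_cast this
    calc 36 * (v : ℝ) * (35 / 36 : ℝ) ^ (200 * g)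
        ≤ 36 * (2 : ℝ) ^ (g + 1) * (1 / 2 : ℝ) ^ (g + 7) := by
          apply mul_le_mul _ (h1.trans h2) (by positivity) (by positivity)
          linarith
      _ = 36 / 64 * ((2 : ℝ) ^ g * (1 / 2 : ℝ) ^ g) := by
          rw [pow_succ, pow_add (1 / 2 : ℝ) g 7]
          ring
      _ ≤ 1 := by
          rw [← mul_pow]
          norm_num
  · exact Nat.one_le_iff_ne_zero.mpr (by positivity)
  · omega
  · have h1 : (1 : ℝ) ≤ (g : ℝ) := by exact_mod_cast hg1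
    have h2 : (g : ℝ) ≤ (g : ℝ) ^ 9 := le_self_pow₀ h1 (by norm_num)
    have h3 : (1 : ℝ) ≤ (g : ℝ) ^ 9 := one_le_pow₀ h1
    rw [hK]
    push_cast
    nlinarith
  · have h1 : 8 * (r * k) * (K * g ^ 9) ≤ 2 ^ (7 * g) := by
      calc 8 * (r * k) * (K * g ^ 9) ≤ 8 * m * m := by gcongr
        _ ≤ 8 * 2 ^ (g + 1) * 2 ^ (g + 1) := by gcongr
        _ = 2 ^ (2 * g + 5) := by ring
        _ ≤ 2 ^ (7 * g) := Nat.pow_le_pow_right (by norm_num) (by omega)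
    have h2 : ((8 * (r * k) * (K * g ^ 9) : ℕ) : ℝ) ≤ ((2 ^ (7 * g) : ℕ) : ℝ) := by exact_mod_cast h1
    push_cast at h2 ⊢
    linarith
  · have hjS : 7 * g * (K * g ^ 9) = 7 * K * g ^ 10 := by ring
    rw [hjS]
    have hg910 : g ^ 9 ≤ g ^ 10 := Nat.pow_le_pow_right hg1 (by norm_num)
    have hg10 : 1 ≤ g ^ 10 := Nat.one_le_pow _ _ hg1
    have h1 : 24 * (c * g ^ 9 + 12 * (7 * K * g ^ 10) + 2) + 7 * K * g ^ 10
        ≤ (24 * c + 289 * (7 * K) + 48) * g ^ 10 := by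
      have := Nat.mul_le_mul_left c hg910
      nlinarith
    have h2 : 16 * (r * k) * (7 * K * g ^ 10) ^ 2 *
        (24 * (c * g ^ 9 + 12 * (7 * K * g ^ 10) + 2) + 7 * K * g ^ 10) + 1 ≤ m := by
      calc 16 * (r * k) * (7 * K * g ^ 10) ^ 2 *
        (24 * (c * g ^ 9 + 12 * (7 * K * g ^ 10) + 2) + 7 * K * g ^ 10) + 1
          ≤ 16 * (r * k) * (7 * K * g ^ 10) ^ 2 *
            ((24 * c + 289 * (7 * K) + 48) * g ^ 10) + 1 := by gcongr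
        _ = D * (r * k) * g ^ 30 + 1 := by rw [hD]; ring
        _ ≤ m := hmain
    have h3 : ((16 * (r * k) * (7 * K * g ^ 10) ^ 2 *
        (24 * (c * g ^ 9 + 12 * (7 * K * g ^ 10) + 2) + 7 * K * g ^ 10) + 1 : ℕ) : ℝ) ≤ (m : ℝ) := by
      exact_mod_cast h2
    push_cast at h3 ⊢
    linarith

end Pool.Agent.Lib.MP_a7e07e_co.Sp
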