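import Pool.Agent.Lib.MP_a7e07e_co.Sp.Walk

set_option autoImplicit false

/-! # The powers of `M` in terms of non-backtracking walks -/

namespace Pool.Agent.Lib.MP_a7e07e_co.Sp

open Matrix Finset

variable {P V B : Type} [Fintype P] [DecidableEq P] [Fintype V] [DecidableEq V] [Fintype B]
  [DecidableEq B] {var : P → V} {blk : P → B} {r k : ℕ}

theorem MM_eq (h : IsD var blk r k) : MM var blk r k =
    ((r : ℝ) * k)⁻¹ • (inc var * (((k : ℝ) - 1) • cw blk k + 1) * (inc var)ᵀ) := by
  unfold MM
  rw [← transpose_mul_inc h.hk]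
  congr 1
  simp only [Matrix.mul_assoc]

theorem Rec_kpos (h : IsD var blk r k) : (0 : ℝ) < (k : ℝ) - 1 := by
  have : (2 : ℝ) ≤ (k : ℝ) := by exact_mod_cast h.hk
  linarith

theorem Rec_rpos (h : IsD var blk r k) : (0 : ℝ) < (r : ℝ) - 1 := by
  have : (2 : ℝ) ≤ (r : ℝ) := by exact_mod_cast h.hr
  linarith

theorem MM_mul_Th_zero (h : IsD var blk r k) : MM var blk r k * Th var blk r k 0 =
    (1 / (k : ℝ)) • Th var blk r k 0 + (((k : ℝ) - 1) / k) • Th var blk r k 1 := by
  have hk := Rec_kpos h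
  have hr := Rec_rpos h
  have hk0 : (k : ℝ) ≠ 0 := by linarith
  have hr0 : (r : ℝ) ≠ 0 := by linarith
  rw [MM_eq h]
  simp only [Th, pow_zero, Matrix.one_mul, Matrix.mul_one, Matrix.mul_add, Matrix.add_mul,
    Matrix.mul_smul, Matrix.smul_mul, smul_add, smul_smul, inc_mul_transpose h.uv]
  match_scalars <;> field_simp

theorem Rec_step (h : IsD var blk r k) (j : ℕ) :
    inc var * (cw blk k * ((AA var blk r k) ^ j * cw blk k)) * (inc var)ᵀ =
      (((k : ℝ) - 2) / ((k : ℝ) - 1) * r) • Th var blk r k (j + 1) +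
        (1 / ((k : ℝ) - 1) * r) • Th var blk r k j := by
  have hr := Rec_rpos h
  have hr0 : (r : ℝ) ≠ 0 := by linarith
  cases j with
  | zero =>
    simp only [Th, pow_zero, Matrix.one_mul, zero_add]
    rw [cw_sq h.ub h.hk]
    simp only [Matrix.mul_add, Matrix.add_mul, Matrix.mul_smul, Matrix.smul_mul, smul_smul,
      Matrix.mul_one, inc_mul_transpose h.uv]
    match_scalars <;> field_simp
  | succ j =>
    have e1 : cw blk k * ((AA var blk r k) ^ (j + 1) * cw blk k) =
        (((k : ℝ) - 2) / ((k : ℝ) - 1)) • ((AA var blk r k) ^ (j + 1) * cw blk k) +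
        (1 / ((k : ℝ) - 1)) • (cw var r * ((AA var blk r k) ^ j * cw blk k)) := by
      have e2 : (AA var blk r k) ^ (j + 1) = cw blk k * (cw var r * (AA var blk r k) ^ j) := by
        rw [pow_succ', AA, Matrix.mul_assoc]
      rw [e2]
      simp only [← Matrix.mul_assoc]
      rw [cw_sq h.ub h.hk]
      simp only [Matrix.add_mul, Matrix.smul_mul, Matrix.one_mul]
    rw [e1]
    simp only [Matrix.mul_add, Matrix.add_mul, Matrix.mul_smul, Matrix.smul_mul]
    have e3 : inc var * (cw var r * ((AA var blk r k) ^ j * cw blk k)) =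
        inc var * ((AA var blk r k) ^ j * cw blk k) := by
      rw [← Matrix.mul_assoc, inc_mul_cw h.uv h.hr]
    rw [e3]
    simp only [Th, smul_smul]
    match_scalars <;> field_simp

theorem MM_mul_Th_succ (h : IsD var blk r k) (j : ℕ) :
    MM var blk r k * Th var blk r k (j + 1) =
      dn r k • Th var blk r k j + st r k • Th var blk r k (j + 1)
        + up r k • Th var blk r k (j + 2) := by
  have hk := Rec_kpos h
  have hr := Rec_rpos h
  have hk0 : (k : ℝ) ≠ 0 := by linarith
  have hr0 : (r : ℝ) ≠ 0 := by linarith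
  have hk1 : (k : ℝ) - 1 ≠ 0 := hk.ne'
  have hT1 : inc var * ((AA var blk r k) ^ j * cw blk k) * (inc var)ᵀ =
      (r : ℝ) • Th var blk r k (j + 1) := by
    simp only [Th, smul_smul]
    rw [mul_inv_cancel₀ hr0, one_smul]
  have hT2 : inc var * (cw blk k * (cw var r * ((AA var blk r k) ^ j * cw blk k))) *
      (inc var)ᵀ = (r : ℝ) • Th var blk r k (j + 2) := by
    have e2 : cw blk k * (cw var r * ((AA var blk r k) ^ j * cw blk k)) =
        (AA var blk r k) ^ (j + 1) * cw blk k := by
      rw [pow_succ']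
      simp only [AA, Matrix.mul_assoc]
    rw [e2]
    simp only [Th, smul_smul]
    rw [mul_inv_cancel₀ hr0, one_smul]
  have hE : inc var * (cw var r * ((AA var blk r k) ^ j * cw blk k)) =
      inc var * ((AA var blk r k) ^ j * cw blk k) := by
    rw [← Matrix.mul_assoc, inc_mul_cw h.uv h.hr]
  have hmain : inc var * (((k : ℝ) - 1) • cw blk k + 1) * (inc var)ᵀ *
      (inc var * ((AA var blk r k) ^ j * cw blk k) * (inc var)ᵀ) =
      (((k : ℝ) - 1) * ((r : ℝ) - 1)) • (inc var * (cw blk k * (cw var r *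
        ((AA var blk r k) ^ j * cw blk k))) * (inc var)ᵀ) +
      ((k : ℝ) - 1) • (inc var * (cw blk k * ((AA var blk r k) ^ j * cw blk k)) * (inc var)ᵀ) +
      ((r : ℝ) - 1) • (inc var * (cw var r * ((AA var blk r k) ^ j * cw blk k)) * (inc var)ᵀ) +
      inc var * ((AA var blk r k) ^ j * cw blk k) * (inc var)ᵀ := by
    have e4 : inc var * (((k : ℝ) - 1) • cw blk k + 1) * (inc var)ᵀ *
        (inc var * ((AA var blk r k) ^ j * cw blk k) * (inc var)ᵀ) =
        inc var * (((k : ℝ) - 1) • cw blk k + 1) * ((inc var)ᵀ * inc var) *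
          ((AA var blk r k) ^ j * cw blk k) * (inc var)ᵀ := by
      simp only [Matrix.mul_assoc]
    rw [e4, transpose_mul_inc h.hr]
    simp only [Matrix.mul_add, Matrix.add_mul, Matrix.mul_smul, Matrix.smul_mul, smul_smul,
      Matrix.mul_one, Matrix.one_mul, Matrix.mul_assoc, smul_add]
    match_scalars <;> ring
  rw [MM_eq h]
  have e5 : Th var blk r k (j + 1) =
      (r : ℝ)⁻¹ • (inc var * ((AA var blk r k) ^ j * cw blk k) * (inc var)ᵀ) := rfl
  conv_lhs => rw [e5]
  rw [Matrix.smul_mul, Matrix.mul_smul, hmain, hE, hT1, hT2, Rec_step h]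
  unfold dn st up
  match_scalars <;> field_simp <;> ring

theorem Rec_xs_zero (r k : ℕ) : ∀ s j : ℕ, s < j → xs r k s j = 0 := by
  intro s
  induction s with
  | zero =>
    intro j hj
    obtain ⟨i, rfl⟩ : ∃ i, j = i + 1 := ⟨j - 1, by omega⟩
    rfl
  | succ s ih =>
    intro j hj
    obtain ⟨i, rfl⟩ : ∃ i, j = i + 2 := ⟨j - 2, by omega⟩
    rw [xs, ih (i + 1) (by omega), ih (i + 2) (by omega), ih (i + 3) (by omega)]
    ring

theorem Rec_telescope (h : IsD var blk r k) (s n : ℕ) :
    ∑ j ∈ range (n + 2), xs r k s j • (MM var blk r k * Th var blk r k j) =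
      ∑ j ∈ range (n + 2), xs r k (s + 1) j • Th var blk r k j +
        (up r k * xs r k s (n + 1)) • Th var blk r k (n + 2) -
        (dn r k * xs r k s (n + 2)) • Th var blk r k (n + 1) := by
  induction n with
  | zero =>
    rw [Finset.sum_range_succ, Finset.sum_range_succ, Finset.sum_range_zero,
      Finset.sum_range_succ, Finset.sum_range_succ, Finset.sum_range_zero, MM_mul_Th_zero h,
      MM_mul_Th_succ h, xs, xs]
    match_scalars <;> ring
  | succ n ih =>
    rw [Finset.sum_range_succ, ih, Finset.sum_range_succ _ (n + 2), MM_mul_Th_succ h (n + 1),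
      xs]
    match_scalars <;> ring

theorem MM_pow (h : IsD var blk r k) (s : ℕ) :
    (MM var blk r k) ^ s = ∑ j ∈ range (s + 1), xs r k s j • Th var blk r k j := by
  induction s with
  | zero =>
    rw [Finset.sum_range_one, pow_zero]
    simp only [xs, Th, one_smul]
  | succ s ih =>
    have h1 := Rec_telescope h s s
    rw [Finset.sum_range_succ _ (s + 1), Rec_xs_zero r k s (s + 1) (by omega),
      Rec_xs_zero r k s (s + 2) (by omega)] at h1
    simp only [zero_smul, mul_zero, add_zero, sub_zero] at h1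
    rw [pow_succ', ih, Matrix.mul_sum, ← h1]
    apply Finset.sum_congr rfl
    intro j _
    rw [Matrix.mul_smul]

end Pool.Agent.Lib.MP_a7e07e_co.Sp
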