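import Pool.Agent.Lib.MP_a7e07e_co.Sp.Cheeger
import Pool.Agent.Lib.MP_a7e07e_co.Sp.Expand
import Pool.Agent.Lib.MP_a7e07e_co.Sp.Coin

set_option autoImplicit false

/-! # A good reference design exists -/

namespace Pool.Agent.Lib.MP_a7e07e_co.Sp

open Matrix Finset

theorem Ref_coin {v b r k : ℕ} (hr : 2 ≤ r) (hk : 2 ≤ k) (hrk : 5 ≤ r + k) (hm : v * r = b * k)
    {S : ℕ} (hS : 8 * S ≤ v * r) (l : ℕ) (h1 : 1 ≤ l) (hl : l ≤ S) :
    ∑ σ : (Fin b × Fin k) ≃ (Fin v × Fin r), tt (vr σ) (Prod.fst : Fin b × Fin k → Fin b) r k l ≤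
      8 * (S : ℝ) ^ 2 * Fintype.card ((Fin b × Fin k) ≃ (Fin v × Fin r)) := by
  refine (coin hr hk hrk hm h1 (by omega)).trans ?_
  have : (l : ℝ) ≤ S := by exact_mod_cast hl
  have h2 : (l : ℝ) ^ 2 ≤ (S : ℝ) ^ 2 := by
    have : (0 : ℝ) ≤ l := by positivity
    gcongr
  have h3 : (0 : ℝ) ≤ Fintype.card ((Fin b × Fin k) ≃ (Fin v × Fin r)) := by positivity
  nlinarith [mul_le_mul_of_nonneg_right h2 h3]

theorem Ref_YZ {v b r k : ℕ} (hr : 2 ≤ r) (hk : 2 ≤ k) (hrk : 5 ≤ r + k) (hm : v * r = b * k)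
    (hv : 1 ≤ v) {S : ℕ} (hS : 8 * S ≤ v * r) (j : ℕ) (hj : j ≤ S) :
    ∑ σ : (Fin b × Fin k) ≃ (Fin v × Fin r), YY (vr σ) (Prod.fst : Fin b × Fin k → Fin b) r k j ≤
      8 * (S : ℝ) ^ 2 * Fintype.card ((Fin b × Fin k) ≃ (Fin v × Fin r)) ∧
    ∑ σ : (Fin b × Fin k) ≃ (Fin v × Fin r), ZZ (vr σ) (Prod.fst : Fin b × Fin k → Fin b) r k j ≤
      8 * (S : ℝ) ^ 2 * Fintype.card ((Fin b × Fin k) ≃ (Fin v × Fin r)) := by
  induction j with
  | zero =>
    simp only [YY_zero, ZZ_zero, Finset.sum_const_zero]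
    constructor <;> positivity
  | succ j ih =>
    obtain ⟨ih1, ih2⟩ := ih (by omega)
    have hc := Ref_coin hr hk hrk hm hS (j + 1) (by omega) hj
    have hk' : (2 : ℝ) ≤ k := by exact_mod_cast hk
    have hr' : (2 : ℝ) ≤ r := by exact_mod_cast hr
    constructor
    · have : ∑ σ : (Fin b × Fin k) ≃ (Fin v × Fin r),
          YY (vr σ) (Prod.fst : Fin b × Fin k → Fin b) r k (j + 1) =
          (((k : ℝ) - 2) / ((k : ℝ) - 1)) * ∑ σ : (Fin b × Fin k) ≃ (Fin v × Fin r),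
            tt (vr σ) (Prod.fst : Fin b × Fin k → Fin b) r k (j + 1) +
          (1 / ((k : ℝ) - 1)) * ∑ σ : (Fin b × Fin k) ≃ (Fin v × Fin r),
            ZZ (vr σ) (Prod.fst : Fin b × Fin k → Fin b) r k j := by
        rw [Finset.mul_sum, Finset.mul_sum, ← Finset.sum_add_distrib]
        refine Finset.sum_congr rfl fun σ _ => ?_
        exact YY_succ (isD_vr hr hk hrk hv σ) j
      rw [this]
      set B := 8 * (S : ℝ) ^ 2 * Fintype.card ((Fin b × Fin k) ≃ (Fin v × Fin r)) with hB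
      have e1 : (0 : ℝ) ≤ ((k : ℝ) - 2) / ((k : ℝ) - 1) := div_nonneg (by linarith) (by linarith)
      have e2 : (0 : ℝ) ≤ 1 / ((k : ℝ) - 1) := div_nonneg (by linarith) (by linarith)
      have e3 : ((k : ℝ) - 2) / ((k : ℝ) - 1) + 1 / ((k : ℝ) - 1) = 1 := by
        have : (k : ℝ) - 1 ≠ 0 := by linarith
        field_simp
        ring
      calc _ ≤ ((k : ℝ) - 2) / ((k : ℝ) - 1) * B + 1 / ((k : ℝ) - 1) * B :=
            add_le_add (mul_le_mul_of_nonneg_left hc e1) (mul_le_mul_of_nonneg_left ih2 e2)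
        _ = B := by rw [← add_mul, e3, one_mul]
    · have : ∑ σ : (Fin b × Fin k) ≃ (Fin v × Fin r),
          ZZ (vr σ) (Prod.fst : Fin b × Fin k → Fin b) r k (j + 1) =
          (((r : ℝ) - 2) / ((r : ℝ) - 1)) * ∑ σ : (Fin b × Fin k) ≃ (Fin v × Fin r),
            tt (vr σ) (Prod.fst : Fin b × Fin k → Fin b) r k (j + 1) +
          (1 / ((r : ℝ) - 1)) * ∑ σ : (Fin b × Fin k) ≃ (Fin v × Fin r),
            YY (vr σ) (Prod.fst : Fin b × Fin k → Fin b) r k j := by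
        rw [Finset.mul_sum, Finset.mul_sum, ← Finset.sum_add_distrib]
        refine Finset.sum_congr rfl fun σ _ => ?_
        exact ZZ_succ (isD_vr hr hk hrk hv σ) j
      rw [this]
      set B := 8 * (S : ℝ) ^ 2 * Fintype.card ((Fin b × Fin k) ≃ (Fin v × Fin r)) with hB
      have e1 : (0 : ℝ) ≤ ((r : ℝ) - 2) / ((r : ℝ) - 1) := div_nonneg (by linarith) (by linarith)
      have e2 : (0 : ℝ) ≤ 1 / ((r : ℝ) - 1) := div_nonneg (by linarith) (by linarith)
      have e3 : ((r : ℝ) - 2) / ((r : ℝ) - 1) + 1 / ((r : ℝ) - 1) = 1 := by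
        have : (r : ℝ) - 1 ≠ 0 := by linarith
        field_simp
        ring
      calc _ ≤ ((r : ℝ) - 2) / ((r : ℝ) - 1) * B + 1 / ((r : ℝ) - 1) * B :=
            add_le_add (mul_le_mul_of_nonneg_left hc e1) (mul_le_mul_of_nonneg_left ih1 e2)
        _ = B := by rw [← add_mul, e3, one_mul]

theorem Ref_sum_aa {v b r k : ℕ} (hr : 2 ≤ r) (hk : 2 ≤ k) (hrk : 5 ≤ r + k) (hm : v * r = b * k)
    (hv : 1 ≤ v) {S : ℕ} (hS : 8 * S ≤ v * r) (s : ℕ) (hs : s ≤ S) :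
    ∑ σ : (Fin b × Fin k) ≃ (Fin v × Fin r),
      (aa (vr σ) (Prod.fst : Fin b × Fin k → Fin b) r k s - v * xs r k s 0) ≤
      8 * (S : ℝ) ^ 2 * Fintype.card ((Fin b × Fin k) ≃ (Fin v × Fin r)) := by
  have hr' : (2 : ℝ) ≤ r := by exact_mod_cast hr
  set B := 8 * (S : ℝ) ^ 2 * Fintype.card ((Fin b × Fin k) ≃ (Fin v × Fin r)) with hB
  have hB0 : 0 ≤ B := by positivity
  have h1 : ∑ σ : (Fin b × Fin k) ≃ (Fin v × Fin r),
      (aa (vr σ) (Prod.fst : Fin b × Fin k → Fin b) r k s - v * xs r k s 0) =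
      ∑ j ∈ range s, xs r k s (j + 1) *
        ((((r : ℝ) - 1) / r) * ∑ σ : (Fin b × Fin k) ≃ (Fin v × Fin r),
            tt (vr σ) (Prod.fst : Fin b × Fin k → Fin b) r k (j + 1) +
          (1 / (r : ℝ)) * ∑ σ : (Fin b × Fin k) ≃ (Fin v × Fin r),
            YY (vr σ) (Prod.fst : Fin b × Fin k → Fin b) r k j) := by
    have : ∀ σ : (Fin b × Fin k) ≃ (Fin v × Fin r),
        aa (vr σ) (Prod.fst : Fin b × Fin k → Fin b) r k s - v * xs r k s 0 =
        ∑ j ∈ range s, xs r k s (j + 1) *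
          ((((r : ℝ) - 1) / r) * tt (vr σ) (Prod.fst : Fin b × Fin k → Fin b) r k (j + 1) +
            (1 / (r : ℝ)) * YY (vr σ) (Prod.fst : Fin b × Fin k → Fin b) r k j) := by
      intro σ
      rw [aa_eq (isD_vr hr hk hrk hv σ) s, Fintype.card_fin]
      ring
    simp only [this]
    rw [Finset.sum_comm]
    refine Finset.sum_congr rfl fun j _ => ?_
    rw [← Finset.mul_sum, Finset.sum_add_distrib, ← Finset.mul_sum, ← Finset.mul_sum]
  rw [h1]
  have h2 : ∀ j ∈ range s, xs r k s (j + 1) *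
        ((((r : ℝ) - 1) / r) * ∑ σ : (Fin b × Fin k) ≃ (Fin v × Fin r),
            tt (vr σ) (Prod.fst : Fin b × Fin k → Fin b) r k (j + 1) +
          (1 / (r : ℝ)) * ∑ σ : (Fin b × Fin k) ≃ (Fin v × Fin r),
            YY (vr σ) (Prod.fst : Fin b × Fin k → Fin b) r k j) ≤ xs r k s (j + 1) * B := by
    intro j hj
    have hj' : j < s := Finset.mem_range.mp hj
    refine mul_le_mul_of_nonneg_left ?_ (xs_nonneg hr hk s (j + 1))
    have e1 : (0 : ℝ) ≤ ((r : ℝ) - 1) / r := div_nonneg (by linarith) (by linarith)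
    have e2 : (0 : ℝ) ≤ 1 / (r : ℝ) := div_nonneg (by linarith) (by linarith)
    have e3 : ((r : ℝ) - 1) / r + 1 / (r : ℝ) = 1 := by
      have : (r : ℝ) ≠ 0 := by linarith
      field_simp
      ring
    calc _ ≤ ((r : ℝ) - 1) / r * B + 1 / (r : ℝ) * B :=
          add_le_add (mul_le_mul_of_nonneg_left
            (Ref_coin hr hk hrk hm hS (j + 1) (by omega) (by omega)) e1)
            (mul_le_mul_of_nonneg_left (Ref_YZ hr hk hrk hm hv hS j (by omega)).1 e2)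
      _ = B := by rw [← add_mul, e3, one_mul]
  refine (Finset.sum_le_sum h2).trans ?_
  rw [← Finset.sum_mul]
  have h3 : ∑ j ∈ range s, xs r k s (j + 1) ≤ 1 := by
    have := xs_sum hr hk s
    rw [Finset.sum_range_succ'] at this
    have h0 := xs_nonneg hr hk s 0
    linarith
  nlinarith [mul_le_mul_of_nonneg_right h3 hB0]

/-- Markov's inequality for the numbers of closed walks and the union bound -/
theorem exists_sigma : ∃ m0 : ℕ, ∀ v b r k : ℕ, 2 ≤ r → 2 ≤ k → 5 ≤ r + k → v * r = b * k →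
    m0 ≤ v * r → ∀ S : ℕ, 1 ≤ S → 8 * S ≤ v * r →
    ∃ σ : (Fin b × Fin k) ≃ (Fin v × Fin r),
      Cond (vr σ) (Prod.fst : Fin b × Fin k → Fin b) r k
          (192 * Real.logb 2 (v * r + 1))⁻¹ ∧
      ∑ s ∈ range S, (aa (vr σ) (Prod.fst : Fin b × Fin k → Fin b) r k s - v * xs r k s 0)
        ≤ 16 * (S : ℝ) ^ 3 := by
  obtain ⟨m0, hm0⟩ := union_bound
  refine ⟨m0 + 1, fun v b r k hr hk hrk hm hlarge S hS1 hS => ?_⟩
  have hv : 1 ≤ v := by
    rcases Nat.eq_zero_or_pos v with h | h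
    · subst h; simp at hlarge
    · exact h
  have hU := hm0 v b r k hr hk hrk hm (by omega)
  classical
  set G : ((Fin b × Fin k) ≃ (Fin v × Fin r)) → ℝ := fun σ =>
    ∑ s ∈ range S, (aa (vr σ) (Prod.fst : Fin b × Fin k → Fin b) r k s - v * xs r k s 0) with hG
  set N : ℝ := (Fintype.card ((Fin b × Fin k) ≃ (Fin v × Fin r)) : ℝ) with hN
  have hNpos : 0 < N := by
    have hc : Fintype.card (Fin b × Fin k) = Fintype.card (Fin v × Fin r) := by
      simp [Fintype.card_prod, hm]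
    haveI : Nonempty ((Fin b × Fin k) ≃ (Fin v × Fin r)) := ⟨Fintype.equivOfCardEq hc⟩
    rw [hN]
    exact_mod_cast Fintype.card_pos
  have hS0 : (0 : ℝ) < S := by exact_mod_cast hS1
  have hGsum : ∑ σ, G σ ≤ 8 * (S : ℝ) ^ 3 * N := by
    rw [hG]
    simp only
    rw [Finset.sum_comm]
    calc _ ≤ ∑ _s ∈ range S, 8 * (S : ℝ) ^ 2 * N := by
          refine Finset.sum_le_sum fun s hs => ?_
          exact Ref_sum_aa hr hk hrk hm hv hS s (Finset.mem_range.mp hs).le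
      _ = 8 * (S : ℝ) ^ 3 * N := by
          rw [Finset.sum_const, Finset.card_range, nsmul_eq_mul]
          ring
  have hGnn : ∀ σ, 0 ≤ G σ := by
    intro σ
    refine Finset.sum_nonneg fun s _ => ?_
    have := aa_ge (isD_vr hr hk hrk hv σ) s
    rw [Fintype.card_fin] at this
    linarith
  by_contra hcon
  push Not at hcon
  -- every σ is bad
  set A := univ.filter fun σ : (Fin b × Fin k) ≃ (Fin v × Fin r) =>
        ¬ Cond (vr σ) (Prod.fst : Fin b × Fin k → Fin b) r k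
          (192 * Real.logb 2 (v * r + 1))⁻¹ with hA
  set Bd := univ.filter fun σ : (Fin b × Fin k) ≃ (Fin v × Fin r) =>
        16 * (S : ℝ) ^ 3 < G σ with hBd
  have hcov : (univ : Finset ((Fin b × Fin k) ≃ (Fin v × Fin r))) ⊆ A ∪ Bd := by
    intro σ _
    rw [Finset.mem_union]
    by_cases hc : Cond (vr σ) (Prod.fst : Fin b × Fin k → Fin b) r k
          (192 * Real.logb 2 (v * r + 1))⁻¹
    · right
      rw [hBd, Finset.mem_filter]
      exact ⟨Finset.mem_univ _, hcon σ hc⟩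
    · left
      rw [hA, Finset.mem_filter]
      exact ⟨Finset.mem_univ _, hc⟩
  have hcard : N ≤ (A.card : ℝ) + Bd.card := by
    have h1 := (Finset.card_le_card hcov).trans (Finset.card_union_le A Bd)
    rw [hN]
    exact_mod_cast h1
  have hBdcard : 16 * (S : ℝ) ^ 3 * Bd.card ≤ 8 * (S : ℝ) ^ 3 * N := by
    calc 16 * (S : ℝ) ^ 3 * Bd.card = ∑ _σ ∈ Bd, 16 * (S : ℝ) ^ 3 := by
          rw [Finset.sum_const, nsmul_eq_mul]; ring
      _ ≤ ∑ σ ∈ Bd, G σ := by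
          refine Finset.sum_le_sum fun σ hσ => ?_
          exact (Finset.mem_filter.mp hσ).2.le
      _ ≤ ∑ σ, G σ := Finset.sum_le_sum_of_subset_of_nonneg (Finset.subset_univ _)
          (fun σ _ _ => hGnn σ)
      _ ≤ _ := hGsum
  have hS3 : (0 : ℝ) < (S : ℝ) ^ 3 := by positivity
  have hBd2 : 2 * (Bd.card : ℝ) ≤ N := by
    have : (8 * (S : ℝ) ^ 3) * (2 * (Bd.card : ℝ)) ≤ (8 * (S : ℝ) ^ 3) * N := by linarith
    exact le_of_mul_le_mul_left this (by positivity)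
  have hU' : 4 * (A.card : ℝ) ≤ N := by
    rw [hA, hN]
    convert hU using 4
  linarith

theorem Ref_pow (n : ℕ) (hn : 50 ≤ n) : 2 ^ 26 * n ^ 3 ≤ 2 ^ n := by
  induction n, hn using Nat.le_induction with
  | base => norm_num
  | succ n hn ih =>
    have h1 : (n + 1) ^ 3 ≤ 2 * n ^ 3 := by nlinarith [sq_nonneg (n : ℤ), Nat.mul_le_mul hn hn]
    calc 2 ^ 26 * (n + 1) ^ 3 ≤ 2 ^ 26 * (2 * n ^ 3) := Nat.mul_le_mul_left _ h1
      _ = 2 * (2 ^ 26 * n ^ 3) := by ring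
      _ ≤ 2 * 2 ^ n := Nat.mul_le_mul_left _ ih
      _ = 2 ^ (n + 1) := by ring

/-- numerical bound of the tail -/
theorem Ref_tail {v m l : ℕ} (hl : 1 ≤ l) (hvm : v ≤ m) (hm : m + 1 ≤ 2 ^ (l + 1)) {x : ℝ}
    (hx0 : 0 < x) (hx1 : x ≤ 1) (hx : ((294912 : ℝ) * l ^ 2)⁻¹ ≤ x) :
    (v : ℝ) * (1 - x) ^ (6782976 * l ^ 3) / x ≤ 1 := by
  have hl' : (1 : ℝ) ≤ l := by exact_mod_cast hl
  set y := ((294912 : ℝ) * l ^ 2)⁻¹ with hy
  have hy0 : 0 < y := by positivity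
  have hD : (294912 : ℝ) * l ^ 2 * y = 1 := by rw [hy]; field_simp
  rw [div_le_one hx0]
  refine le_trans ?_ hx
  have h1 : (1 - x) ^ (6782976 * l ^ 3) ≤ (1 - y) ^ (6782976 * l ^ 3) :=
    pow_le_pow_left₀ (by linarith) (by linarith) _
  have h2 : (1 - y) ≤ Real.exp (-y) := by
    have := Real.add_one_le_exp (-y)
    linarith
  have h3 : (1 - y) ^ (6782976 * l ^ 3) ≤ Real.exp (-(23 * l)) := by
    calc (1 - y) ^ (6782976 * l ^ 3) ≤ (Real.exp (-y)) ^ (6782976 * l ^ 3) :=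
          pow_le_pow_left₀ (by linarith) h2 _
      _ = Real.exp (-(23 * l)) := by
          rw [← Real.exp_nat_mul]
          congr 1
          push_cast
          have : (6782976 : ℝ) * l ^ 3 * -y = -(23 * l) * ((294912 : ℝ) * l ^ 2 * y) := by ring
          rw [this, hD, mul_one]
  have h4 : Real.exp (-(23 * l)) ≤ (1 / 2 : ℝ) ^ (23 * l) := by
    have he : Real.exp (-1) ≤ 1 / 2 := by
      rw [Real.exp_neg, one_div]
      refine inv_anti₀ (by norm_num) ?_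
      have := Real.add_one_le_exp (1 : ℝ)
      linarith
    calc Real.exp (-(23 * l)) = (Real.exp (-1)) ^ (23 * l) := by
          rw [← Real.exp_nat_mul]
          congr 1
          push_cast
          ring
      _ ≤ _ := pow_le_pow_left₀ (Real.exp_pos _).le he _
  have h5 : (v : ℝ) ≤ 2 ^ (l + 1) := by
    have : v ≤ 2 ^ (l + 1) := by omega
    exact_mod_cast this
  have h6 : (l : ℝ) ^ 2 ≤ 2 ^ (2 * l) := by
    have h : l ≤ 2 ^ l := Nat.lt_two_pow_self.le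
    have h' : (l : ℝ) ≤ 2 ^ l := by exact_mod_cast h
    calc (l : ℝ) ^ 2 ≤ (2 ^ l) ^ 2 := pow_le_pow_left₀ (by linarith) h' 2
      _ = 2 ^ (2 * l) := by rw [← pow_mul]; ring_nf
  have h7 : (294912 : ℝ) ≤ 2 ^ (19 * l) := by
    calc (294912 : ℝ) ≤ 2 ^ 19 := by norm_num
      _ ≤ 2 ^ (19 * l) := pow_le_pow_right₀ (by norm_num) (by omega)
  have h8 : (2 : ℝ) ^ (l + 1) ≤ 2 ^ (2 * l) := pow_le_pow_right₀ (by norm_num) (by omega)
  calc (v : ℝ) * (1 - x) ^ (6782976 * l ^ 3) ≤ 2 ^ (2 * l) * (1 / 2 : ℝ) ^ (23 * l) := by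
        refine mul_le_mul (h5.trans h8) (h1.trans (h3.trans h4)) (pow_nonneg (by linarith) _)
          (by positivity)
    _ ≤ y := by
        rw [hy, ← one_div, le_div_iff₀ (by positivity)]
        calc (2 : ℝ) ^ (2 * l) * (1 / 2 : ℝ) ^ (23 * l) * (294912 * l ^ 2)
            ≤ (2 : ℝ) ^ (2 * l) * (1 / 2 : ℝ) ^ (23 * l) * (2 ^ (19 * l) * 2 ^ (2 * l)) := by
              gcongr
          _ = 1 := by
              have : (2 : ℝ) ^ (2 * l) * (1 / 2 : ℝ) ^ (23 * l) * (2 ^ (19 * l) * 2 ^ (2 * l)) =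
                2 ^ (23 * l) * (1 / 2 : ℝ) ^ (23 * l) := by
                  have : (2 : ℝ) ^ (23 * l) = 2 ^ (2 * l) * 2 ^ (19 * l) * 2 ^ (2 * l) := by
                    rw [← pow_add, ← pow_add]; congr 1; ring
                  rw [this]; ring
              rw [this, ← mul_pow]
              norm_num

theorem ref : ∃ m0 c : ℕ, ∀ v b r k : ℕ, 2 ≤ r → 2 ≤ k → 5 ≤ r + k → v * r = b * k →
    m0 ≤ v * r → ∃ (var : Fin b × Fin k → Fin v) (Sb : ℕ),
      IsD var (Prod.fst : Fin b × Fin k → Fin b) r k ∧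
      (XX var (Prod.fst : Fin b × Fin k → Fin b) r k).det ≠ 0 ∧
      ff var (Prod.fst : Fin b × Fin k → Fin b) r k ≤
        v * WW r k Sb + c * (Nat.log 2 (v * r) : ℝ) ^ 9 := by
  obtain ⟨m0, hm0⟩ := exists_sigma
  refine ⟨m0 + 2 ^ 50, 16 * 6782976 ^ 3 + 2, fun v b r k hr hk hrk hm hlarge => ?_⟩
  have hmpos : 2 ^ 50 ≤ v * r := le_trans (Nat.le_add_left _ _) hlarge
  have hm00 : m0 ≤ v * r := le_trans (Nat.le_add_right _ _) hlarge
  have hmne : v * r ≠ 0 := by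
    have : 0 < 2 ^ 50 := by norm_num
    omega
  have hv : 1 ≤ v := by
    rcases Nat.eq_zero_or_pos v with h | h
    · subst h; simp at hmne
    · exact h
  set l := Nat.log 2 (v * r) with hl
  have hl50 : 50 ≤ l := by
    rw [hl]
    exact (Nat.le_log_iff_pow_le (by norm_num) hmne).mpr hmpos
  have hlow : 2 ^ l ≤ v * r := Nat.pow_log_le_self 2 hmne
  have hup : v * r < 2 ^ (l + 1) := Nat.lt_pow_succ_log_self (by norm_num) _
  set S := 6782976 * l ^ 3 with hS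
  have hS1 : 1 ≤ S := by
    have : 0 < l ^ 3 := by positivity
    omega
  have hS8 : 8 * S ≤ v * r := by
    have h1 := Ref_pow l hl50
    have h2 : 8 * S ≤ 2 ^ 26 * l ^ 3 := by
      rw [hS, ← mul_assoc]
      exact Nat.mul_le_mul_right _ (by norm_num)
    exact h2.trans (h1.trans hlow)
  obtain ⟨σ, hC, hG⟩ := hm0 v b r k hr hk hrk hm hm00 S hS1 hS8
  have hD := isD_vr hr hk hrk hv σ
  set t : ℝ := (192 * Real.logb 2 (v * r + 1))⁻¹ with ht
  have hl' : (50 : ℝ) ≤ l := by exact_mod_cast hl50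
  have hL1 : Real.logb 2 (v * r + 1) ≤ l + 1 := by
    have h1 : ((v : ℝ) * r + 1) ≤ 2 ^ (l + 1) := by
      have : v * r + 1 ≤ 2 ^ (l + 1) := hup
      exact_mod_cast this
    have h2 : Real.logb 2 (v * r + 1) ≤ Real.logb 2 (2 ^ (l + 1)) :=
      Real.logb_le_logb_of_le (by norm_num) (by positivity) h1
    rw [Real.logb_pow, Real.logb_self_eq_one (by norm_num)] at h2
    push_cast at h2
    linarith
  have hL0 : (l : ℝ) ≤ Real.logb 2 (v * r + 1) := by
    have h1 : (2 : ℝ) ^ l ≤ ((v : ℝ) * r + 1) := by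
      have : 2 ^ l ≤ v * r + 1 := by omega
      exact_mod_cast this
    have h2 : Real.logb 2 (2 ^ l) ≤ Real.logb 2 (v * r + 1) :=
      Real.logb_le_logb_of_le (by norm_num) (by positivity) h1
    rw [Real.logb_pow, Real.logb_self_eq_one (by norm_num)] at h2
    linarith
  set LL := Real.logb 2 (v * r + 1) with hLL
  have ht0 : 0 < t := by
    rw [ht]
    exact inv_pos.mpr (by linarith)
  have ht1 : t ≤ 1 := by
    rw [ht]
    exact inv_le_one_of_one_le₀ (by linarith)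
  have htl : (384 * (l : ℝ))⁻¹ ≤ t := by
    rw [ht]
    exact inv_anti₀ (by linarith) (by linarith)
  obtain ⟨hdet, hff⟩ := ff_le_of_cond hD ht0 ht1 hC S hS1
  refine ⟨vr σ, S, hD, hdet, ?_⟩
  rw [Fintype.card_fin] at hff
  have hx0 : 0 < t ^ 2 / 2 := by positivity
  have hx1 : t ^ 2 / 2 ≤ 1 := by nlinarith
  have hx : ((294912 : ℝ) * l ^ 2)⁻¹ ≤ t ^ 2 / 2 := by
    have h1 : ((384 * (l : ℝ))⁻¹) ^ 2 ≤ t ^ 2 := pow_le_pow_left₀ (by positivity) htl 2
    have h2 : ((294912 : ℝ) * l ^ 2)⁻¹ = ((384 * (l : ℝ))⁻¹) ^ 2 / 2 := by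
      rw [inv_pow, mul_pow]
      field_simp
      norm_num
    rw [h2]
    linarith
  have htail := Ref_tail (v := v) (m := v * r) (l := l) (by omega)
    (Nat.le_mul_of_pos_right v (by omega)) hup hx0 hx1 hx
  have hsum : ∑ s ∈ range S, (aa (vr σ) (Prod.fst : Fin b × Fin k → Fin b) r k s - 1) ≤
      16 * (S : ℝ) ^ 3 + v * WW r k S := by
    have h1 : ∑ s ∈ range S, (aa (vr σ) (Prod.fst : Fin b × Fin k → Fin b) r k s - 1) ≤
        ∑ s ∈ range S, aa (vr σ) (Prod.fst : Fin b × Fin k → Fin b) r k s :=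
      Finset.sum_le_sum fun s _ => by linarith
    have h2 : ∑ s ∈ range S, aa (vr σ) (Prod.fst : Fin b × Fin k → Fin b) r k s =
        ∑ s ∈ range S, (aa (vr σ) (Prod.fst : Fin b × Fin k → Fin b) r k s - v * xs r k s 0) +
          v * WW r k S := by
      rw [WW, Finset.mul_sum, ← Finset.sum_add_distrib]
      refine Finset.sum_congr rfl fun s _ => by ring
    rw [h2] at h1
    linarith
  have hS3 : (S : ℝ) = 6782976 * (l : ℝ) ^ 3 := by
    rw [hS]; push_cast; ring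
  have hl9 : (1 : ℝ) ≤ (l : ℝ) ^ 9 := one_le_pow₀ (by linarith)
  have hfin : 16 * (S : ℝ) ^ 3 + 2 ≤ ((16 * 6782976 ^ 3 + 2 : ℕ) : ℝ) * (l : ℝ) ^ 9 := by
    rw [hS3]
    push_cast
    have : (16 : ℝ) * (6782976 * (l : ℝ) ^ 3) ^ 3 = 16 * 6782976 ^ 3 * (l : ℝ) ^ 9 := by ring
    rw [this]
    norm_num
    linarith
  have hmain : (v : ℝ) * (1 - t ^ 2 / 2) ^ S / (t ^ 2 / 2) ≤ 1 := htail
  linarith

end Pool.Agent.Lib.MP_a7e07e_co.Sp
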