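import Pool.Agent.Lib.MP_a7e07e_co.Sp.Coin

set_option autoImplicit false

/-! # The image of a set under a random bijection -/

namespace Pool.Agent.Lib.MP_a7e07e_co.Sp

open Finset

/-- the number of small sets -/
theorem Sets_card_small {P : Type} [Fintype P] [DecidableEq P] (d : ℕ) :
    (univ.filter fun D : Finset P => D.card ≤ d).card ≤ (Fintype.card P + 1) ^ d := by
  classical
  have hsub : (univ.filter fun D : Finset P => D.card ≤ d) ⊆
      (univ : Finset (Fin d → Option P)).image
        (fun f => univ.filter fun x : P => ∃ i, f i = some x) := by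
    intro D hD
    rw [mem_filter] at hD
    obtain ⟨-, hD⟩ := hD
    rw [mem_image]
    let e := D.equivFin
    refine ⟨fun i => if h : i.val < D.card then some (e.symm ⟨i.val, h⟩ : P) else none,
      mem_univ _, ?_⟩
    ext x
    simp only [mem_filter, mem_univ, true_and]
    constructor
    · rintro ⟨i, hi⟩
      by_cases h : i.val < D.card
      · rw [dif_pos h] at hi
        have := Option.some.inj hi
        rw [← this]
        exact (e.symm ⟨i.val, h⟩).2
      · rw [dif_neg h] at hi
        exact absurd hi (by simp)
    · intro hx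
      have hlt : (e ⟨x, hx⟩).val < D.card := (e ⟨x, hx⟩).2
      refine ⟨⟨(e ⟨x, hx⟩).val, lt_of_lt_of_le hlt hD⟩, ?_⟩
      rw [dif_pos hlt]
      congr 1
      have : e.symm ⟨(e ⟨x, hx⟩).val, hlt⟩ = ⟨x, hx⟩ := by
        rw [Equiv.symm_apply_eq]
      rw [this]
  refine (card_le_card hsub).trans (card_image_le.trans ?_)
  rw [card_univ, Fintype.card_fun, Fintype.card_option, Fintype.card_fin]

/-- the number of sets near a given set -/
theorem card_near {P : Type} [Fintype P] [DecidableEq P] (Y : Finset P) (d : ℕ) :
    (univ.filter fun Z : Finset P => (symmDiff Z Y).card ≤ d).card ≤ (Fintype.card P + 1) ^ d := by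
  refine le_trans ?_ (Sets_card_small (P := P) d)
  refine card_le_card_of_injOn (fun Z => symmDiff Z Y) ?_ ?_
  · intro Z hZ
    simpa using hZ
  · intro Z _ Z' _ h
    exact symmDiff_left_injective Y h

/-- the number of bijections with a given preimage depends only on the size -/
theorem Sets_le {P Q : Type} [Fintype P] [DecidableEq P] [Fintype Q] [DecidableEq Q]
    (S : Finset Q) (Z Z' : Finset P) (h : Z.card = Z'.card) :
    (univ.filter fun σ : P ≃ Q => S.map σ.symm.toEmbedding = Z).card ≤
      (univ.filter fun σ : P ≃ Q => S.map σ.symm.toEmbedding = Z').card := by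
  classical
  let e : {x // x ∈ Z} ≃ {x // x ∈ Z'} := Finset.equivOfCardEq h
  let π : Equiv.Perm P := e.extendSubtype
  have hπ : Z.map π.toEmbedding = Z' := by
    apply eq_of_subset_of_card_le
    · intro x hx
      rw [mem_map] at hx
      obtain ⟨y, hy, rfl⟩ := hx
      exact e.extendSubtype_mem y hy
    · rw [card_map, h]
  refine card_le_card_of_injOn (fun σ => π.symm.trans σ) ?_ ?_
  · intro σ hσ
    simp only [coe_filter, mem_univ, true_and, Set.mem_setOf_eq] at hσ ⊢
    rw [← hπ, ← hσ, map_map]
    congr 1
  · intro σ _ σ' _ hh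
    ext x
    have := congrArg (fun f : P ≃ Q => f (π x)) hh
    simpa using this

/-- the preimage of a set under a random bijection is a uniformly random set -/
theorem card_preimage_eq {P Q : Type} [Fintype P] [DecidableEq P] [Fintype Q] [DecidableEq Q]
    (hPQ : Fintype.card P = Fintype.card Q) (S : Finset Q) (Z : Finset P) :
    (univ.filter fun σ : P ≃ Q => S.map σ.symm.toEmbedding = Z).card *
      (Fintype.card P).choose S.card ≤ Fintype.card (P ≃ Q) := by
  classical
  by_cases hc : Z.card = S.card
  · have hmaps : ∀ σ ∈ (univ : Finset (P ≃ Q)),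
        S.map σ.symm.toEmbedding ∈ powersetCard S.card (univ : Finset P) := by
      intro σ _
      rw [mem_powersetCard]
      exact ⟨subset_univ _, card_map _⟩
    have h1 := card_eq_sum_card_fiberwise (f := fun σ : P ≃ Q => S.map σ.symm.toEmbedding)
      (s := univ) (t := powersetCard S.card (univ : Finset P)) hmaps
    rw [card_univ] at h1
    rw [h1]
    have h2 : ∑ Z' ∈ powersetCard S.card (univ : Finset P),
        (univ.filter fun σ : P ≃ Q => S.map σ.symm.toEmbedding = Z).card ≤
        ∑ Z' ∈ powersetCard S.card (univ : Finset P),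
        (univ.filter fun σ : P ≃ Q => S.map σ.symm.toEmbedding = Z').card := by
      refine sum_le_sum ?_
      intro Z' hZ'
      rw [mem_powersetCard] at hZ'
      exact Sets_le S Z Z' (hc.trans hZ'.2.symm)
    rw [sum_const, card_powersetCard, card_univ, smul_eq_mul, mul_comm] at h2
    exact h2
  · have : (univ.filter fun σ : P ≃ Q => S.map σ.symm.toEmbedding = Z) = ∅ := by
      rw [filter_eq_empty_iff]
      intro σ _ h
      exact hc (by rw [← h, card_map])
    rw [this, card_empty, zero_mul]
    exact Nat.zero_le _

/-- few bijections map `S` near `Y` -/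
theorem card_close {P Q : Type} [Fintype P] [DecidableEq P] [Fintype Q] [DecidableEq Q]
    (hPQ : Fintype.card P = Fintype.card Q) (S : Finset Q) (Y : Finset P) (d : ℕ) :
    (univ.filter fun σ : P ≃ Q => (symmDiff (S.map σ.symm.toEmbedding) Y).card ≤ d).card *
      (Fintype.card P).choose S.card ≤ (Fintype.card P + 1) ^ d * Fintype.card (P ≃ Q) := by
  classical
  have hmaps : ∀ σ ∈ (univ.filter fun σ : P ≃ Q =>
      (symmDiff (S.map σ.symm.toEmbedding) Y).card ≤ d),
      S.map σ.symm.toEmbedding ∈ (univ.filter fun Z : Finset P => (symmDiff Z Y).card ≤ d) := by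
    intro σ hσ
    simpa using hσ
  have h1 := card_eq_sum_card_fiberwise (f := fun σ : P ≃ Q => S.map σ.symm.toEmbedding) hmaps
  rw [h1, sum_mul]
  have h2 : ∀ Z ∈ (univ.filter fun Z : Finset P => (symmDiff Z Y).card ≤ d),
      ((univ.filter fun σ : P ≃ Q => (symmDiff (S.map σ.symm.toEmbedding) Y).card ≤ d).filter
        fun σ => S.map σ.symm.toEmbedding = Z).card * (Fintype.card P).choose S.card ≤
        Fintype.card (P ≃ Q) := by
    intro Z _
    refine le_trans (Nat.mul_le_mul_right _ (card_le_card ?_)) (card_preimage_eq hPQ S Z)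
    intro σ hσ
    rw [mem_filter] at hσ ⊢
    exact ⟨mem_univ _, hσ.2⟩
  refine (sum_le_sum h2).trans ?_
  rw [sum_const, smul_eq_mul]
  exact Nat.mul_le_mul_right _ (card_near Y d)

/-- the edge boundary -/
def bd {P V B : Type} [Fintype P] [DecidableEq V] [DecidableEq B] (var : P → V) (blk : P → B)
    (S : Finset V) (T : Finset B) : ℕ :=
  (univ.filter fun x => ¬ (var x ∈ S ↔ blk x ∈ T)).card

variable {v b r k : ℕ}

/-- few designs have a small boundary of `(S, T)` -/
theorem card_bd_le (hm : v * r = b * k) (S : Finset (Fin v)) (T : Finset (Fin b)) (d : ℕ) :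
    (univ.filter fun σ : (Fin b × Fin k) ≃ (Fin v × Fin r) =>
        bd (vr σ) (Prod.fst : Fin b × Fin k → Fin b) S T ≤ d).card * (v * r).choose (S.card * r) ≤
      (v * r + 1) ^ d * Fintype.card ((Fin b × Fin k) ≃ (Fin v × Fin r)) := by
  classical
  have hP : Fintype.card (Fin b × Fin k) = v * r := by
    rw [Fintype.card_prod, Fintype.card_fin, Fintype.card_fin, hm]
  have hQ : Fintype.card (Fin v × Fin r) = v * r := by
    rw [Fintype.card_prod, Fintype.card_fin, Fintype.card_fin]
  have h := card_close (hP.trans hQ.symm) (S ×ˢ (univ : Finset (Fin r)))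
    (univ.filter fun x : Fin b × Fin k => x.1 ∈ T) d
  have hS : (S ×ˢ (univ : Finset (Fin r))).card = S.card * r := by
    rw [card_product, card_univ, Fintype.card_fin]
  rw [hP, hS] at h
  have hbd : ∀ σ : (Fin b × Fin k) ≃ (Fin v × Fin r),
      bd (vr σ) (Prod.fst : Fin b × Fin k → Fin b) S T =
      (symmDiff ((S ×ˢ (univ : Finset (Fin r))).map σ.symm.toEmbedding)
        (univ.filter fun x : Fin b × Fin k => x.1 ∈ T)).card := by
    intro σ
    unfold bd
    congr 1
    ext x
    have hx : x ∈ (S ×ˢ (univ : Finset (Fin r))).map σ.symm.toEmbedding ↔ (σ x).1 ∈ S := by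
      rw [mem_map_equiv]
      simp
    rw [mem_symmDiff, hx]
    simp only [mem_filter, mem_univ, true_and, vr]
    tauto
  simp only [hbd]
  exact h

/-- `| r |S| - k |T| | ≤ bd` -/
theorem bd_ge {P V B : Type} [Fintype P] [DecidableEq P] [Fintype V] [DecidableEq V] [Fintype B]
    [DecidableEq B] {var : P → V} {blk : P → B} {r k : ℕ} (hv : Unif var r) (hb : Unif blk k)
    (S : Finset V) (T : Finset B) :
    S.card * r ≤ T.card * k + bd var blk S T ∧ T.card * k ≤ S.card * r + bd var blk S T := by
  classical
  have h1 : (univ.filter fun x => var x ∈ S).card = S.card * r := by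
    have hmaps : ∀ x ∈ (univ.filter fun x => var x ∈ S), var x ∈ S := by
      intro x hx
      exact (mem_filter.mp hx).2
    rw [card_eq_sum_card_fiberwise (f := var) hmaps]
    rw [sum_congr rfl (g := fun _ => r), sum_const, smul_eq_mul]
    intro i hi
    rw [← hv i]
    congr 1
    ext x
    simp only [mem_filter, mem_univ, true_and]
    constructor
    · rintro ⟨-, h⟩; exact h
    · intro h; exact ⟨by rw [h]; exact hi, h⟩
  have h2 : (univ.filter fun x => blk x ∈ T).card = T.card * k := by
    have hmaps : ∀ x ∈ (univ.filter fun x => blk x ∈ T), blk x ∈ T := by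
      intro x hx
      exact (mem_filter.mp hx).2
    rw [card_eq_sum_card_fiberwise (f := blk) hmaps]
    rw [sum_congr rfl (g := fun _ => k), sum_const, smul_eq_mul]
    intro i hi
    rw [← hb i]
    congr 1
    ext x
    simp only [mem_filter, mem_univ, true_and]
    constructor
    · rintro ⟨-, h⟩; exact h
    · intro h; exact ⟨by rw [h]; exact hi, h⟩
  rw [← h1, ← h2]
  unfold bd
  constructor
  · refine le_trans (card_le_card ?_) (card_union_le _ _)
    intro x hx
    simp only [mem_filter, mem_univ, true_and, mem_union] at hx ⊢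
    tauto
  · refine le_trans (card_le_card ?_) (card_union_le _ _)
    intro x hx
    simp only [mem_filter, mem_univ, true_and, mem_union] at hx ⊢
    tauto

end Pool.Agent.Lib.MP_a7e07e_co.Sp
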