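import Pool.Agent.Lib.MP_a7e07e_co.Sp.Improve
import Pool.Agent.Lib.MP_a7e07e_co.Sp.Ref
import Pool.Agent.Lib.MP_a7e07e_co.Sp.Num
import Pool.Agent.Lib.MP_a7e07e_co.Sp.Bridge

set_option autoImplicit false

/-! # Theorem B: sparse designs -/

namespace Pool.Agent.Lib.MP_a7e07e_co.Sp

open Matrix Finset

/-- a swap keeps the classes uniform -/
theorem Sparse_unif_sw {P V : Type} [Fintype P] [DecidableEq P] [DecidableEq V] {var : P → V}
    {r : ℕ} (h : Unif var r) (x e : P) : Unif (sw var x e) r := by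
  intro i
  rw [← h i]
  refine card_bij' (fun y _ => Equiv.swap x e y) (fun y _ => Equiv.swap x e y) ?_ ?_ ?_ ?_
  · intro y hy
    simpa [sw] using hy
  · intro y hy
    simpa [sw] using hy
  · intro y _
    simp
  · intro y _
    simp

/-- a swap gives a design -/
theorem Sparse_isD_sw {P V B : Type} [Fintype P] [DecidableEq P] [Fintype V] [DecidableEq V]
    [Fintype B] [DecidableEq B] {var : P → V} {blk : P → B} {r k : ℕ} (h : IsD var blk r k)
    (x e : P) : IsD (sw var x e) blk r k :=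
  ⟨h.hr, h.hk, h.hrk, Sparse_unif_sw h.uv x e, h.ub, h.ne⟩

/-- a design which minimises the criterion over all designs is binary -/
theorem min_binary : ∃ C : ℕ, ∀ v b k r : ℕ, 2 ≤ r → 2 ≤ k → 5 ≤ r + k → v * r = b * k →
    C ≤ v * r → C * (r * k) * (Nat.log 2 (v * r)) ^ 30 ≤ v * r →
    ∀ N : Matrix (Fin v) (Fin b) ℕ, (∀ j, ∑ i, N i j = k) → (∀ i, ∑ j, N i j = r) →
      (FM k r N).det ≠ 0 →
      (∀ M : Matrix (Fin v) (Fin b) ℕ, (∀ j, ∑ i, M i j = k) → (∀ i, ∑ j, M i j = r) →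
        (FM k r M).det ≠ 0 → ((FM k r N)⁻¹).trace ≤ ((FM k r M)⁻¹).trace) →
      ∀ i j, N i j ≤ 1 := by
  obtain ⟨m0, c, href⟩ := ref
  obtain ⟨C1, hnum⟩ := num c
  refine ⟨max m0 C1, ?_⟩
  intro v b k r hr hk hrk hvr hC hC30 N hc hrow hdet hmin i j
  by_contra hNij
  push Not at hNij
  obtain ⟨P, instF, instD, var, blk, huv, hub, hmat⟩ := exists_design N hc hrow
  -- the two equal plots
  have hcard : 1 < (univ.filter fun x => var x = i ∧ blk x = j).card := by
    have h1 : mat var blk i j = N i j := by rw [hmat]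
    rw [mat] at h1
    rw [h1]
    exact hNij
  obtain ⟨x, hx, x1, hx1, hne⟩ := Finset.one_lt_card.1 hcard
  simp only [mem_filter, mem_univ, true_and] at hx hx1
  have hD : IsD var blk r k := ⟨hr, hk, hrk, huv, hub, ⟨x⟩⟩
  have hdetX : (XX var blk r k).det ≠ 0 := (det_bridge hD).1 (by rw [hmat]; exact hdet)
  have hm0 : m0 ≤ v * r := le_trans (le_max_left _ _) hC
  have hC1 : C1 ≤ v * r := le_trans (le_max_right _ _) hC
  have hC1' : C1 * (r * k) * (Nat.log 2 (v * r)) ^ 30 ≤ v * r := by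
    refine le_trans ?_ hC30
    gcongr
    exact le_max_right _ _
  have hrpos : (0 : ℝ) < r := by
    have : 0 < r := by omega
    exact_mod_cast this
  -- the reference design
  obtain ⟨var0, Sb, hD0, hdet0, hff0⟩ := href v b r k hr hk hrk hvr hm0
  have hcmp : ff var blk r k ≤ ff var0 (Prod.fst : Fin b × Fin k → Fin b) r k := by
    have h1 := hmin (mat var0 (Prod.fst : Fin b × Fin k → Fin b)) (mat_col hD0.ub)
      (mat_row hD0.uv) ((det_bridge hD0).2 hdet0)
    rw [trace_bridge hD0 hdet0, ← hmat, trace_bridge hD hdetX] at h1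
    have h2 : (1 / (r : ℝ)) * ff var blk r k ≤
        (1 / (r : ℝ)) * ff var0 (Prod.fst : Fin b × Fin k → Fin b) r k := by linarith
    exact le_of_mul_le_mul_left h2 (by positivity)
  -- the parameters
  have hv' : v ≤ v * r := Nat.le_mul_of_pos_right v (by omega)
  obtain ⟨Sa, S, jj, h1, h2, h3, h4, h5, h6⟩ := hnum r k v (v * r) hr hk hv' hC1 hC1'
  have hcardP : Fintype.card P = v * r := by
    have := card_eq huv
    rw [this, Fintype.card_fin]
  have hcardV : (Fintype.card (Fin v) : ℝ) = v := by simp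
  have hη : (0 : ℝ) ≤ (c : ℝ) * (Nat.log 2 (v * r) : ℝ) ^ 9 := by positivity
  obtain ⟨e, he1, he2⟩ := improve hD hdetX hne (hx.1.trans hx1.1.symm) (hx.2.trans hx1.2.symm)
    (η := (c : ℝ) * (Nat.log 2 (v * r) : ℝ) ^ 9) hη (Sa := Sa) (Sb := Sb) (S := S) (j := jj)
    (L := jj * S) (by rw [hcardV]; exact hcmp.trans hff0) (by rw [hcardV]; exact h1) h2 h4 rfl h3
    h5 (by rw [hcardP]; exact h6)
  have hD' := Sparse_isD_sw hD x e
  have h7 := hmin (mat (sw var x e) blk) (mat_col hD'.ub) (mat_row hD'.uv)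
    ((det_bridge hD').2 he1)
  rw [trace_bridge hD' he1, ← hmat, trace_bridge hD hdetX] at h7
  have h8 : (1 / (r : ℝ)) * ff var blk r k ≤ (1 / (r : ℝ)) * ff (sw var x e) blk r k := by
    linarith
  have h9 := le_of_mul_le_mul_left h8 (by positivity)
  linarith

/-- **Theorem B** -/
theorem sparse : ∃ C : ℕ, ∀ (v b k r : ℕ) (N : Matrix (Fin v) (Fin b) ℕ), 2 ≤ v →
    C ≤ v * r → C * k * (Nat.log 2 (v * r)) ^ 30 ≤ v →
    (∀ j, ∑ i, N i j = k) → (∀ i, ∑ j, N i j = r) → (∃ i j, 2 ≤ N i j) →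
    (FM k r N).det ≠ 0 →
    ∃ M : Matrix (Fin v) (Fin b) ℕ, (∀ j, ∑ i, M i j = k) ∧ (∀ i, ∑ j, M i j = r) ∧
      (∀ i j, M i j ≤ 1) ∧ (FM k r M).det ≠ 0 ∧
      ((FM k r M)⁻¹).trace < ((FM k r N)⁻¹).trace := by
  obtain ⟨C, hC⟩ := min_binary
  refine ⟨C, ?_⟩
  intro v b k r N hv hCm hCk hc hrow hN hdet
  obtain ⟨hr, hk, hrk⟩ := param_of_nonbinary hv N hc hrow hN hdet
  have hvr : v * r = b * k := by
    have h1 : ∑ i, ∑ j, N i j = v * r := by
      rw [Finset.sum_congr rfl fun i _ => hrow i]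
      simp
    have h2 : ∑ j, ∑ i, N i j = b * k := by
      rw [Finset.sum_congr rfl fun j _ => hc j]
      simp
    rw [← h1, ← h2, Finset.sum_comm]
  have hC30 : C * (r * k) * (Nat.log 2 (v * r)) ^ 30 ≤ v * r := by
    calc C * (r * k) * (Nat.log 2 (v * r)) ^ 30
        = (C * k * (Nat.log 2 (v * r)) ^ 30) * r := by ring
      _ ≤ v * r := Nat.mul_le_mul_right r hCk
  have hmb := hC v b k r hr hk hrk hvr hCm hC30
  -- the finite set of all connected designs
  let D : Set (Matrix (Fin v) (Fin b) ℕ) :=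
    {M | (∀ j, ∑ i, M i j = k) ∧ (∀ i, ∑ j, M i j = r) ∧ (FM k r M).det ≠ 0}
  have hfin : D.Finite := by
    have h1 : (Set.pi Set.univ fun _ : Fin v => Set.pi Set.univ fun _ : Fin b =>
        Set.Iic k).Finite :=
      Set.Finite.pi fun _ => Set.Finite.pi fun _ => Set.finite_Iic k
    refine Set.Finite.subset h1 ?_
    intro M hM
    rw [Set.mem_pi]
    intro i _
    rw [Set.mem_pi]
    intro j _
    rw [Set.mem_Iic, ← hM.1 j]
    exact Finset.single_le_sum (f := fun i => M i j) (fun _ _ => Nat.zero_le _) (mem_univ i)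
  have hND : N ∈ D := ⟨hc, hrow, hdet⟩
  obtain ⟨M, hMD, hMmin⟩ := Set.exists_min_image D (fun M => ((FM k r M)⁻¹).trace) hfin ⟨N, hND⟩
  have hMb : ∀ i j, M i j ≤ 1 := hmb M hMD.1 hMD.2.1 hMD.2.2
    (fun M' h1 h2 h3 => hMmin M' ⟨h1, h2, h3⟩)
  refine ⟨M, hMD.1, hMD.2.1, hMb, hMD.2.2, ?_⟩
  by_contra hlt
  push Not at hlt
  have hNb : ∀ i j, N i j ≤ 1 := hmb N hc hrow hdet
    (fun M' h1 h2 h3 => hlt.trans (hMmin M' ⟨h1, h2, h3⟩))
  obtain ⟨i, j, hij⟩ := hN
  have := hNb i j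
  omega

end Pool.Agent.Lib.MP_a7e07e_co.Sp
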