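import Pool.Agent.Lib.MP_a7e07e_co.Sp.Walk

set_option autoImplicit false

/-! # The exchange of two plots: closed walks -/

namespace Pool.Agent.Lib.MP_a7e07e_co.Sp

open Matrix Finset

variable {P V B : Type} [Fintype P] [DecidableEq P] [Fintype V] [DecidableEq V] [Fintype B]
  [DecidableEq B] {var : P → V} {blk : P → B} {r k : ℕ}

theorem IsD.sw (h : IsD var blk r k) (x e : P) : IsD (sw var x e) blk r k := by
  refine ⟨h.hr, h.hk, h.hrk, fun i => ?_, h.ub, h.ne⟩
  rw [← h.uv i]
  refine Finset.card_bij (fun y _ => Equiv.swap x e y) ?_ ?_ ?_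
  · intro y hy
    rw [Finset.mem_filter] at hy ⊢
    exact ⟨Finset.mem_univ _, hy.2⟩
  · intro y _ z _ hyz
    exact (Equiv.swap x e).injective hyz
  · intro z hz
    refine ⟨Equiv.swap x e z, ?_, Equiv.swap_apply_self x e z⟩
    rw [Finset.mem_filter] at hz ⊢
    refine ⟨Finset.mem_univ _, ?_⟩
    show var (Equiv.swap x e (Equiv.swap x e z)) = i
    rw [Equiv.swap_apply_self]
    exact hz.2

/-- projection to the complement of `{x, e}` -/
noncomputable def QQ (x e : P) : Matrix P P ℝ :=
  Matrix.diagonal fun y => if y = x ∨ y = e then 0 else 1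

/-- two steps of the walk which avoid `{x, e}` -/
noncomputable def GG (var : P → V) (blk : P → B) (r k : ℕ) (x e : P) : Matrix P P ℝ :=
  cw blk k * QQ x e * cw var r * QQ x e

/-- two steps of the reversed walk which avoid `{x, e}` -/
noncomputable def GR (var : P → V) (blk : P → B) (r k : ℕ) (x e : P) : Matrix P P ℝ :=
  cw var r * QQ x e * cw blk k * QQ x e

/-- the diagonal of `QQ` -/
noncomputable def SwapA_q (x e y : P) : ℝ := if y = x ∨ y = e then 0 else 1

theorem SwapA_q_nonneg (x e y : P) : 0 ≤ SwapA_q x e y := by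
  unfold SwapA_q
  split_ifs <;> norm_num

theorem SwapA_q_le (x e y : P) : SwapA_q x e y ≤ 1 := by
  unfold SwapA_q
  split_ifs <;> norm_num

theorem SwapA_GG_apply (x e y z : P) : GG var blk r k x e y z =
    ∑ w, cw blk k y w * cw var r w z * (SwapA_q x e w * SwapA_q x e z) := by
  unfold GG QQ
  rw [Matrix.mul_diagonal, Matrix.mul_apply, Finset.sum_mul]
  refine Finset.sum_congr rfl fun w _ => ?_
  rw [Matrix.mul_diagonal]
  unfold SwapA_q
  ring

theorem SwapA_AA_apply (y z : P) : AA var blk r k y z = ∑ w, cw blk k y w * cw var r w z := by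
  unfold AA
  rw [Matrix.mul_apply]

/-- the avoiding walk is the same for the design with `x`, `e` exchanged -/
theorem GG_sw (x e : P) : GG (sw var x e) blk r k x e = GG var blk r k x e := by
  ext y z
  rw [SwapA_GG_apply, SwapA_GG_apply]
  refine Finset.sum_congr rfl fun w _ => ?_
  by_cases hw : w = x ∨ w = e
  · simp [SwapA_q, hw]
  by_cases hz : z = x ∨ z = e
  · simp [SwapA_q, hz]
  rw [not_or] at hw hz
  have h1 : sw var x e w = var w := by
    unfold sw
    rw [Function.comp_apply, Equiv.swap_apply_of_ne_of_ne hw.1 hw.2]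
  have h2 : sw var x e z = var z := by
    unfold sw
    rw [Function.comp_apply, Equiv.swap_apply_of_ne_of_ne hz.1 hz.2]
  have h3 : cw (sw var x e) r w z = cw var r w z := by
    unfold cw
    rw [h1, h2]
  rw [h3]

theorem SwapA_GG_nonneg (h : IsD var blk r k) (x e y z : P) : 0 ≤ GG var blk r k x e y z := by
  rw [SwapA_GG_apply]
  exact Finset.sum_nonneg fun w _ => mul_nonneg (mul_nonneg (cw_nonneg h.hk y w)
    (cw_nonneg h.hr w z)) (mul_nonneg (SwapA_q_nonneg _ _ _) (SwapA_q_nonneg _ _ _))

theorem SwapA_GG_le (h : IsD var blk r k) (x e y z : P) :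
    GG var blk r k x e y z ≤ AA var blk r k y z := by
  rw [SwapA_GG_apply, SwapA_AA_apply]
  refine Finset.sum_le_sum fun w _ => ?_
  have h1 := mul_nonneg (cw_nonneg (c := blk) h.hk y w) (cw_nonneg (c := var) h.hr w z)
  have h2 : SwapA_q x e w * SwapA_q x e z ≤ 1 :=
    mul_le_one₀ (SwapA_q_le _ _ _) (SwapA_q_nonneg _ _ _) (SwapA_q_le _ _ _)
  calc _ ≤ cw blk k y w * cw var r w z * 1 := mul_le_mul_of_nonneg_left h2 h1
    _ = _ := mul_one _

theorem SwapA_mul_nonneg {M N : Matrix P P ℝ} (hM : ∀ y z, 0 ≤ M y z) (hN : ∀ y z, 0 ≤ N y z)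
    (y z : P) : 0 ≤ (M * N) y z := by
  rw [Matrix.mul_apply]
  exact Finset.sum_nonneg fun w _ => mul_nonneg (hM y w) (hN w z)

theorem SwapA_mul_le {M M' N N' : Matrix P P ℝ} (hM : ∀ y z, 0 ≤ M y z)
    (hN' : ∀ y z, 0 ≤ N' y z) (h1 : ∀ y z, M y z ≤ M' y z) (h2 : ∀ y z, N y z ≤ N' y z)
    (y z : P) : (M * N) y z ≤ (M' * N') y z := by
  rw [Matrix.mul_apply, Matrix.mul_apply]
  refine Finset.sum_le_sum fun w _ => ?_
  exact (mul_le_mul_of_nonneg_left (h2 w z) (hM y w)).trans
    (mul_le_mul_of_nonneg_right (h1 y w) (hN' w z))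

theorem GG_nonneg (h : IsD var blk r k) (x e : P) (l : ℕ) (y z : P) :
    0 ≤ ((GG var blk r k x e) ^ l) y z := by
  induction l generalizing y z with
  | zero =>
    rw [pow_zero, Matrix.one_apply]
    split_ifs <;> norm_num
  | succ l ih =>
    rw [pow_succ]
    exact SwapA_mul_nonneg ih (SwapA_GG_nonneg h x e) y z

theorem GG_le (h : IsD var blk r k) (x e : P) (l : ℕ) (y z : P) :
    ((GG var blk r k x e) ^ l) y z ≤ ((AA var blk r k) ^ l) y z := by
  induction l generalizing y z with
  | zero => rw [pow_zero, pow_zero]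
  | succ l ih =>
    rw [pow_succ, pow_succ]
    refine SwapA_mul_le (GG_nonneg h x e l) (fun y z => ?_) ih (SwapA_GG_le h x e) y z
    have := AA_nonneg h 1 y z
    rwa [pow_one] at this

/-- the weight of the two plots -/
noncomputable def SwapA_D (x e : P) : Matrix P P ℝ := Matrix.diagonal fun y => 1 - SwapA_q x e y

theorem SwapA_sum_D (x e : P) (f : P → ℝ) (hf : ∀ y, 0 ≤ f y) :
    ∑ y, (1 - SwapA_q x e y) * f y ≤ f x + f e := by
  have h1 : ∀ y, (1 - SwapA_q x e y) * f y ≤
      (if y = x then f y else 0) + (if y = e then f y else 0) := by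
    intro y
    unfold SwapA_q
    by_cases hx : y = x
    · by_cases he : y = e
      · rw [if_pos (Or.inl hx), if_pos hx, if_pos he]
        linarith [hf y]
      · rw [if_pos (Or.inl hx), if_pos hx, if_neg he]
        linarith
    · by_cases he : y = e
      · rw [if_pos (Or.inr he), if_neg hx, if_pos he]
        linarith
      · rw [if_neg (not_or.2 ⟨hx, he⟩), if_neg hx, if_neg he]
        linarith
  refine (Finset.sum_le_sum fun y _ => h1 y).trans (le_of_eq ?_)
  rw [Finset.sum_add_distrib, Finset.sum_ite_eq' univ x f, Finset.sum_ite_eq' univ e f,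
    if_pos (Finset.mem_univ _), if_pos (Finset.mem_univ _)]

theorem SwapA_AR_pow (l : ℕ) :
    (AR var blk r k) ^ (l + 1) = cw var r * (AA var blk r k) ^ l * cw blk k := by
  induction l with
  | zero => rw [pow_one, pow_zero, Matrix.mul_one]; rfl
  | succ l ih =>
    rw [pow_succ, ih, pow_succ (AA var blk r k)]
    unfold AR AA
    simp only [Matrix.mul_assoc]

/-- `A - G ≤ κ D ϱ + κ ϱ D` -/
theorem SwapA_diff_le (h : IsD var blk r k) (x e y z : P) :
    AA var blk r k y z - GG var blk r k x e y z ≤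
      (cw blk k * SwapA_D x e * cw var r + cw blk k * cw var r * SwapA_D x e) y z := by
  rw [SwapA_GG_apply, SwapA_AA_apply, Matrix.add_apply]
  unfold SwapA_D
  rw [Matrix.mul_diagonal, Matrix.mul_apply, Matrix.mul_apply, Finset.sum_mul,
    ← Finset.sum_sub_distrib, ← Finset.sum_add_distrib]
  refine Finset.sum_le_sum fun w _ => ?_
  rw [Matrix.mul_diagonal]
  have h1 := mul_nonneg (cw_nonneg (c := blk) h.hk y w) (cw_nonneg (c := var) h.hr w z)
  have h2 := SwapA_q_nonneg x e w
  have h3 := SwapA_q_nonneg x e z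
  have h4 := SwapA_q_le x e w
  have h5 := SwapA_q_le x e z
  have h6 : 0 ≤ (1 - SwapA_q x e w) * (1 - SwapA_q x e z) :=
    mul_nonneg (by linarith) (by linarith)
  nlinarith [mul_nonneg h1 h6]

theorem SwapA_trace_le {M N : Matrix P P ℝ} (h : ∀ y z, M y z ≤ N y z) : M.trace ≤ N.trace :=
  Finset.sum_le_sum fun y _ => h y y

theorem SwapA_trace_diff (h : IsD var blk r k) (x e : P) (l : ℕ) :
    ((AA var blk r k - GG var blk r k x e) * (AA var blk r k) ^ l).trace ≤
      2 * (((AA var blk r k) ^ (l + 1)) x x + ((AA var blk r k) ^ (l + 1)) e e) := by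
  have h1 : ((AA var blk r k - GG var blk r k x e) * (AA var blk r k) ^ l).trace ≤
      ((cw blk k * SwapA_D x e * cw var r + cw blk k * cw var r * SwapA_D x e) *
        (AA var blk r k) ^ l).trace := by
    refine SwapA_trace_le fun y z => ?_
    rw [Matrix.mul_apply, Matrix.mul_apply]
    refine Finset.sum_le_sum fun w _ => ?_
    refine mul_le_mul_of_nonneg_right ?_ (AA_nonneg h l w z)
    rw [Matrix.sub_apply]
    exact SwapA_diff_le h x e y w
  refine h1.trans ?_
  rw [Matrix.add_mul, Matrix.trace_add]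
  have h2 : (cw blk k * SwapA_D x e * cw var r * (AA var blk r k) ^ l).trace ≤
      ((AA var blk r k) ^ (l + 1)) x x + ((AA var blk r k) ^ (l + 1)) e e := by
    have e1 : (cw blk k * SwapA_D x e * cw var r * (AA var blk r k) ^ l).trace =
        (SwapA_D x e * (AR var blk r k) ^ (l + 1)).trace := by
      rw [SwapA_AR_pow, Matrix.mul_assoc, Matrix.mul_assoc, Matrix.trace_mul_comm]
      congr 1
      simp only [Matrix.mul_assoc]
    rw [e1]
    have e2 : (SwapA_D x e * (AR var blk r k) ^ (l + 1)).trace =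
        ∑ y, (1 - SwapA_q x e y) * ((AA var blk r k) ^ (l + 1)) y y := by
      unfold Matrix.trace SwapA_D
      refine Finset.sum_congr rfl fun y _ => ?_
      rw [Matrix.diag_apply, Matrix.diagonal_mul, AR_eq_transpose, Matrix.transpose_apply]
    rw [e2]
    exact SwapA_sum_D x e _ fun y => AA_nonneg h (l + 1) y y
  have h3 : (cw blk k * cw var r * SwapA_D x e * (AA var blk r k) ^ l).trace ≤
      ((AA var blk r k) ^ (l + 1)) x x + ((AA var blk r k) ^ (l + 1)) e e := by
    have e1 : (cw blk k * cw var r * SwapA_D x e * (AA var blk r k) ^ l).trace =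
        (SwapA_D x e * (AA var blk r k) ^ (l + 1)).trace := by
      rw [pow_succ, Matrix.mul_assoc, Matrix.trace_mul_comm]
      congr 1
      unfold AA
      simp only [Matrix.mul_assoc]
    rw [e1]
    have e2 : (SwapA_D x e * (AA var blk r k) ^ (l + 1)).trace =
        ∑ y, (1 - SwapA_q x e y) * ((AA var blk r k) ^ (l + 1)) y y := by
      unfold Matrix.trace SwapA_D
      refine Finset.sum_congr rfl fun y _ => ?_
      rw [Matrix.diag_apply, Matrix.diagonal_mul]
    rw [e2]
    exact SwapA_sum_D x e _ fun y => AA_nonneg h (l + 1) y y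
  linarith

theorem SwapA_step (h : IsD var blk r k) (x e : P) (i j : ℕ) :
    ((GG var blk r k x e) ^ i * (AA var blk r k) ^ (j + 1)).trace ≤
      ((GG var blk r k x e) ^ (i + 1) * (AA var blk r k) ^ j).trace
      + 2 * (((AA var blk r k) ^ (i + j + 1)) x x + ((AA var blk r k) ^ (i + j + 1)) e e) := by
  have hd : ∀ y z, 0 ≤ (AA var blk r k - GG var blk r k x e) y z := fun y z => by
    rw [Matrix.sub_apply]
    linarith [SwapA_GG_le h x e y z]
  have h1 : ((GG var blk r k x e) ^ i * (AA var blk r k) ^ (j + 1)).trace -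
      ((GG var blk r k x e) ^ (i + 1) * (AA var blk r k) ^ j).trace =
      ((GG var blk r k x e) ^ i * ((AA var blk r k - GG var blk r k x e) *
        (AA var blk r k) ^ j)).trace := by
    rw [← Matrix.trace_sub]
    congr 1
    rw [pow_succ' (AA var blk r k), pow_succ (GG var blk r k x e), Matrix.sub_mul,
      Matrix.mul_sub]
    simp only [Matrix.mul_assoc]
  have h2 : ((GG var blk r k x e) ^ i * ((AA var blk r k - GG var blk r k x e) *
        (AA var blk r k) ^ j)).trace ≤
      ((AA var blk r k) ^ i * ((AA var blk r k - GG var blk r k x e) *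
        (AA var blk r k) ^ j)).trace := by
    refine SwapA_trace_le fun y z => ?_
    exact SwapA_mul_le (GG_nonneg h x e i) (SwapA_mul_nonneg hd (AA_nonneg h j)) (GG_le h x e i)
      (fun _ _ => le_rfl) y z
  have h3 : ((AA var blk r k) ^ i * ((AA var blk r k - GG var blk r k x e) *
        (AA var blk r k) ^ j)).trace =
      ((AA var blk r k - GG var blk r k x e) * (AA var blk r k) ^ (i + j)).trace := by
    rw [Matrix.trace_mul_comm, Matrix.mul_assoc, ← pow_add, Nat.add_comm j i]
  have h4 := SwapA_trace_diff h x e (i + j)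
  linarith

/-- closed walks which meet `{x, e}` -/
theorem trace_le (h : IsD var blk r k) (x e : P) (l : ℕ) :
    tt var blk r k l ≤ ((GG var blk r k x e) ^ l).trace
      + 2 * l * (((AA var blk r k) ^ l) x x + ((AA var blk r k) ^ l) e e) := by
  have key : ∀ i j : ℕ, i + j = l → tt var blk r k l ≤
      ((GG var blk r k x e) ^ i * (AA var blk r k) ^ j).trace
      + 2 * i * (((AA var blk r k) ^ l) x x + ((AA var blk r k) ^ l) e e) := by
    intro i
    induction i with
    | zero =>
      intro j hj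
      rw [Nat.zero_add] at hj
      subst hj
      rw [pow_zero, Matrix.one_mul]
      simp [tt]
    | succ i ih =>
      intro j hj
      have h1 := ih (j + 1) (by omega)
      have h2 := SwapA_step h x e i j
      have h3 : i + j + 1 = l := by omega
      rw [h3] at h2
      push_cast
      linarith
  have h1 := key l 0 (by omega)
  rwa [pow_zero, Matrix.mul_one] at h1

/-- the closed walk between the two equal plots -/
theorem trace_ge (h : IsD var blk r k) {x x1 e : P} (hx : x ≠ x1) (hv : var x = var x1)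
    (hb : blk x = blk x1) (l : ℕ) :
    ((GG var blk r k x e) ^ l).trace + (if l = 1 then 2 / (((r : ℝ) - 1) * ((k : ℝ) - 1)) else 0)
      ≤ tt var blk r k l := by
  by_cases hl : l = 1
  · subst hl
    rw [if_pos rfl, pow_one]
    have h1 : tt var blk r k 1 = (AA var blk r k).trace := by
      unfold tt
      rw [pow_one]
    rw [h1]
    have h2 : ∀ y w, 0 ≤ cw blk k y w * cw var r w y * (1 - SwapA_q x e w * SwapA_q x e y) := by
      intro y w
      refine mul_nonneg (mul_nonneg (cw_nonneg h.hk y w) (cw_nonneg h.hr w y)) ?_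
      have : SwapA_q x e w * SwapA_q x e y ≤ 1 :=
        mul_le_one₀ (SwapA_q_le _ _ _) (SwapA_q_nonneg _ _ _) (SwapA_q_le _ _ _)
      linarith
    have h3 : (AA var blk r k).trace - (GG var blk r k x e).trace =
        ∑ y, ∑ w, cw blk k y w * cw var r w y * (1 - SwapA_q x e w * SwapA_q x e y) := by
      unfold Matrix.trace
      rw [← Finset.sum_sub_distrib]
      refine Finset.sum_congr rfl fun y _ => ?_
      rw [Matrix.diag_apply, Matrix.diag_apply, SwapA_GG_apply, SwapA_AA_apply,
        ← Finset.sum_sub_distrib]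
      refine Finset.sum_congr rfl fun w _ => ?_
      ring
    have hq : SwapA_q x e x = 0 := by simp [SwapA_q]
    have hk1 : cw blk k x x1 = ((k : ℝ) - 1)⁻¹ := by
      unfold cw
      rw [if_pos ⟨hx, hb⟩]
    have hk2 : cw blk k x1 x = ((k : ℝ) - 1)⁻¹ := by
      unfold cw
      rw [if_pos ⟨hx.symm, hb.symm⟩]
    have hr1 : cw var r x x1 = ((r : ℝ) - 1)⁻¹ := by
      unfold cw
      rw [if_pos ⟨hx, hv⟩]
    have hr2 : cw var r x1 x = ((r : ℝ) - 1)⁻¹ := by
      unfold cw
      rw [if_pos ⟨hx.symm, hv.symm⟩]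
    have h4 : ∀ y, 0 ≤ ∑ w, cw blk k y w * cw var r w y *
        (1 - SwapA_q x e w * SwapA_q x e y) := fun y => Finset.sum_nonneg fun w _ => h2 y w
    have h5 : ((k : ℝ) - 1)⁻¹ * ((r : ℝ) - 1)⁻¹ ≤ ∑ w, cw blk k x w * cw var r w x *
        (1 - SwapA_q x e w * SwapA_q x e x) := by
      refine le_trans (le_of_eq ?_) (Finset.single_le_sum (f := fun w => cw blk k x w *
        cw var r w x * (1 - SwapA_q x e w * SwapA_q x e x)) (fun w _ => h2 x w)
        (Finset.mem_univ x1))
      show _ = cw blk k x x1 * cw var r x1 x * (1 - SwapA_q x e x1 * SwapA_q x e x)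
      rw [hq, hk1, hr2]
      ring
    have h6 : ((k : ℝ) - 1)⁻¹ * ((r : ℝ) - 1)⁻¹ ≤ ∑ w, cw blk k x1 w * cw var r w x1 *
        (1 - SwapA_q x e w * SwapA_q x e x1) := by
      refine le_trans (le_of_eq ?_) (Finset.single_le_sum (f := fun w => cw blk k x1 w *
        cw var r w x1 * (1 - SwapA_q x e w * SwapA_q x e x1)) (fun w _ => h2 x1 w)
        (Finset.mem_univ x))
      show _ = cw blk k x1 x * cw var r x x1 * (1 - SwapA_q x e x * SwapA_q x e x1)
      rw [hq, hk2, hr1]
      ring
    have h7 : ∑ y ∈ {x, x1}, ∑ w, cw blk k y w * cw var r w y *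
        (1 - SwapA_q x e w * SwapA_q x e y) ≤ ∑ y, ∑ w, cw blk k y w * cw var r w y *
        (1 - SwapA_q x e w * SwapA_q x e y) :=
      Finset.sum_le_sum_of_subset_of_nonneg (Finset.subset_univ _) fun y _ _ => h4 y
    rw [Finset.sum_pair hx] at h7
    have h8 : 2 / (((r : ℝ) - 1) * ((k : ℝ) - 1)) =
        ((k : ℝ) - 1)⁻¹ * ((r : ℝ) - 1)⁻¹ + ((k : ℝ) - 1)⁻¹ * ((r : ℝ) - 1)⁻¹ := by
      rw [div_eq_mul_inv, mul_inv]
      ring
    rw [h8]
    linarith
  · rw [if_neg hl, add_zero]
    exact SwapA_trace_le (GG_le h x e l)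

theorem tt_sw_le (h : IsD var blk r k) {x x1 e : P} (hx : x ≠ x1) (hv : var x = var x1)
    (hb : blk x = blk x1) (l : ℕ) :
    tt (sw var x e) blk r k l - tt var blk r k l ≤
      2 * l * (((AA (sw var x e) blk r k) ^ l) x x + ((AA (sw var x e) blk r k) ^ l) e e)
        - (if l = 1 then 2 / (((r : ℝ) - 1) * ((k : ℝ) - 1)) else 0) := by
  have h1 := trace_le (h.sw x e) x e l
  rw [GG_sw] at h1
  have h2 := trace_ge h (e := e) hx hv hb l
  linarith

end Pool.Agent.Lib.MP_a7e07e_co.Sp
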