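import Pool.Agent.Lib.MP_a7e07e_co.Sp.SwapA

set_option autoImplicit false

/-! # The exchange of two plots: return probabilities -/

namespace Pool.Agent.Lib.MP_a7e07e_co.Sp

open Matrix Finset

variable {P V B : Type} [Fintype P] [DecidableEq P] [Fintype V] [DecidableEq V] [Fintype B]
  [DecidableEq B] {var : P → V} {blk : P → B} {r k : ℕ}

section General

/-- powers of entrywise smaller matrices -/
theorem SwapB_pow_le {G A : Matrix P P ℝ} (h0 : ∀ y z, 0 ≤ G y z) (h1 : ∀ y z, G y z ≤ A y z)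
    (l : ℕ) : ∀ y z, 0 ≤ (G ^ l) y z ∧ (G ^ l) y z ≤ (A ^ l) y z := by
  induction l with
  | zero =>
    intro y z
    rw [pow_zero, pow_zero, Matrix.one_apply]
    split_ifs <;> simp
  | succ l ih =>
    intro y z
    rw [pow_succ, pow_succ, Matrix.mul_apply, Matrix.mul_apply]
    constructor
    · exact sum_nonneg fun w _ => mul_nonneg (ih y w).1 (h0 w z)
    · exact sum_le_sum fun w _ => mul_le_mul (ih y w).2 (h1 w z) (h0 w z)
        ((ih y w).1.trans (ih y w).2)

/-- row sums of a product -/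
theorem SwapB_row_mul (M N : Matrix P P ℝ) (s : P) :
    ∑ y, (M * N) s y = ∑ z, M s z * ∑ y, N z y := by
  simp only [Matrix.mul_apply]
  rw [sum_comm]
  exact sum_congr rfl fun z _ => by rw [mul_sum]

theorem SwapB_row_pow {A : Matrix P P ℝ} (h : ∀ s, ∑ y, A s y = 1) (l : ℕ) :
    ∀ s, ∑ y, (A ^ l) s y = 1 := by
  induction l with
  | zero =>
    intro s
    simp [Matrix.one_apply]
  | succ l ih =>
    intro s
    rw [pow_succ, SwapB_row_mul]
    simp only [h, mul_one]
    exact ih s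

/-- the weight of the projection -/
noncomputable def SwapB_d (x e y : P) : ℝ := if y = x ∨ y = e then 0 else 1

theorem SwapB_d_nonneg (x e y : P) : 0 ≤ SwapB_d x e y := by
  unfold SwapB_d
  split_ifs <;> norm_num

theorem SwapB_d_le (x e y : P) : SwapB_d x e y ≤ 1 := by
  unfold SwapB_d
  split_ifs <;> norm_num

theorem SwapB_G_apply (K R : Matrix P P ℝ) (x e s z : P) :
    (K * QQ x e * R * QQ x e) s z
      = ∑ w, K s w * SwapB_d x e w * (R w z * SwapB_d x e z) := by
  unfold QQ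
  rw [Matrix.mul_diagonal, Matrix.mul_apply, sum_mul]
  refine sum_congr rfl fun w _ => ?_
  rw [Matrix.mul_diagonal]
  unfold SwapB_d
  ring

theorem SwapB_G_bd {K R : Matrix P P ℝ} (hK : ∀ y z, 0 ≤ K y z) (hR : ∀ y z, 0 ≤ R y z)
    (x e s z : P) : 0 ≤ (K * QQ x e * R * QQ x e) s z ∧
      (K * QQ x e * R * QQ x e) s z ≤ (K * R) s z := by
  rw [SwapB_G_apply, Matrix.mul_apply]
  constructor
  · exact sum_nonneg fun w _ => mul_nonneg (mul_nonneg (hK _ _) (SwapB_d_nonneg _ _ _))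
      (mul_nonneg (hR _ _) (SwapB_d_nonneg _ _ _))
  · refine sum_le_sum fun w _ => ?_
    have h1 : K s w * SwapB_d x e w ≤ K s w :=
      mul_le_of_le_one_right (hK _ _) (SwapB_d_le _ _ _)
    have h2 : R w z * SwapB_d x e z ≤ R w z :=
      mul_le_of_le_one_right (hR _ _) (SwapB_d_le _ _ _)
    exact mul_le_mul h1 h2 (mul_nonneg (hR _ _) (SwapB_d_nonneg _ _ _)) (hK _ _)

theorem SwapB_G_zero (K R : Matrix P P ℝ) {x e z : P} (hz : z = x ∨ z = e) (s : P) :
    (K * QQ x e * R * QQ x e) s z = 0 := by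
  rw [SwapB_G_apply]
  apply sum_eq_zero
  intro w _
  have : SwapB_d x e z = 0 := by
    unfold SwapB_d
    rw [if_pos hz]
  rw [this, mul_zero, mul_zero]

/-- the return to the start is a visit -/
theorem SwapB_ret {K R : Matrix P P ℝ} (hK : ∀ y z, 0 ≤ K y z) (hR : ∀ y z, 0 ≤ R y z)
    (rK : ∀ s, ∑ y, K s y = 1) (rR : ∀ s, ∑ y, R s y = 1) {x e s : P} (hs : s = x ∨ s = e)
    {l : ℕ} (hl : 1 ≤ l) :
    ((K * R) ^ l) s s ≤ 1 - ∑ y, ((K * QQ x e * R * QQ x e) ^ l) s y := by
  set G := K * QQ x e * R * QQ x e with hG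
  have hA : ∀ s, ∑ y, (K * R) s y = 1 := by
    intro s
    rw [SwapB_row_mul]
    simp only [rR, mul_one]
    exact rK s
  have h1 : ∀ y, (G ^ l) s y ≤ (if y = s then 0 else ((K * R) ^ l) s y) := by
    intro y
    by_cases hy : y = s
    · rw [if_pos hy]
      obtain ⟨m, rfl⟩ : ∃ m, l = m + 1 := ⟨l - 1, by omega⟩
      rw [pow_succ, Matrix.mul_apply]
      apply le_of_eq
      apply sum_eq_zero
      intro w _
      rw [hG, SwapB_G_zero K R (by rw [hy]; exact hs), mul_zero]
    · rw [if_neg hy]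
      exact (SwapB_pow_le (fun y z => (SwapB_G_bd hK hR x e y z).1)
        (fun y z => (SwapB_G_bd hK hR x e y z).2) l s y).2
  have h2 : ∑ y, (G ^ l) s y ≤ ∑ y, (if y = s then 0 else ((K * R) ^ l) s y) :=
    sum_le_sum fun y _ => h1 y
  have h3 : ∑ y, (if y = s then 0 else ((K * R) ^ l) s y) = 1 - ((K * R) ^ l) s s := by
    have h4 := SwapB_row_pow hA l s
    rw [← add_sum_erase univ _ (mem_univ s)] at h4
    rw [← add_sum_erase univ _ (mem_univ s), if_pos rfl, zero_add]
    rw [sum_congr rfl (fun y hy => if_neg (mem_erase.1 hy).1)]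
    linarith
  linarith

/-- the row sum of two avoiding steps -/
theorem SwapB_row_G {K R : Matrix P P ℝ} (hK : ∀ y z, 0 ≤ K y z) (hR : ∀ y z, 0 ≤ R y z)
    (rK : ∀ s, ∑ y, K s y = 1) (rR : ∀ s, ∑ y, R s y = 1) {x e : P} (hxe : x ≠ e) (s : P) :
    1 - ∑ y, (K * QQ x e * R * QQ x e) s y ≤
      K s e + K s x + ((K * R) s e + (K * R) s x) := by
  have hd : ∀ f : P → ℝ, ∑ y, f y * SwapB_d x e y = ∑ y, f y - f x - f e := by
    intro f
    have h1 : ∀ y, f y * SwapB_d x e y = f y - (if y = x then f y else 0)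
        - (if y = e then f y else 0) := by
      intro y
      unfold SwapB_d
      by_cases h1 : y = x
      · have h2 : y ≠ e := fun h => hxe (h1.symm.trans h)
        rw [if_pos (Or.inl h1), if_pos h1, if_neg h2]
        ring
      · by_cases h2 : y = e
        · rw [if_pos (Or.inr h2), if_neg h1, if_pos h2]
          ring
        · rw [if_neg (by tauto), if_neg h1, if_neg h2]
          ring
    simp only [h1]
    rw [sum_sub_distrib, sum_sub_distrib, sum_ite_eq' univ x, sum_ite_eq' univ e]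
    simp
  have h1 : ∑ y, (K * QQ x e * R * QQ x e) s y
      = ∑ w, K s w * SwapB_d x e w * (1 - R w x - R w e) := by
    simp only [SwapB_G_apply]
    rw [sum_comm]
    refine sum_congr rfl fun w _ => ?_
    rw [← mul_sum, hd, rR]
  have h2 : ∑ w, K s w * SwapB_d x e w * (1 - R w x - R w e)
      = ∑ w, K s w * SwapB_d x e w - ∑ w, K s w * SwapB_d x e w * (R w x + R w e) := by
    rw [← sum_sub_distrib]
    exact sum_congr rfl fun w _ => by ring
  have h3 : ∑ w, K s w * SwapB_d x e w * (R w x + R w e) ≤ (K * R) s e + (K * R) s x := by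
    rw [Matrix.mul_apply, Matrix.mul_apply, ← sum_add_distrib]
    refine sum_le_sum fun w _ => ?_
    have h4 : K s w * SwapB_d x e w ≤ K s w :=
      mul_le_of_le_one_right (hK _ _) (SwapB_d_le _ _ _)
    have h5 := mul_le_mul_of_nonneg_right h4 (add_nonneg (hR w x) (hR w e))
    linarith
  rw [h1, h2, hd (fun w => K s w), rK]
  linarith

/-- union bound -/
theorem SwapB_avoid {K R : Matrix P P ℝ} (hK : ∀ y z, 0 ≤ K y z) (hR : ∀ y z, 0 ≤ R y z)
    (rK : ∀ s, ∑ y, K s y = 1) (rR : ∀ s, ∑ y, R s y = 1) {x e : P} (hxe : x ≠ e) (s : P)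
    (l : ℕ) : 1 - ∑ y, ((K * QQ x e * R * QQ x e) ^ l) s y ≤
      ∑ i ∈ range l, (((K * R) ^ i * K) s e + ((K * R) ^ i * K) s x
        + ((K * R) ^ (i + 1)) s e + ((K * R) ^ (i + 1)) s x) := by
  set G := K * QQ x e * R * QQ x e with hG
  induction l with
  | zero => simp [Matrix.one_apply]
  | succ l ih =>
    rw [sum_range_succ, pow_succ G l, SwapB_row_mul]
    have h1 : ∑ z, (G ^ l) s z * (1 - ∑ y, G z y) ≤
        ((K * R) ^ l * K) s e + ((K * R) ^ l * K) s x
        + ((K * R) ^ (l + 1)) s e + ((K * R) ^ (l + 1)) s x := by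
      rw [pow_succ (K * R) l]
      rw [Matrix.mul_apply (M := (K * R) ^ l) (N := K), Matrix.mul_apply (M := (K * R) ^ l) (N := K),
        Matrix.mul_apply (M := (K * R) ^ l) (N := K * R),
        Matrix.mul_apply (M := (K * R) ^ l) (N := K * R), ← sum_add_distrib, ← sum_add_distrib,
        ← sum_add_distrib]
      refine sum_le_sum fun z _ => ?_
      have h2 := SwapB_pow_le (fun y z => (SwapB_G_bd hK hR x e y z).1)
        (fun y z => (SwapB_G_bd hK hR x e y z).2) l s z
      have h3 := SwapB_row_G hK hR rK rR hxe z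
      rw [← hG] at h3
      have hKR : ∀ y z, 0 ≤ (K * R) y z := by
        intro y z
        rw [Matrix.mul_apply]
        exact sum_nonneg fun w _ => mul_nonneg (hK _ _) (hR _ _)
      have h4 : 0 ≤ K z e + K z x + ((K * R) z e + (K * R) z x) :=
        add_nonneg (add_nonneg (hK _ _) (hK _ _)) (add_nonneg (hKR _ _) (hKR _ _))
      calc (G ^ l) s z * (1 - ∑ y, G z y)
          ≤ (G ^ l) s z * (K z e + K z x + ((K * R) z e + (K * R) z x)) :=
            mul_le_mul_of_nonneg_left h3 h2.1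
        _ ≤ ((K * R) ^ l) s z * (K z e + K z x + ((K * R) z e + (K * R) z x)) :=
            mul_le_mul_of_nonneg_right h2.2 h4
        _ = _ := by ring
    have h5 : ∑ z, (G ^ l) s z * (1 - ∑ y, G z y)
        = ∑ z, (G ^ l) s z - ∑ z, (G ^ l) s z * ∑ y, G z y := by
      rw [← sum_sub_distrib]
      exact sum_congr rfl fun z _ => by ring
    linarith

theorem SwapB_avoid' {K R : Matrix P P ℝ} (hK : ∀ y z, 0 ≤ K y z) (hR : ∀ y z, 0 ≤ R y z)
    (rK : ∀ s, ∑ y, K s y = 1) (rR : ∀ s, ∑ y, R s y = 1) {x e : P} (hxe : x ≠ e) (s : P)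
    {l L : ℕ} (hl : l ≤ L) : 1 - ∑ y, ((K * QQ x e * R * QQ x e) ^ l) s y ≤
      ∑ i ∈ range L, (((K * R) ^ i * K) s e + ((K * R) ^ i * K) s x
        + ((K * R) ^ (i + 1)) s e + ((K * R) ^ (i + 1)) s x) := by
  refine (SwapB_avoid hK hR rK rR hxe s l).trans ?_
  apply sum_le_sum_of_subset_of_nonneg (range_subset_range.2 hl)
  intro i _ _
  have hKR : ∀ y z, 0 ≤ (K * R) y z := by
    intro y z
    rw [Matrix.mul_apply]
    exact sum_nonneg fun w _ => mul_nonneg (hK _ _) (hR _ _)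
  have h1 : ∀ n y z, 0 ≤ ((K * R) ^ n) y z := fun n y z =>
    (SwapB_pow_le hKR (fun _ _ => le_rfl) n y z).1
  have h2 : ∀ y z, 0 ≤ ((K * R) ^ i * K) y z := by
    intro y z
    rw [Matrix.mul_apply]
    exact sum_nonneg fun w _ => mul_nonneg (h1 _ _ _) (hK _ _)
  exact add_nonneg (add_nonneg (add_nonneg (h2 _ _) (h2 _ _)) (h1 _ _ _)) (h1 _ _ _)

end General

theorem ret_le_avoid (h : IsD var blk r k) (x e : P) {l : ℕ} (hl : 1 ≤ l) :
    ((AA var blk r k) ^ l) e e ≤ 1 - ∑ y, ((GG var blk r k x e) ^ l) e y :=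
  SwapB_ret (fun y z => cw_nonneg h.hk y z) (fun y z => cw_nonneg h.hr y z)
    (cw_row h.ub h.hk) (cw_row h.uv h.hr) (Or.inr rfl) hl

/-- union bound: the probability to meet `{x, e}` -/
theorem avoid_ge (h : IsD var blk r k) {x e : P} (hxe : x ≠ e) {l L : ℕ} (hl : l ≤ L) :
    1 - ∑ y, ((GG var blk r k x e) ^ l) e y ≤ Hit1 var blk r k x e L :=
  SwapB_avoid' (fun y z => cw_nonneg h.hk y z) (fun y z => cw_nonneg h.hr y z)
    (cw_row h.ub h.hk) (cw_row h.uv h.hr) hxe e hl

theorem ret_e_le (h : IsD var blk r k) {x e : P} (hxe : x ≠ e) {l L : ℕ} (h1 : 1 ≤ l)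
    (hl : l ≤ L) : ((AA (sw var x e) blk r k) ^ l) e e ≤ Hit1 var blk r k x e L := by
  refine (ret_le_avoid (h.sw x e) x e h1).trans ?_
  rw [GG_sw]
  exact avoid_ge h hxe hl

theorem retR_le_avoid (h : IsD var blk r k) (x e : P) {l : ℕ} (hl : 1 ≤ l) :
    ((AR var blk r k) ^ l) x x ≤ 1 - ∑ y, ((GR var blk r k x e) ^ l) x y :=
  SwapB_ret (fun y z => cw_nonneg h.hr y z) (fun y z => cw_nonneg h.hk y z)
    (cw_row h.uv h.hr) (cw_row h.ub h.hk) (Or.inl rfl) hl

theorem SwapB_GR_sw (x e y z : P) :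
    GR (sw var x e) blk r k x e y z = GR var blk r k x e (Equiv.swap x e y) z := by
  unfold GR
  rw [SwapB_G_apply, SwapB_G_apply]
  refine sum_congr rfl fun w _ => ?_
  congr 1
  by_cases hw : w = x ∨ w = e
  · have : SwapB_d x e w = 0 := by
      unfold SwapB_d
      rw [if_pos hw]
    rw [this, mul_zero, mul_zero]
  · congr 1
    rw [not_or] at hw
    have h1 : Equiv.swap x e w = w := Equiv.swap_apply_of_ne_of_ne hw.1 hw.2
    unfold cw sw
    have h2 : (y ≠ w) ↔ (Equiv.swap x e y ≠ w) := by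
      conv_rhs => rw [← h1]
      exact (Equiv.swap x e).injective.ne_iff.symm
    simp only [Function.comp_apply, h1, h2]

theorem SwapB_row_sw {x e : P} (l : ℕ) : ∀ s : P,
    ∑ y, ((GR (sw var x e) blk r k x e) ^ (l + 1)) s y
      = ∑ y, ((GR var blk r k x e) ^ (l + 1)) (Equiv.swap x e s) y := by
  induction l with
  | zero =>
    intro s
    simp only [zero_add, pow_one]
    exact sum_congr rfl fun y _ => SwapB_GR_sw x e s y
  | succ l ih =>
    intro s
    rw [pow_succ' _ (l + 1), SwapB_row_mul, pow_succ' _ (l + 1), SwapB_row_mul]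
    refine sum_congr rfl fun z _ => ?_
    rw [SwapB_GR_sw, ih z]
    by_cases hz : z = x ∨ z = e
    · have : GR var blk r k x e (Equiv.swap x e s) z = 0 := SwapB_G_zero _ _ hz _
      rw [this, zero_mul, zero_mul]
    · rw [not_or] at hz
      rw [Equiv.swap_apply_of_ne_of_ne hz.1 hz.2]

/-- from `x` the reversed walk of the new design avoids `{x, e}` with the same probability as the
reversed walk of the old design started at `e` -/
theorem avoidR_sw {x e : P} (hxe : x ≠ e) (l : ℕ) :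
    ∑ y, ((GR (sw var x e) blk r k x e) ^ (l + 1)) x y
      = ∑ y, ((GR var blk r k x e) ^ (l + 1)) e y := by
  rw [SwapB_row_sw, Equiv.swap_apply_left]

theorem avoidR_ge (h : IsD var blk r k) {x e : P} (hxe : x ≠ e) {l L : ℕ} (hl : l ≤ L) :
    1 - ∑ y, ((GR var blk r k x e) ^ l) e y ≤ Hit2 var blk r k x e L :=
  SwapB_avoid' (fun y z => cw_nonneg h.hr y z) (fun y z => cw_nonneg h.hk y z)
    (cw_row h.uv h.hr) (cw_row h.ub h.hk) hxe e hl

theorem ret_x_le (h : IsD var blk r k) {x e : P} (hxe : x ≠ e) {l L : ℕ} (h1 : 1 ≤ l)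
    (hl : l ≤ L) : ((AA (sw var x e) blk r k) ^ l) x x ≤ Hit2 var blk r k x e L := by
  have h2 : ((AA (sw var x e) blk r k) ^ l) x x = ((AR (sw var x e) blk r k) ^ l) x x := by
    rw [AR_eq_transpose, Matrix.transpose_apply]
  rw [h2]
  refine (retR_le_avoid (h.sw x e) x e h1).trans ?_
  obtain ⟨m, rfl⟩ : ∃ m, l = m + 1 := ⟨l - 1, by omega⟩
  rw [avoidR_sw hxe]
  exact avoidR_ge h hxe hl

end Pool.Agent.Lib.MP_a7e07e_co.Sp
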