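import Pool.Agent.Lib.MP_a7e07e_co.Sp.Expand

set_option autoImplicit false

/-! # Choice of the second plot -/

namespace Pool.Agent.Lib.MP_a7e07e_co.Sp

open Matrix Finset

variable {P V B : Type} [Fintype P] [DecidableEq P] [Fintype V] [DecidableEq V] [Fintype B]
  [DecidableEq B] {var : P → V} {blk : P → B} {r k : ℕ}

theorem Hit1_nonneg (h : IsD var blk r k) (x e : P) (L : ℕ) : 0 ≤ Hit1 var blk r k x e L := by
  refine Finset.sum_nonneg fun i _ => ?_
  have h1 := AAk_nonneg h i e e
  have h2 := AAk_nonneg h i e x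
  have h3 := AA_nonneg h (i + 1) e e
  have h4 := AA_nonneg h (i + 1) e x
  linarith

theorem Hit2_nonneg (h : IsD var blk r k) (x e : P) (L : ℕ) : 0 ≤ Hit2 var blk r k x e L := by
  refine Finset.sum_nonneg fun i _ => ?_
  have h1 := ARr_nonneg h i e e
  have h2 := ARr_nonneg h i e x
  have h3 := AR_nonneg h (i + 1) e e
  have h4 := AR_nonneg h (i + 1) e x
  linarith

theorem sum_Hit1 (h : IsD var blk r k) (x : P) (L : ℕ) :
    ∑ e, Hit1 var blk r k x e L =
      ∑ i ∈ range L, (YY var blk r k i + 1 + tt var blk r k (i + 1) + 1) := by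
  unfold Hit1
  rw [Finset.sum_comm]
  refine Finset.sum_congr rfl fun i _ => ?_
  rw [Finset.sum_add_distrib, Finset.sum_add_distrib, Finset.sum_add_distrib, AAk_col h i x,
    AA_col h (i + 1) x]
  rfl

theorem sum_Hit2 (h : IsD var blk r k) (x : P) (L : ℕ) :
    ∑ e, Hit2 var blk r k x e L =
      ∑ i ∈ range L, (ZZ var blk r k i + 1 + tt var blk r k (i + 1) + 1) := by
  unfold Hit2
  rw [Finset.sum_comm]
  refine Finset.sum_congr rfl fun i _ => ?_
  rw [Finset.sum_add_distrib, Finset.sum_add_distrib, Finset.sum_add_distrib, ARr_col h i x,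
    AR_col h (i + 1) x, ← trace_AR (var := var) (blk := blk) (r := r) (k := k) (i + 1)]
  rfl

theorem SwapC_card (h : IsD var blk r k) : 2 ≤ Fintype.card P := by
  obtain ⟨x⟩ := h.ne
  have h1 := h.uv (var x)
  have h2 := Finset.card_le_univ (univ.filter fun y => var y = var x)
  rw [h1] at h2
  exact h.hr.trans h2

theorem exists_plot (h : IsD var blk r k) (x : P) (L : ℕ) :
    ∃ e, e ≠ x ∧ Hit1 var blk r k x e L + Hit2 var blk r k x e L ≤
      4 / ((Fintype.card P : ℝ) - 1) * (∑ i ∈ range L, tt var blk r k (i + 1) + L) := by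
  have hc := SwapC_card h
  have hcr : (1 : ℝ) ≤ (Fintype.card P : ℝ) - 1 := by
    have : (2 : ℝ) ≤ Fintype.card P := by exact_mod_cast hc
    linarith
  have hcard : (univ.erase x).card = Fintype.card P - 1 := by
    rw [Finset.card_erase_of_mem (Finset.mem_univ x), Finset.card_univ]
  have hne : (univ.erase x).Nonempty := by
    rw [← Finset.card_pos, hcard]
    omega
  have hT : ∑ e ∈ univ.erase x, (Hit1 var blk r k x e L + Hit2 var blk r k x e L) ≤
      4 * (∑ i ∈ range L, tt var blk r k (i + 1) + L) := by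
    have h1 : ∑ e ∈ univ.erase x, (Hit1 var blk r k x e L + Hit2 var blk r k x e L) ≤
        ∑ e, (Hit1 var blk r k x e L + Hit2 var blk r k x e L) :=
      Finset.sum_le_sum_of_subset_of_nonneg (Finset.erase_subset _ _) fun e _ _ =>
        add_nonneg (Hit1_nonneg h x e L) (Hit2_nonneg h x e L)
    refine h1.trans ?_
    rw [Finset.sum_add_distrib, sum_Hit1 h x L, sum_Hit2 h x L]
    simp only [Finset.sum_add_distrib, Finset.sum_const, Finset.card_range, nsmul_eq_mul, mul_one]
    have h2 := sum_YZ_le h L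
    linarith [h2.1, h2.2]
  have h3 : ∑ e ∈ univ.erase x, (Hit1 var blk r k x e L + Hit2 var blk r k x e L) ≤
      ∑ _e ∈ univ.erase x, 4 / ((Fintype.card P : ℝ) - 1) *
        (∑ i ∈ range L, tt var blk r k (i + 1) + L) := by
    rw [Finset.sum_const, hcard, nsmul_eq_mul, Nat.cast_sub (by omega), Nat.cast_one, ← mul_assoc,
      mul_div_cancel₀ _ (by linarith : (Fintype.card P : ℝ) - 1 ≠ 0)]
    exact hT
  obtain ⟨e, he, hle⟩ := Finset.exists_le_of_sum_le hne h3
  exact ⟨e, (Finset.mem_erase.1 he).1, hle⟩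

end Pool.Agent.Lib.MP_a7e07e_co.Sp
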