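import Pool.Agent.Lib.MP_a7e07e_co.Sp.SwapB
import Pool.Agent.Lib.MP_a7e07e_co.Sp.SwapC

set_option autoImplicit false

/-! # The exchange of two plots: the numbers `a_s` -/

namespace Pool.Agent.Lib.MP_a7e07e_co.Sp

open Matrix Finset

variable {P V B : Type} [Fintype P] [DecidableEq P] [Fintype V] [DecidableEq V] [Fintype B]
  [DecidableEq B] {var : P → V} {blk : P → B} {r k : ℕ}

private theorem SwapD_tt (h : IsD var blk r k) {x x1 e : P} (hx : x ≠ x1) (hv : var x = var x1)
    (hb : blk x = blk x1) (hxe : x ≠ e) {l L : ℕ} (h1 : 1 ≤ l) (hl : l ≤ L) :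
    tt (sw var x e) blk r k l - tt var blk r k l ≤
      2 * L * (Hit1 var blk r k x e L + Hit2 var blk r k x e L)
        - (if l = 1 then 2 / (((r : ℝ) - 1) * ((k : ℝ) - 1)) else 0) := by
  have a1 := tt_sw_le h (e := e) hx hv hb l
  have a2 := ret_x_le h hxe h1 hl
  have a3 := ret_e_le h hxe h1 hl
  have hH1 := Hit1_nonneg h x e L
  have hH2 := Hit2_nonneg h x e L
  have hlL : (l : ℝ) ≤ L := by exact_mod_cast hl
  have hl0 : (0 : ℝ) ≤ l := Nat.cast_nonneg l
  have a4 : 2 * (l : ℝ) * (((AA (sw var x e) blk r k) ^ l) x x +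
      ((AA (sw var x e) blk r k) ^ l) e e) ≤
      2 * l * (Hit1 var blk r k x e L + Hit2 var blk r k x e L) :=
    mul_le_mul_of_nonneg_left (by linarith) (by positivity)
  have a5 : 2 * (l : ℝ) * (Hit1 var blk r k x e L + Hit2 var blk r k x e L) ≤
      2 * L * (Hit1 var blk r k x e L + Hit2 var blk r k x e L) :=
    mul_le_mul_of_nonneg_right (by linarith) (by linarith)
  linarith

private theorem SwapD_coef {a b c D : ℝ} {n : ℕ} (hn : 2 ≤ n) (h1 : a ≤ D) (h2 : b ≤ D)
    (hc : c = ((n : ℝ) - 2) / ((n : ℝ) - 1) * a + 1 / ((n : ℝ) - 1) * b) : c ≤ D := by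
  have hn' : (2 : ℝ) ≤ n := by exact_mod_cast hn
  have hp : (0 : ℝ) < (n : ℝ) - 1 := by linarith
  have e : ((n : ℝ) - 2) / ((n : ℝ) - 1) * D + 1 / ((n : ℝ) - 1) * D = D := by
    field_simp
    ring
  rw [hc, ← e]
  exact add_le_add (mul_le_mul_of_nonneg_left h1 (div_nonneg (by linarith) hp.le))
    (mul_le_mul_of_nonneg_left h2 (by positivity))

private theorem SwapD_YZ (h : IsD var blk r k) {x x1 e : P} (hx : x ≠ x1) (hv : var x = var x1)
    (hb : blk x = blk x1) (hxe : x ≠ e) {L : ℕ} (j : ℕ) (hj : j ≤ L) :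
    YY (sw var x e) blk r k j - YY var blk r k j ≤
      2 * L * (Hit1 var blk r k x e L + Hit2 var blk r k x e L) ∧
    ZZ (sw var x e) blk r k j - ZZ var blk r k j ≤
      2 * L * (Hit1 var blk r k x e L + Hit2 var blk r k x e L) := by
  have hH1 := Hit1_nonneg h x e L
  have hH2 := Hit2_nonneg h x e L
  have hD : 0 ≤ 2 * (L : ℝ) * (Hit1 var blk r k x e L + Hit2 var blk r k x e L) := by
    positivity
  have hr' : (2 : ℝ) ≤ r := by exact_mod_cast h.hr
  have hk' : (2 : ℝ) ≤ k := by exact_mod_cast h.hk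
  induction j with
  | zero =>
    rw [YY_zero, YY_zero, ZZ_zero, ZZ_zero, sub_zero]
    exact ⟨hD, hD⟩
  | succ j ih =>
    obtain ⟨ih1, ih2⟩ := ih (by omega)
    have ht := SwapD_tt h hx hv hb hxe (l := j + 1) (L := L) (by omega) hj
    have ht' : tt (sw var x e) blk r k (j + 1) - tt var blk r k (j + 1) ≤
        2 * L * (Hit1 var blk r k x e L + Hit2 var blk r k x e L) := by
      refine ht.trans ?_
      have : 0 ≤ (if j + 1 = 1 then 2 / (((r : ℝ) - 1) * ((k : ℝ) - 1)) else 0) := by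
        split_ifs
        · exact div_nonneg (by norm_num) (mul_nonneg (by linarith) (by linarith))
        · exact le_rfl
      linarith
    constructor
    · refine SwapD_coef h.hk ht' ih2 ?_
      rw [YY_succ (h.sw x e), YY_succ h]
      ring
    · refine SwapD_coef h.hr ht' ih1 ?_
      rw [ZZ_succ (h.sw x e), ZZ_succ h]
      ring

theorem aa_sw_le (h : IsD var blk r k) {x x1 e : P} (hx : x ≠ x1) (hv : var x = var x1)
    (hb : blk x = blk x1) (hxe : x ≠ e) {s L : ℕ} (h1 : 1 ≤ s) (hs : s ≤ L) :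
    aa (sw var x e) blk r k s - aa var blk r k s ≤
      2 * L * (Hit1 var blk r k x e L + Hit2 var blk r k x e L)
        - (if s = 1 then 2 / ((r : ℝ) * k) else 0) := by
  have hH1 := Hit1_nonneg h x e L
  have hH2 := Hit2_nonneg h x e L
  have hr' : (2 : ℝ) ≤ r := by exact_mod_cast h.hr
  have hk' : (2 : ℝ) ≤ k := by exact_mod_cast h.hk
  have hr0 : (0 : ℝ) < r := by linarith
  have hk0 : (0 : ℝ) < k := by linarith
  have hr1 : (0 : ℝ) < (r : ℝ) - 1 := by linarith
  have hk1 : (0 : ℝ) < (k : ℝ) - 1 := by linarith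
  obtain ⟨D, hDdef⟩ : ∃ D : ℝ, D = 2 * (L : ℝ) *
    (Hit1 var blk r k x e L + Hit2 var blk r k x e L) := ⟨_, rfl⟩
  have hD : 0 ≤ D := by
    rw [hDdef]
    positivity
  have hq : 0 ≤ 2 / (((r : ℝ) - 1) * ((k : ℝ) - 1)) := by positivity
  have htt : ∀ l, 1 ≤ l → l ≤ L → tt (sw var x e) blk r k l - tt var blk r k l ≤
      D - (if l = 1 then 2 / (((r : ℝ) - 1) * ((k : ℝ) - 1)) else 0) := by
    intro l q1 q2
    rw [hDdef]
    exact SwapD_tt h hx hv hb hxe q1 q2
  have hYY : ∀ j, j ≤ L → YY (sw var x e) blk r k j - YY var blk r k j ≤ D := by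
    intro j q1
    rw [hDdef]
    exact (SwapD_YZ h hx hv hb hxe j q1).1
  rw [← hDdef]
  have hdiff : aa (sw var x e) blk r k s - aa var blk r k s =
      ∑ j ∈ range s, xs r k s (j + 1) *
        ((((r : ℝ) - 1) / r) * (tt (sw var x e) blk r k (j + 1) - tt var blk r k (j + 1)) +
          (1 / (r : ℝ)) * (YY (sw var x e) blk r k j - YY var blk r k j)) := by
    rw [aa_eq (h.sw x e), aa_eq h, add_sub_add_left_eq_sub, ← Finset.sum_sub_distrib]
    exact Finset.sum_congr rfl fun j _ => by ring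
  rw [hdiff]
  by_cases hs1 : s = 1
  · subst hs1
    rw [if_pos rfl, Finset.sum_range_one, zero_add, xs_one_one, YY_zero, YY_zero, sub_zero,
      mul_zero, add_zero]
    have h3 := htt 1 le_rfl hs
    rw [if_pos rfl] at h3
    have h4 : ((k : ℝ) - 1) / k * (((r : ℝ) - 1) / r *
        (tt (sw var x e) blk r k 1 - tt var blk r k 1)) ≤
        ((k : ℝ) - 1) / k * (((r : ℝ) - 1) / r *
        (D - 2 / (((r : ℝ) - 1) * ((k : ℝ) - 1)))) :=
      mul_le_mul_of_nonneg_left (mul_le_mul_of_nonneg_left h3 (by positivity)) (by positivity)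
    refine h4.trans ?_
    have e1 : ((k : ℝ) - 1) / k * (((r : ℝ) - 1) / r *
        (D - 2 / (((r : ℝ) - 1) * ((k : ℝ) - 1)))) =
        (((k : ℝ) - 1) / k) * (((r : ℝ) - 1) / r) * D - 2 / ((r : ℝ) * k) := by
      field_simp
    rw [e1]
    have e2 : ((k : ℝ) - 1) / k ≤ 1 := by
      rw [div_le_one hk0]
      linarith
    have e3 : ((r : ℝ) - 1) / r ≤ 1 := by
      rw [div_le_one hr0]
      linarith
    have e4 : (((k : ℝ) - 1) / k) * (((r : ℝ) - 1) / r) ≤ 1 :=
      mul_le_one₀ e2 (by positivity) e3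
    have e5 : (((k : ℝ) - 1) / k) * (((r : ℝ) - 1) / r) * D ≤ 1 * D :=
      mul_le_mul_of_nonneg_right e4 hD
    linarith
  · rw [if_neg hs1, sub_zero]
    have h3 : ∀ j ∈ range s, xs r k s (j + 1) *
        ((((r : ℝ) - 1) / r) * (tt (sw var x e) blk r k (j + 1) - tt var blk r k (j + 1)) +
          (1 / (r : ℝ)) * (YY (sw var x e) blk r k j - YY var blk r k j)) ≤
        xs r k s (j + 1) * D := by
      intro j hj
      rw [Finset.mem_range] at hj
      refine mul_le_mul_of_nonneg_left ?_ (xs_nonneg h.hr h.hk s (j + 1))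
      have q1 : tt (sw var x e) blk r k (j + 1) - tt var blk r k (j + 1) ≤ D := by
        have := htt (j + 1) (by omega) (by omega)
        split_ifs at this <;> linarith
      have q2 := hYY j (by omega)
      have e : ((r : ℝ) - 1) / r * D + 1 / (r : ℝ) * D = D := by
        field_simp
        ring
      rw [← e]
      exact add_le_add (mul_le_mul_of_nonneg_left q1 (by positivity))
        (mul_le_mul_of_nonneg_left q2 (by positivity))
    refine (Finset.sum_le_sum h3).trans ?_
    rw [← Finset.sum_mul]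
    have h4 := xs_sum h.hr h.hk s
    rw [Finset.sum_range_succ'] at h4
    have h5 := xs_nonneg h.hr h.hk s 0
    have h6 : ∑ j ∈ range s, xs r k s (j + 1) ≤ 1 := by linarith
    have h7 := mul_le_mul_of_nonneg_right h6 hD
    linarith

end Pool.Agent.Lib.MP_a7e07e_co.Sp
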