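import Pool.Agent.Lib.MP_a7e07e_co.Sp.Sets
import Pool.Agent.Lib.MP_a7e07e_co.Sp.Bin

set_option autoImplicit false

/-! # A random design is an expander -/

namespace Pool.Agent.Lib.MP_a7e07e_co.Sp

open Finset

/-- the conductance of the design is at least `h` -/
def Cond {P V B : Type} [Fintype P] [DecidableEq V] [DecidableEq B] (var : P → V) (blk : P → B)
    (r k : ℕ) (h : ℝ) : Prop :=
  ∀ (S : Finset V) (T : Finset B), S.card * r + T.card * k ≤ Fintype.card P →
    h * (S.card * r + T.card * k) ≤ bd var blk S T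

variable {v b r k : ℕ}

theorem Union_bd_ge (hr : 2 ≤ r) (hk : 2 ≤ k) (hrk : 5 ≤ r + k) (hv : 1 ≤ v)
    (σ : (Fin b × Fin k) ≃ (Fin v × Fin r)) (S : Finset (Fin v)) (T : Finset (Fin b)) :
    S.card * r ≤ T.card * k + bd (vr σ) (Prod.fst : Fin b × Fin k → Fin b) S T ∧
      T.card * k ≤ S.card * r + bd (vr σ) (Prod.fst : Fin b × Fin k → Fin b) S T :=
  bd_ge (isD_vr hr hk hrk hv σ).uv (isD_vr hr hk hrk hv σ).ub S T

theorem Union_pair_nat (hr : 2 ≤ r) (hk : 2 ≤ k) (hrk : 5 ≤ r + k) (hm : v * r = b * k)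
    (a c d : ℕ) (hac : a * r + c * k ≤ v * r) :
    ((univ.filter fun σ : (Fin b × Fin k) ≃ (Fin v × Fin r) =>
        ∃ (S : Finset (Fin v)) (T : Finset (Fin b)), S.card = a ∧ T.card = c ∧
          bd (vr σ) (Prod.fst : Fin b × Fin k → Fin b) S T ≤ d).card) ^ 6
        * (v * r).choose (a * r) ≤
      ((v * r + 1) ^ (2 * d) * Fintype.card ((Fin b × Fin k) ≃ (Fin v × Fin r))) ^ 6 := by
  classical
  set F := Fintype.card ((Fin b × Fin k) ≃ (Fin v × Fin r)) with hF
  set A := (univ.filter fun σ : (Fin b × Fin k) ≃ (Fin v × Fin r) =>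
        ∃ (S : Finset (Fin v)) (T : Finset (Fin b)), S.card = a ∧ T.card = c ∧
          bd (vr σ) (Prod.fst : Fin b × Fin k → Fin b) S T ≤ d) with hA
  rcases Nat.eq_zero_or_pos A.card with h0 | h0
  · rw [h0]; simp
  -- some element
  have hdiff : a * r ≤ c * k + d ∧ c * k ≤ a * r + d := by
    obtain ⟨σ, hσ⟩ := Finset.card_pos.mp h0
    rw [hA, Finset.mem_filter] at hσ
    obtain ⟨_, S, T, hS, hT, hb⟩ := hσ
    rcases Nat.eq_zero_or_pos v with hv | hv
    · subst hv
      simp at hac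
      constructor
      · have := hac.1
        rcases this with h | h <;> simp [h]
      · have := hac.2
        rcases this with h | h <;> simp [h]
    · have := Union_bd_ge hr hk hrk hv σ S T
      rw [hS, hT] at this
      omega
  have hG : 0 < (v * r).choose (a * r) := Nat.choose_pos (by omega)
  have hsub : A ⊆ (powersetCard a univ).biUnion fun S : Finset (Fin v) =>
      (powersetCard c univ).biUnion fun T : Finset (Fin b) =>
        univ.filter fun σ : (Fin b × Fin k) ≃ (Fin v × Fin r) =>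
          bd (vr σ) (Prod.fst : Fin b × Fin k → Fin b) S T ≤ d := by
    intro σ hσ
    rw [hA, Finset.mem_filter] at hσ
    obtain ⟨_, S, T, hS, hT, hb⟩ := hσ
    simp only [Finset.mem_biUnion, Finset.mem_powersetCard, Finset.mem_filter]
    exact ⟨S, ⟨Finset.subset_univ _, hS⟩, T, ⟨Finset.subset_univ _, hT⟩, Finset.mem_univ _, hb⟩
  have hcard : A.card * (v * r).choose (a * r) ≤
      (v.choose a * b.choose c) * ((v * r + 1) ^ d * F) := by
    calc A.card * (v * r).choose (a * r)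
        ≤ (∑ S ∈ (powersetCard a univ : Finset (Finset (Fin v))),
            ∑ T ∈ (powersetCard c univ : Finset (Finset (Fin b))),
              (univ.filter fun σ : (Fin b × Fin k) ≃ (Fin v × Fin r) =>
          bd (vr σ) (Prod.fst : Fin b × Fin k → Fin b) S T ≤ d).card) *
            (v * r).choose (a * r) := by
          apply Nat.mul_le_mul_right
          refine (Finset.card_le_card hsub).trans ?_
          refine Finset.card_biUnion_le.trans ?_
          exact Finset.sum_le_sum fun S _ => Finset.card_biUnion_le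
      _ = ∑ S ∈ (powersetCard a univ : Finset (Finset (Fin v))),
            ∑ T ∈ (powersetCard c univ : Finset (Finset (Fin b))),
              (univ.filter fun σ : (Fin b × Fin k) ≃ (Fin v × Fin r) =>
          bd (vr σ) (Prod.fst : Fin b × Fin k → Fin b) S T ≤ d).card *
            (v * r).choose (a * r) := by
          rw [Finset.sum_mul]
          exact Finset.sum_congr rfl fun S _ => Finset.sum_mul _ _ _
      _ ≤ ∑ S ∈ (powersetCard a univ : Finset (Finset (Fin v))),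
            ∑ T ∈ (powersetCard c univ : Finset (Finset (Fin b))),
              ((v * r + 1) ^ d * F) := by
          refine Finset.sum_le_sum fun S hS => Finset.sum_le_sum fun T hT => ?_
          have hSc : S.card = a := (Finset.mem_powersetCard.mp hS).2
          have := card_bd_le hm S T d
          rw [hSc] at this
          exact this
      _ = (v.choose a * b.choose c) * ((v * r + 1) ^ d * F) := by
          rw [Finset.sum_const, Finset.sum_const, Finset.card_powersetCard,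
            Finset.card_powersetCard, Finset.card_univ, Finset.card_univ, Fintype.card_fin,
            Fintype.card_fin]
          simp only [smul_eq_mul]
          ring
  have hkey := choose_mul_choose_le (v := v) (b := b) (a := a) (c := c) (d := d) (m := v * r)
    hr hk hrk rfl hm.symm hac hdiff.1 hdiff.2
  set G := (v * r).choose (a * r) with hGdef
  set D := (v * r + 1) ^ d with hD
  have hD1 : 1 ≤ D := Nat.one_le_pow _ _ (by omega)
  have h6 : (A.card * G) ^ 6 ≤ ((v.choose a * b.choose c) * (D * F)) ^ 6 :=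
    Nat.pow_le_pow_left hcard 6
  have h7 : (A.card ^ 6 * G) * G ^ 5 ≤ ((D ^ 2 * F) ^ 6) * G ^ 5 := by
    calc (A.card ^ 6 * G) * G ^ 5 = (A.card * G) ^ 6 := by ring
      _ ≤ ((v.choose a * b.choose c) * (D * F)) ^ 6 := h6
      _ = (v.choose a * b.choose c) ^ 6 * (D * F) ^ 6 := by ring
      _ ≤ (G * D) ^ 5 * (D * F) ^ 6 := Nat.mul_le_mul_right _ hkey
      _ = (D ^ 11 * F ^ 6) * G ^ 5 := by ring
      _ ≤ (D ^ 12 * F ^ 6) * G ^ 5 := by
          apply Nat.mul_le_mul_right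
          apply Nat.mul_le_mul_right
          exact Nat.pow_le_pow_right hD1 (by norm_num)
      _ = ((D ^ 2 * F) ^ 6) * G ^ 5 := by ring
  have h8 := Nat.le_of_mul_le_mul_right h7 (pow_pos hG 5)
  calc A.card ^ 6 * G ≤ (D ^ 2 * F) ^ 6 := h8
    _ = ((v * r + 1) ^ (2 * d) * F) ^ 6 := by
        rw [hD, ← pow_mul, mul_comm d 2]

/-- the number of designs for which some pair of sets of sizes `a`, `c` has boundary `≤ d` -/
theorem pair_bound (hr : 2 ≤ r) (hk : 2 ≤ k) (hrk : 5 ≤ r + k) (hm : v * r = b * k) (a c d : ℕ)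
    (hac : a * r + c * k ≤ v * r) :
    (((univ.filter fun σ : (Fin b × Fin k) ≃ (Fin v × Fin r) =>
        ∃ (S : Finset (Fin v)) (T : Finset (Fin b)), S.card = a ∧ T.card = c ∧
          bd (vr σ) (Prod.fst : Fin b × Fin k → Fin b) S T ≤ d).card : ℝ)) ^ 6
        * (v * r).choose (a * r) ≤
      ((v * r + 1 : ℝ) ^ (2 * d) * Fintype.card ((Fin b × Fin k) ≃ (Fin v × Fin r))) ^ 6 := by
  have h := Union_pair_nat hr hk hrk hm a c d hac
  exact_mod_cast h

/-- the logarithm is small -/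
theorem Union_log_small : ∃ m0 : ℕ, 1 ≤ m0 ∧ ∀ m : ℕ, m0 ≤ m →
    64 * (96 * Real.logb 2 ((m : ℝ) + 1)) ^ 3 ≤ m := by
  have h := Real.isLittleO_pow_log_id_atTop (n := 3)
  have hlog2 : 0 < Real.log 2 := Real.log_pos (by norm_num)
  set c : ℝ := (Real.log 2) ^ 3 / (2 * 64 * 96 ^ 3) with hc
  have hcpos : 0 < c := by positivity
  have h2 := h.def hcpos
  rw [Filter.eventually_atTop] at h2
  obtain ⟨x0, hx0⟩ := h2
  refine ⟨⌈x0⌉₊ + 1, by omega, fun m hm => ?_⟩
  have hm1 : (1 : ℝ) ≤ m := by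
    have : 1 ≤ m := by omega
    exact_mod_cast this
  have hmx : x0 ≤ (m : ℝ) + 1 := by
    have h1 : x0 ≤ ⌈x0⌉₊ := Nat.le_ceil x0
    have h3 : ((⌈x0⌉₊ : ℕ) : ℝ) + 1 ≤ m := by exact_mod_cast hm
    linarith
  have h4 := hx0 _ hmx
  simp only [id, Real.norm_eq_abs] at h4
  have hlogpos : 0 ≤ Real.log ((m : ℝ) + 1) := Real.log_nonneg (by linarith)
  rw [abs_of_nonneg (pow_nonneg hlogpos 3), abs_of_nonneg (by linarith)] at h4
  have h5 : Real.logb 2 ((m : ℝ) + 1) = Real.log ((m : ℝ) + 1) / Real.log 2 := rfl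
  rw [h5]
  have h6 : 64 * (96 * (Real.log ((m : ℝ) + 1) / Real.log 2)) ^ 3
      = (64 * 96 ^ 3 / (Real.log 2) ^ 3) * Real.log ((m : ℝ) + 1) ^ 3 := by
    field_simp
  rw [h6]
  have h7 : (64 * 96 ^ 3 / (Real.log 2) ^ 3) * Real.log ((m : ℝ) + 1) ^ 3 ≤
      (64 * 96 ^ 3 / (Real.log 2) ^ 3) * (c * ((m : ℝ) + 1)) :=
    mul_le_mul_of_nonneg_left h4 (by positivity)
  have h8 : (64 * 96 ^ 3 / (Real.log 2) ^ 3) * (c * ((m : ℝ) + 1)) = ((m : ℝ) + 1) / 2 := by
    rw [hc]; field_simp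
  rw [h8] at h7
  linarith

theorem Union_small_one (hr : 2 ≤ r) (hk : 2 ≤ k) (hrk : 5 ≤ r + k) (hm : v * r = b * k)
    (hv : 1 ≤ v) (W : ℝ) (a : ℕ) (ha : 1 ≤ a) :
    ((univ.filter fun σ : (Fin b × Fin k) ≃ (Fin v × Fin r) =>
        ∃ (S : Finset (Fin v)) (T : Finset (Fin b)), S.card = a ∧
          ((S.card * r + T.card * k : ℕ) : ℝ) ≤ 2 * W ∧
          S.card * r + T.card * k ≤ v * r ∧
          bd (vr σ) (Prod.fst : Fin b × Fin k → Fin b) S T = 0).card : ℝ) ^ 2 * (v * r : ℕ) ≤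
      (Fintype.card ((Fin b × Fin k) ≃ (Fin v × Fin r)) : ℝ) ^ 2 * |W| := by
  classical
  set F : ℝ := ((Fintype.card ((Fin b × Fin k) ≃ (Fin v × Fin r)) : ℕ) : ℝ) with hF
  set A := (univ.filter fun σ : (Fin b × Fin k) ≃ (Fin v × Fin r) =>
        ∃ (S : Finset (Fin v)) (T : Finset (Fin b)), S.card = a ∧
          ((S.card * r + T.card * k : ℕ) : ℝ) ≤ 2 * W ∧
          S.card * r + T.card * k ≤ v * r ∧
          bd (vr σ) (Prod.fst : Fin b × Fin k → Fin b) S T = 0) with hA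
  rcases Nat.eq_zero_or_pos A.card with h0 | h0
  · rw [h0]; simp; positivity
  obtain ⟨σ, hσ⟩ := Finset.card_pos.mp h0
  rw [hA, Finset.mem_filter] at hσ
  obtain ⟨_, S, T, hS, hW, hSm, hbd⟩ := hσ
  have hge := Union_bd_ge hr hk hrk hv σ S T
  rw [hbd] at hge
  have hgc : a * r = T.card * k := by rw [hS] at hge; omega
  set c := T.card with hc
  have hg3 : 3 ≤ a * r := by
    rcases Nat.lt_or_ge r 3 with h | h
    · have hr2 : r = 2 := by omega
      have hk3 : 3 ≤ k := by omega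
      have hcpos : 1 ≤ c := by
        rcases Nat.eq_zero_or_pos c with h1 | h1
        · rw [h1] at hgc; simp at hgc; omega
        · exact h1
      calc 3 ≤ 1 * k := by omega
        _ ≤ c * k := Nat.mul_le_mul_right _ hcpos
        _ = a * r := hgc.symm
    · calc 3 ≤ 1 * r := by omega
        _ ≤ a * r := Nat.mul_le_mul_right _ ha
  have hac : a * r + c * k ≤ v * r := by rw [hS] at hSm; exact hSm
  have hsub : A ⊆ univ.filter fun σ : (Fin b × Fin k) ≃ (Fin v × Fin r) =>
        ∃ (S : Finset (Fin v)) (T : Finset (Fin b)), S.card = a ∧ T.card = c ∧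
          bd (vr σ) (Prod.fst : Fin b × Fin k → Fin b) S T ≤ 0 := by
    intro τ hτ
    rw [hA, Finset.mem_filter] at hτ
    obtain ⟨_, S', T', hS', hW', hSm', hbd'⟩ := hτ
    rw [Finset.mem_filter]
    refine ⟨Finset.mem_univ _, S', T', hS', ?_, by omega⟩
    have hge' := Union_bd_ge hr hk hrk hv τ S' T'
    rw [hbd', hS'] at hge'
    have : T'.card * k = c * k := by omega
    exact Nat.eq_of_mul_eq_mul_right (by omega) this
  have hpb := Union_pair_nat hr hk hrk hm a c 0 hac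
  have hpb2 : A.card ^ 6 * (v * r).choose (a * r) ≤
      (Fintype.card ((Fin b × Fin k) ≃ (Fin v × Fin r))) ^ 6 := by
    calc A.card ^ 6 * (v * r).choose (a * r) ≤ _ :=
          Nat.mul_le_mul_right _ (Nat.pow_le_pow_left (Finset.card_le_card hsub) 6)
      _ ≤ _ := hpb
      _ = _ := by simp
  have hpb3 : (A.card : ℝ) ^ 6 * (v * r).choose (a * r) ≤ F ^ 6 := by
    rw [hF]; exact_mod_cast hpb2
  have hch := div_pow_le_choose (m := v * r) (g := a * r) (by omega)
  have hgpos : (0 : ℝ) < (a * r : ℕ) := by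
    have : 0 < a * r := by omega
    exact_mod_cast this
  have hratio : (1 : ℝ) ≤ ((v * r : ℕ) : ℝ) / (a * r : ℕ) := by
    rw [le_div_iff₀ hgpos, one_mul]
    exact_mod_cast (by omega : a * r ≤ v * r)
  have h3 : (((v * r : ℕ) : ℝ) / (a * r : ℕ)) ^ 3 ≤ (v * r).choose (a * r) :=
    (pow_le_pow_right₀ hratio hg3).trans hch
  have h4 : ((A.card : ℝ) ^ 2 * (((v * r : ℕ) : ℝ) / (a * r : ℕ))) ^ 3 ≤ (F ^ 2) ^ 3 := by
    calc ((A.card : ℝ) ^ 2 * (((v * r : ℕ) : ℝ) / (a * r : ℕ))) ^ 3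
        = (A.card : ℝ) ^ 6 * (((v * r : ℕ) : ℝ) / (a * r : ℕ)) ^ 3 := by ring
      _ ≤ (A.card : ℝ) ^ 6 * (v * r).choose (a * r) :=
          mul_le_mul_of_nonneg_left h3 (by positivity)
      _ ≤ F ^ 6 := hpb3
      _ = (F ^ 2) ^ 3 := by ring
  have h5 : (A.card : ℝ) ^ 2 * (((v * r : ℕ) : ℝ) / (a * r : ℕ)) ≤ F ^ 2 :=
    le_of_pow_le_pow_left₀ (by norm_num) (by positivity) h4
  have h6 : (A.card : ℝ) ^ 2 * ((v * r : ℕ) : ℝ) ≤ F ^ 2 * (a * r : ℕ) := by
    rw [← mul_div_assoc, div_le_iff₀ hgpos] at h5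
    exact h5
  have h7 : ((a * r : ℕ) : ℝ) ≤ |W| := by
    rw [hS, ← hgc] at hW
    push_cast at hW ⊢
    have := le_abs_self W
    linarith
  calc (A.card : ℝ) ^ 2 * ((v * r : ℕ) : ℝ) ≤ F ^ 2 * (a * r : ℕ) := h6
    _ ≤ F ^ 2 * |W| := mul_le_mul_of_nonneg_left h7 (by positivity)

/-- small sets: boundary zero -/
theorem small_bound : ∃ m0 : ℕ, ∀ v b r k : ℕ, 2 ≤ r → 2 ≤ k → 5 ≤ r + k → v * r = b * k →
    m0 ≤ v * r →
    8 * ((univ.filter fun σ : (Fin b × Fin k) ≃ (Fin v × Fin r) =>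
        ∃ (S : Finset (Fin v)) (T : Finset (Fin b)), 1 ≤ S.card ∧
          ((S.card * r + T.card * k : ℕ) : ℝ) ≤ 192 * Real.logb 2 (v * r + 1) ∧
          S.card * r + T.card * k ≤ v * r ∧
          bd (vr σ) (Prod.fst : Fin b × Fin k → Fin b) S T = 0).card : ℝ) ≤
      Fintype.card ((Fin b × Fin k) ≃ (Fin v × Fin r)) := by
  classical
  obtain ⟨m0, hm0, hlog⟩ := Union_log_small
  refine ⟨m0, fun v b r k hr hk hrk hm hmm => ?_⟩
  have hv : 1 ≤ v := by
    rcases Nat.eq_zero_or_pos v with h | h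
    · rw [h] at hmm; simp at hmm; omega
    · exact h
  set F : ℝ := ((Fintype.card ((Fin b × Fin k) ≃ (Fin v × Fin r)) : ℕ) : ℝ) with hF
  have hF0 : 0 ≤ F := by rw [hF]; positivity
  have hl := hlog (v * r) hmm
  push_cast at hl
  set L : ℝ := Real.logb 2 ((v : ℝ) * r + 1) with hL
  have hmpos : (1 : ℝ) ≤ (v : ℝ) * r := by
    have : 1 ≤ v * r := by omega
    exact_mod_cast this
  have hLpos : 1 ≤ L := by
    rw [hL, Real.le_logb_iff_rpow_le (by norm_num) (by positivity)]
    simp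
    linarith
  set A := (univ.filter fun σ : (Fin b × Fin k) ≃ (Fin v × Fin r) =>
        ∃ (S : Finset (Fin v)) (T : Finset (Fin b)), 1 ≤ S.card ∧
          ((S.card * r + T.card * k : ℕ) : ℝ) ≤ 192 * L ∧
          S.card * r + T.card * k ≤ v * r ∧
          bd (vr σ) (Prod.fst : Fin b × Fin k → Fin b) S T = 0) with hA
  set N : ℕ → Finset ((Fin b × Fin k) ≃ (Fin v × Fin r)) := fun a =>
    (univ.filter fun σ : (Fin b × Fin k) ≃ (Fin v × Fin r) =>
        ∃ (S : Finset (Fin v)) (T : Finset (Fin b)), S.card = a ∧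
          ((S.card * r + T.card * k : ℕ) : ℝ) ≤ 2 * (96 * L) ∧
          S.card * r + T.card * k ≤ v * r ∧
          bd (vr σ) (Prod.fst : Fin b × Fin k → Fin b) S T = 0) with hN
  have hN1 : ∀ a, 1 ≤ a → 8 * (96 * L) * ((N a).card : ℝ) ≤ F := by
    intro a ha
    have h1 := Union_small_one hr hk hrk hm hv (96 * L) a ha
    rw [abs_of_nonneg (by positivity), ← hF] at h1
    have h2 : (8 * (96 * L) * ((N a).card : ℝ)) ^ 2 ≤ F ^ 2 := by
      have h3 : (8 * (96 * L) * ((N a).card : ℝ)) ^ 2 * ((v : ℝ) * r) ≤ F ^ 2 * ((v : ℝ) * r) := by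
        calc (8 * (96 * L) * ((N a).card : ℝ)) ^ 2 * ((v : ℝ) * r)
            = 64 * (96 * L) ^ 2 * (((N a).card : ℝ) ^ 2 * ((v : ℝ) * r)) := by ring
          _ ≤ 64 * (96 * L) ^ 2 * (F ^ 2 * (96 * L)) := by
              apply mul_le_mul_of_nonneg_left _ (by positivity)
              rw [Nat.cast_mul] at h1
              exact h1
          _ = F ^ 2 * (64 * (96 * L) ^ 3) := by ring
          _ ≤ F ^ 2 * ((v : ℝ) * r) := mul_le_mul_of_nonneg_left hl (by positivity)
      exact le_of_mul_le_mul_right h3 (by linarith)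
    exact le_of_pow_le_pow_left₀ (by norm_num) hF0 h2
  have hsub : A ⊆ (Finset.Icc 1 ⌊96 * L⌋₊).biUnion N := by
    intro σ hσ
    rw [hA, Finset.mem_filter] at hσ
    obtain ⟨_, S, T, hS, hW, hSm, hbd⟩ := hσ
    rw [Finset.mem_biUnion]
    refine ⟨S.card, ?_, ?_⟩
    · rw [Finset.mem_Icc]
      refine ⟨hS, ?_⟩
      apply Nat.le_floor
      have hge := Union_bd_ge hr hk hrk hv σ S T
      rw [hbd] at hge
      have heq : T.card * k = S.card * r := by omega
      rw [heq] at hW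
      push_cast at hW
      have hr' : (1 : ℝ) ≤ r := by
        have : 1 ≤ r := by omega
        exact_mod_cast this
      have : (S.card : ℝ) ≤ S.card * r := by
        nlinarith [Nat.cast_nonneg (α := ℝ) S.card]
      linarith
    · rw [hN]
      simp only [Finset.mem_filter]
      refine ⟨Finset.mem_univ _, S, T, rfl, ?_, hSm, hbd⟩
      calc _ ≤ 192 * L := hW
        _ = 2 * (96 * L) := by ring
  have hcard : (A.card : ℝ) ≤ ∑ a ∈ Finset.Icc 1 ⌊96 * L⌋₊, ((N a).card : ℝ) := by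
    have := (Finset.card_le_card hsub).trans Finset.card_biUnion_le
    exact_mod_cast this
  have hsum : 8 * (96 * L) * (A.card : ℝ) ≤ (96 * L) * F := by
    calc 8 * (96 * L) * (A.card : ℝ)
        ≤ 8 * (96 * L) * ∑ a ∈ Finset.Icc 1 ⌊96 * L⌋₊, ((N a).card : ℝ) :=
          mul_le_mul_of_nonneg_left hcard (by positivity)
      _ = ∑ a ∈ Finset.Icc 1 ⌊96 * L⌋₊, 8 * (96 * L) * ((N a).card : ℝ) := by
          rw [Finset.mul_sum]
      _ ≤ ∑ a ∈ Finset.Icc 1 ⌊96 * L⌋₊, F :=
          Finset.sum_le_sum fun a ha => hN1 a (Finset.mem_Icc.mp ha).1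
      _ = ⌊96 * L⌋₊ * F := by
          rw [Finset.sum_const, Nat.card_Icc]; simp
      _ ≤ (96 * L) * F := by
          apply mul_le_mul_of_nonneg_right _ hF0
          exact Nat.floor_le (by positivity)
  have : (96 * L) * (8 * (A.card : ℝ)) ≤ (96 * L) * F := by
    calc (96 * L) * (8 * (A.card : ℝ)) = 8 * (96 * L) * (A.card : ℝ) := by ring
      _ ≤ _ := hsum
  exact le_of_mul_le_mul_left this (by positivity)

theorem Union_large_one (hr : 2 ≤ r) (hk : 2 ≤ k) (hrk : 5 ≤ r + k) (hm : v * r = b * k)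
    (hv : 1 ≤ v) (a c : ℕ) :
    ((univ.filter fun σ : (Fin b × Fin k) ≃ (Fin v × Fin r) =>
        ∃ (S : Finset (Fin v)) (T : Finset (Fin b)), S.card = a ∧ T.card = c ∧
          192 * Real.logb 2 (v * r + 1) < ((S.card * r + T.card * k : ℕ) : ℝ) ∧
          S.card * r + T.card * k ≤ v * r ∧
          (bd (vr σ) (Prod.fst : Fin b × Fin k → Fin b) S T : ℝ) <
            (192 * Real.logb 2 (v * r + 1))⁻¹ * (S.card * r + T.card * k)).card : ℝ) *
          ((v : ℝ) * r + 1) ^ 3 ≤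
      (Fintype.card ((Fin b × Fin k) ≃ (Fin v × Fin r)) : ℝ) := by
  classical
  set F : ℝ := ((Fintype.card ((Fin b × Fin k) ≃ (Fin v × Fin r)) : ℕ) : ℝ) with hF
  have hF0 : 0 ≤ F := by rw [hF]; positivity
  set L : ℝ := Real.logb 2 ((v : ℝ) * r + 1) with hL
  set A := (univ.filter fun σ : (Fin b × Fin k) ≃ (Fin v × Fin r) =>
        ∃ (S : Finset (Fin v)) (T : Finset (Fin b)), S.card = a ∧ T.card = c ∧
          192 * L < ((S.card * r + T.card * k : ℕ) : ℝ) ∧
          S.card * r + T.card * k ≤ v * r ∧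
          (bd (vr σ) (Prod.fst : Fin b × Fin k → Fin b) S T : ℝ) <
            (192 * L)⁻¹ * (S.card * r + T.card * k)) with hA
  rcases Nat.eq_zero_or_pos A.card with h0 | h0
  · rw [h0]; simp; exact hF0
  have hmpos : (1 : ℝ) ≤ (v : ℝ) * r := by
    have : 1 ≤ v * r := Nat.mul_pos hv (by omega)
    exact_mod_cast this
  have hLpos : 1 ≤ L := by
    rw [hL, Real.le_logb_iff_rpow_le (by norm_num) (by positivity)]
    simp
    linarith
  obtain ⟨σ, hσ⟩ := Finset.card_pos.mp h0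
  rw [hA, Finset.mem_filter] at hσ
  obtain ⟨_, S, T, hS, hT, hW, hSm, hbd⟩ := hσ
  rw [hS, hT] at hW hSm hbd
  set w : ℕ := a * r + c * k with hw
  set d : ℕ := ⌊(192 * L)⁻¹ * (w : ℝ)⌋₊ with hd
  have hwpos : (0 : ℝ) < w := by linarith
  have hdle : (d : ℝ) ≤ (192 * L)⁻¹ * (w : ℝ) := Nat.floor_le (by positivity)
  have hdbd : ∀ (τ : (Fin b × Fin k) ≃ (Fin v × Fin r)) (S' : Finset (Fin v))
      (T' : Finset (Fin b)), S'.card = a → T'.card = c →
      (bd (vr τ) (Prod.fst : Fin b × Fin k → Fin b) S' T' : ℝ) <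
            (192 * L)⁻¹ * (S'.card * r + T'.card * k) →
      bd (vr τ) (Prod.fst : Fin b × Fin k → Fin b) S' T' ≤ d := by
    intro τ S' T' hS' hT' h
    rw [hd]
    apply Nat.le_floor
    rw [hS', hT'] at h
    have : (w : ℝ) = (a : ℝ) * r + c * k := by rw [hw]; push_cast; ring
    rw [this]
    exact h.le
  have hbd' : bd (vr σ) (Prod.fst : Fin b × Fin k → Fin b) S T ≤ d := by
    apply hdbd σ S T hS hT
    rw [hS, hT]; exact hbd
  have hge := Union_bd_ge hr hk hrk hv σ S T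
  rw [hS, hT] at hge
  have hsub : A ⊆ univ.filter fun σ : (Fin b × Fin k) ≃ (Fin v × Fin r) =>
        ∃ (S : Finset (Fin v)) (T : Finset (Fin b)), S.card = a ∧ T.card = c ∧
          bd (vr σ) (Prod.fst : Fin b × Fin k → Fin b) S T ≤ d := by
    intro τ hτ
    rw [hA, Finset.mem_filter] at hτ
    obtain ⟨_, S', T', hS', hT', hW', hSm', hbd''⟩ := hτ
    rw [Finset.mem_filter]
    exact ⟨Finset.mem_univ _, S', T', hS', hT', hdbd τ S' T' hS' hT' hbd''⟩
  have hpb := Union_pair_nat hr hk hrk hm a c d hSm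
  have hpb2 : A.card ^ 6 * (v * r).choose (a * r) ≤
      ((v * r + 1) ^ (2 * d) * Fintype.card ((Fin b × Fin k) ≃ (Fin v × Fin r))) ^ 6 :=
    (Nat.mul_le_mul_right _ (Nat.pow_le_pow_left (Finset.card_le_card hsub) 6)).trans hpb
  -- the exponent
  obtain ⟨j, hj1, hj2⟩ : ∃ j : ℕ, w ≤ 2 * j + d ∧ 2 ^ j ≤ (v * r).choose (a * r) := by
    rcases Nat.lt_or_ge (v * r) (2 * (a * r)) with h | h
    · refine ⟨v * r - a * r, by omega, ?_⟩
      rw [← Nat.choose_symm (by omega : a * r ≤ v * r)]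
      exact two_pow_le_choose (by omega)
    · exact ⟨a * r, by omega, two_pow_le_choose h⟩
  have hpb3 : (A.card : ℝ) ^ 6 * 2 ^ j ≤ (((v : ℝ) * r + 1) ^ (2 * d) * F) ^ 6 := by
    have : A.card ^ 6 * 2 ^ j ≤
      ((v * r + 1) ^ (2 * d) * Fintype.card ((Fin b × Fin k) ≃ (Fin v × Fin r))) ^ 6 :=
      (Nat.mul_le_mul_left _ hj2).trans hpb2
    rw [hF]
    exact_mod_cast this
  set m : ℝ := (v : ℝ) * r + 1 with hmdef
  have hm2 : (2 : ℝ) ^ L = m := by
    rw [hL]; exact Real.rpow_logb (by norm_num) (by norm_num) (by linarith)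
  have hexp : m ^ (12 * d + 18) ≤ (2 : ℝ) ^ j := by
    rw [← hm2, ← Real.rpow_natCast (2 : ℝ) j, ← Real.rpow_mul_natCast (by norm_num : (0 : ℝ) ≤ 2)]
    apply Real.rpow_le_rpow_of_exponent_le (by norm_num)
    have h1 : (w : ℝ) ≤ 2 * j + d := by exact_mod_cast hj1
    have h2 : (d : ℝ) * (192 * L) ≤ w := by
      rw [inv_mul_eq_div, le_div_iff₀ (by positivity)] at hdle
      exact hdle
    have h3 : (d : ℝ) * 192 ≤ w := by
      have : (0 : ℝ) ≤ d := Nat.cast_nonneg _
      nlinarith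
    push_cast
    nlinarith
  have hmp : 0 < m := by linarith
  have h6 : ((A.card : ℝ) * m ^ 3) ^ 6 ≤ F ^ 6 := by
    have h7 : ((A.card : ℝ) * m ^ 3) ^ 6 * m ^ (12 * d) ≤ F ^ 6 * m ^ (12 * d) := by
      calc ((A.card : ℝ) * m ^ 3) ^ 6 * m ^ (12 * d)
          = (A.card : ℝ) ^ 6 * m ^ (12 * d + 18) := by
            rw [pow_add]; ring
        _ ≤ (A.card : ℝ) ^ 6 * 2 ^ j := mul_le_mul_of_nonneg_left hexp (by positivity)
        _ ≤ (m ^ (2 * d) * F) ^ 6 := hpb3
        _ = F ^ 6 * m ^ (12 * d) := by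
            rw [mul_pow, ← pow_mul]; ring_nf
    exact le_of_mul_le_mul_right h7 (by positivity)
  exact le_of_pow_le_pow_left₀ (by norm_num) hF0 h6

/-- large sets -/
theorem large_bound : ∃ m0 : ℕ, ∀ v b r k : ℕ, 2 ≤ r → 2 ≤ k → 5 ≤ r + k → v * r = b * k →
    m0 ≤ v * r →
    8 * ((univ.filter fun σ : (Fin b × Fin k) ≃ (Fin v × Fin r) =>
        ∃ (S : Finset (Fin v)) (T : Finset (Fin b)),
          192 * Real.logb 2 (v * r + 1) < ((S.card * r + T.card * k : ℕ) : ℝ) ∧
          S.card * r + T.card * k ≤ v * r ∧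
          (bd (vr σ) (Prod.fst : Fin b × Fin k → Fin b) S T : ℝ) <
            (192 * Real.logb 2 (v * r + 1))⁻¹ * (S.card * r + T.card * k)).card : ℝ) ≤
      Fintype.card ((Fin b × Fin k) ≃ (Fin v × Fin r)) := by
  classical
  refine ⟨8, fun v b r k hr hk hrk hm hmm => ?_⟩
  have hv : 1 ≤ v := by
    rcases Nat.eq_zero_or_pos v with h | h
    · rw [h] at hmm; simp at hmm
    · exact h
  set F : ℝ := ((Fintype.card ((Fin b × Fin k) ≃ (Fin v × Fin r)) : ℕ) : ℝ) with hF
  have hF0 : 0 ≤ F := by rw [hF]; positivity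
  set L : ℝ := Real.logb 2 ((v : ℝ) * r + 1) with hL
  set A := (univ.filter fun σ : (Fin b × Fin k) ≃ (Fin v × Fin r) =>
        ∃ (S : Finset (Fin v)) (T : Finset (Fin b)),
          192 * L < ((S.card * r + T.card * k : ℕ) : ℝ) ∧
          S.card * r + T.card * k ≤ v * r ∧
          (bd (vr σ) (Prod.fst : Fin b × Fin k → Fin b) S T : ℝ) <
            (192 * L)⁻¹ * (S.card * r + T.card * k)) with hA
  set N : ℕ → ℕ → Finset ((Fin b × Fin k) ≃ (Fin v × Fin r)) := fun a c =>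
    (univ.filter fun σ : (Fin b × Fin k) ≃ (Fin v × Fin r) =>
        ∃ (S : Finset (Fin v)) (T : Finset (Fin b)), S.card = a ∧ T.card = c ∧
          192 * L < ((S.card * r + T.card * k : ℕ) : ℝ) ∧
          S.card * r + T.card * k ≤ v * r ∧
          (bd (vr σ) (Prod.fst : Fin b × Fin k → Fin b) S T : ℝ) <
            (192 * L)⁻¹ * (S.card * r + T.card * k)) with hN
  have hN1 : ∀ a c, ((N a c).card : ℝ) * ((v : ℝ) * r + 1) ^ 3 ≤ F := by
    intro a c
    exact Union_large_one hr hk hrk hm hv a c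
  have hsub : A ⊆ (Finset.range (v * r + 1)).biUnion fun a =>
      (Finset.range (v * r + 1)).biUnion fun c => N a c := by
    intro σ hσ
    rw [hA, Finset.mem_filter] at hσ
    obtain ⟨_, S, T, hW, hSm, hbd⟩ := hσ
    simp only [Finset.mem_biUnion, Finset.mem_range]
    have h1 : S.card ≤ S.card * r := Nat.le_mul_of_pos_right _ (by omega)
    have h2 : T.card ≤ T.card * k := Nat.le_mul_of_pos_right _ (by omega)
    refine ⟨S.card, by omega, T.card, by omega, ?_⟩
    rw [hN]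
    simp only [Finset.mem_filter]
    exact ⟨Finset.mem_univ _, S, T, rfl, rfl, hW, hSm, hbd⟩
  have hcard : (A.card : ℝ) ≤ ∑ a ∈ Finset.range (v * r + 1),
      ∑ c ∈ Finset.range (v * r + 1), ((N a c).card : ℝ) := by
    have := (Finset.card_le_card hsub).trans (Finset.card_biUnion_le.trans
      (Finset.sum_le_sum fun a _ => Finset.card_biUnion_le))
    exact_mod_cast this
  set m : ℝ := (v : ℝ) * r + 1 with hmdef
  have hm8 : 8 ≤ m := by
    have : (8 : ℝ) ≤ (v : ℝ) * r := by exact_mod_cast hmm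
    linarith
  have hsum : (A.card : ℝ) * m ^ 3 ≤ m ^ 2 * F := by
    calc (A.card : ℝ) * m ^ 3
        ≤ (∑ a ∈ Finset.range (v * r + 1),
      ∑ c ∈ Finset.range (v * r + 1), ((N a c).card : ℝ)) * m ^ 3 :=
          mul_le_mul_of_nonneg_right hcard (by positivity)
      _ = ∑ a ∈ Finset.range (v * r + 1),
      ∑ c ∈ Finset.range (v * r + 1), ((N a c).card : ℝ) * m ^ 3 := by
          rw [Finset.sum_mul]
          exact Finset.sum_congr rfl fun a _ => Finset.sum_mul _ _ _
      _ ≤ ∑ a ∈ Finset.range (v * r + 1), ∑ c ∈ Finset.range (v * r + 1), F :=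
          Finset.sum_le_sum fun a _ => Finset.sum_le_sum fun c _ => hN1 a c
      _ = m ^ 2 * F := by
          rw [Finset.sum_const, Finset.sum_const, Finset.card_range]
          simp only [nsmul_eq_mul]
          rw [hmdef]; push_cast; ring
  have hmul : (8 * (A.card : ℝ)) * m ^ 2 ≤ F * m ^ 2 := by
    calc (8 * (A.card : ℝ)) * m ^ 2 ≤ (m * (A.card : ℝ)) * m ^ 2 := by
          apply mul_le_mul_of_nonneg_right _ (by positivity)
          exact mul_le_mul_of_nonneg_right hm8 (by positivity)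
      _ = (A.card : ℝ) * m ^ 3 := by ring
      _ ≤ m ^ 2 * F := hsum
      _ = F * m ^ 2 := by ring
  exact le_of_mul_le_mul_right hmul (by positivity)

open Classical in
theorem union_bound : ∃ m0 : ℕ, ∀ v b r k : ℕ, 2 ≤ r → 2 ≤ k → 5 ≤ r + k → v * r = b * k →
    m0 ≤ v * r →
    4 * ((univ.filter fun σ : (Fin b × Fin k) ≃ (Fin v × Fin r) =>
        ¬ Cond (vr σ) (Prod.fst : Fin b × Fin k → Fin b) r k
          (192 * Real.logb 2 (v * r + 1))⁻¹).card : ℝ) ≤
      Fintype.card ((Fin b × Fin k) ≃ (Fin v × Fin r)) := by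
  obtain ⟨m1, h1⟩ := small_bound
  obtain ⟨m2, h2⟩ := large_bound
  refine ⟨m1 + m2 + 1, fun v b r k hr hk hrk hm hmm => ?_⟩
  have hv : 1 ≤ v := by
    rcases Nat.eq_zero_or_pos v with h | h
    · rw [h] at hmm; simp at hmm
    · exact h
  have hs := h1 v b r k hr hk hrk hm (by omega)
  have hl := h2 v b r k hr hk hrk hm (by omega)
  set F : ℝ := ((Fintype.card ((Fin b × Fin k) ≃ (Fin v × Fin r)) : ℕ) : ℝ) with hF
  set L : ℝ := Real.logb 2 ((v : ℝ) * r + 1) with hL
  have hmpos : (1 : ℝ) ≤ (v : ℝ) * r := by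
    have : 1 ≤ v * r := by omega
    exact_mod_cast this
  have hLpos : 1 ≤ L := by
    rw [hL, Real.le_logb_iff_rpow_le (by norm_num) (by positivity)]
    simp
    linarith
  set A1 := (univ.filter fun σ : (Fin b × Fin k) ≃ (Fin v × Fin r) =>
        ∃ (S : Finset (Fin v)) (T : Finset (Fin b)), 1 ≤ S.card ∧
          ((S.card * r + T.card * k : ℕ) : ℝ) ≤ 192 * L ∧
          S.card * r + T.card * k ≤ v * r ∧
          bd (vr σ) (Prod.fst : Fin b × Fin k → Fin b) S T = 0) with hA1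
  set A2 := (univ.filter fun σ : (Fin b × Fin k) ≃ (Fin v × Fin r) =>
        ∃ (S : Finset (Fin v)) (T : Finset (Fin b)),
          192 * L < ((S.card * r + T.card * k : ℕ) : ℝ) ∧
          S.card * r + T.card * k ≤ v * r ∧
          (bd (vr σ) (Prod.fst : Fin b × Fin k → Fin b) S T : ℝ) <
            (192 * L)⁻¹ * (S.card * r + T.card * k)) with hA2
  have hsub : (univ.filter fun σ : (Fin b × Fin k) ≃ (Fin v × Fin r) =>
        ¬ Cond (vr σ) (Prod.fst : Fin b × Fin k → Fin b) r k (192 * L)⁻¹) ⊆ A1 ∪ A2 := by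
    intro σ hσ
    rw [Finset.mem_filter] at hσ
    have hσ2 := hσ.2
    unfold Cond at hσ2
    push Not at hσ2
    obtain ⟨S, T, hST, hbd⟩ := hσ2
    have hcardP : Fintype.card (Fin b × Fin k) = v * r := by
      rw [Fintype.card_prod, Fintype.card_fin, Fintype.card_fin, hm]
    rw [hcardP] at hST
    rw [Finset.mem_union]
    rcases le_or_gt ((S.card * r + T.card * k : ℕ) : ℝ) (192 * L) with hw | hw
    · left
      rw [hA1, Finset.mem_filter]
      have hbd0 : bd (vr σ) (Prod.fst : Fin b × Fin k → Fin b) S T = 0 := by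
        have h3 : (bd (vr σ) (Prod.fst : Fin b × Fin k → Fin b) S T : ℝ) < 1 := by
          refine lt_of_lt_of_le hbd ?_
          rw [inv_mul_le_iff₀ (by positivity), mul_one]
          push_cast at hw
          exact hw
        have h4 : bd (vr σ) (Prod.fst : Fin b × Fin k → Fin b) S T < 1 := by exact_mod_cast h3
        omega
      refine ⟨Finset.mem_univ _, S, T, ?_, hw, hST, hbd0⟩
      by_contra hS
      have hS0 : S.card = 0 := by omega
      have hge := Union_bd_ge hr hk hrk hv σ S T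
      rw [hbd0, hS0] at hge
      have hT0 : T.card * k = 0 := by omega
      have hTk : (T.card : ℝ) * k = 0 := by exact_mod_cast hT0
      rw [hbd0, hS0, hTk] at hbd
      simp at hbd
    · right
      rw [hA2, Finset.mem_filter]
      exact ⟨Finset.mem_univ _, S, T, hw, hST, hbd⟩
  have hcard : ((univ.filter fun σ : (Fin b × Fin k) ≃ (Fin v × Fin r) =>
        ¬ Cond (vr σ) (Prod.fst : Fin b × Fin k → Fin b) r k (192 * L)⁻¹).card : ℝ) ≤
      A1.card + A2.card := by
    have := (Finset.card_le_card hsub).trans (Finset.card_union_le _ _)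
    exact_mod_cast this
  have e1 : (8 * (A1.card : ℝ)) ≤ F := by
    convert hs using 3
  have e2 : (8 * (A2.card : ℝ)) ≤ F := by
    convert hl using 3
  linarith

end Pool.Agent.Lib.MP_a7e07e_co.Sp
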