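import Pool.Agent.Lib.MP_a7e07e_co.Sp.Mat

set_option autoImplicit false

/-! # The walk on the plots is doubly stochastic -/

namespace Pool.Agent.Lib.MP_a7e07e_co.Sp

open Matrix Finset

section Walk_aux

variable {Q : Type} [Fintype Q] [DecidableEq Q]

/-- doubly stochastic matrices -/
def Walk_DS (M : Matrix Q Q ℝ) : Prop :=
  (∀ x y, 0 ≤ M x y) ∧ (∀ x, ∑ y, M x y = 1) ∧ (∀ y, ∑ x, M x y = 1)

theorem Walk_DS_mul {M N : Matrix Q Q ℝ} (h1 : Walk_DS M) (h2 : Walk_DS N) : Walk_DS (M * N) := by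
  refine ⟨fun x y => ?_, fun x => ?_, fun y => ?_⟩
  · rw [Matrix.mul_apply]
    exact Finset.sum_nonneg fun z _ => mul_nonneg (h1.1 x z) (h2.1 z y)
  · simp only [Matrix.mul_apply]
    rw [Finset.sum_comm]
    simp only [← Finset.mul_sum, h2.2.1, mul_one]
    exact h1.2.1 x
  · simp only [Matrix.mul_apply]
    rw [Finset.sum_comm]
    simp only [← Finset.sum_mul, h1.2.2, one_mul]
    exact h2.2.2 y

theorem Walk_DS_one : Walk_DS (1 : Matrix Q Q ℝ) := by
  refine ⟨fun x y => ?_, fun x => ?_, fun y => ?_⟩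
  · rw [Matrix.one_apply]
    split_ifs <;> norm_num
  · simp [Matrix.one_apply]
  · simp [Matrix.one_apply]

theorem Walk_DS_pow {M : Matrix Q Q ℝ} (h : Walk_DS M) (l : ℕ) : Walk_DS (M ^ l) := by
  induction l with
  | zero => rw [pow_zero]; exact Walk_DS_one
  | succ l ih => rw [pow_succ]; exact Walk_DS_mul ih h

end Walk_aux

variable {P V B : Type} [Fintype P] [DecidableEq P] [Fintype V] [DecidableEq V] [Fintype B]
  [DecidableEq B] {var : P → V} {blk : P → B} {r k : ℕ}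

theorem Walk_DS_cw {C : Type} [Fintype C] [DecidableEq C] {c : P → C} {n : ℕ} (h : Unif c n)
    (hn : 2 ≤ n) : Walk_DS (cw c n) := by
  refine ⟨fun x y => cw_nonneg hn x y, fun x => cw_row h hn x, fun y => ?_⟩
  have h1 : ∀ x, cw c n x y = cw c n y x := by
    intro x
    have := congrFun (congrFun (cw_transpose c n) y) x
    rw [Matrix.transpose_apply] at this
    exact this
  rw [Finset.sum_congr rfl (fun x _ => h1 x)]
  exact cw_row h hn y

theorem Walk_DS_AA (h : IsD var blk r k) (l : ℕ) : Walk_DS ((AA var blk r k) ^ l) :=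
  Walk_DS_pow (Walk_DS_mul (Walk_DS_cw h.ub h.hk) (Walk_DS_cw h.uv h.hr)) l

theorem Walk_DS_AR (h : IsD var blk r k) (l : ℕ) : Walk_DS ((AR var blk r k) ^ l) :=
  Walk_DS_pow (Walk_DS_mul (Walk_DS_cw h.uv h.hr) (Walk_DS_cw h.ub h.hk)) l

theorem AA_nonneg (h : IsD var blk r k) (l : ℕ) (x y : P) : 0 ≤ ((AA var blk r k) ^ l) x y :=
  (Walk_DS_AA h l).1 x y

theorem AA_row (h : IsD var blk r k) (l : ℕ) (x : P) : ∑ y, ((AA var blk r k) ^ l) x y = 1 :=
  (Walk_DS_AA h l).2.1 x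

theorem AA_col (h : IsD var blk r k) (l : ℕ) (y : P) : ∑ x, ((AA var blk r k) ^ l) x y = 1 :=
  (Walk_DS_AA h l).2.2 y

theorem AAk_nonneg (h : IsD var blk r k) (l : ℕ) (x y : P) :
    0 ≤ ((AA var blk r k) ^ l * cw blk k) x y :=
  (Walk_DS_mul (Walk_DS_AA h l) (Walk_DS_cw h.ub h.hk)).1 x y

theorem AAk_col (h : IsD var blk r k) (l : ℕ) (y : P) :
    ∑ x, ((AA var blk r k) ^ l * cw blk k) x y = 1 :=
  (Walk_DS_mul (Walk_DS_AA h l) (Walk_DS_cw h.ub h.hk)).2.2 y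

theorem AR_nonneg (h : IsD var blk r k) (l : ℕ) (x y : P) : 0 ≤ ((AR var blk r k) ^ l) x y :=
  (Walk_DS_AR h l).1 x y

theorem AR_row (h : IsD var blk r k) (l : ℕ) (x : P) : ∑ y, ((AR var blk r k) ^ l) x y = 1 :=
  (Walk_DS_AR h l).2.1 x

theorem AR_col (h : IsD var blk r k) (l : ℕ) (y : P) : ∑ x, ((AR var blk r k) ^ l) x y = 1 :=
  (Walk_DS_AR h l).2.2 y

theorem ARr_nonneg (h : IsD var blk r k) (l : ℕ) (x y : P) :
    0 ≤ ((AR var blk r k) ^ l * cw var r) x y :=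
  (Walk_DS_mul (Walk_DS_AR h l) (Walk_DS_cw h.uv h.hr)).1 x y

theorem ARr_col (h : IsD var blk r k) (l : ℕ) (y : P) :
    ∑ x, ((AR var blk r k) ^ l * cw var r) x y = 1 :=
  (Walk_DS_mul (Walk_DS_AR h l) (Walk_DS_cw h.uv h.hr)).2.2 y

/-- the reversed walk is the transposed matrix -/
theorem AR_eq_transpose (l : ℕ) : (AR var blk r k) ^ l = ((AA var blk r k) ^ l)ᵀ := by
  rw [Matrix.transpose_pow]
  congr 1
  unfold AR AA
  rw [Matrix.transpose_mul, cw_transpose, cw_transpose]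

theorem trace_AR (l : ℕ) : ((AR var blk r k) ^ l).trace = tt var blk r k l := by
  rw [AR_eq_transpose, Matrix.trace_transpose]
  rfl

theorem tt_nonneg (h : IsD var blk r k) (l : ℕ) : 0 ≤ tt var blk r k l :=
  Finset.sum_nonneg fun x _ => AA_nonneg h l x x

theorem YY_nonneg (h : IsD var blk r k) (l : ℕ) : 0 ≤ YY var blk r k l :=
  Finset.sum_nonneg fun x _ => AAk_nonneg h l x x

theorem ZZ_nonneg (h : IsD var blk r k) (l : ℕ) : 0 ≤ ZZ var blk r k l :=
  Finset.sum_nonneg fun x _ => ARr_nonneg h l x x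

end Pool.Agent.Lib.MP_a7e07e_co.Sp
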